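import Pool.Agent.R211.SV.Lv

/-!
The quadratic term at the frequencies of the chain.
-/

set_option autoImplicit false

open Set Filter Topology MeasureTheory
open scoped ComplexConjugate

namespace Pool.Agent.R211.SV

open Pool.Agent.H708R2.EulerSign (V Periodic3 Dom divergence)
open Pool.Agent.H708R2.EulerModes
open Pool.Agent.Y302.Trunc
open Pool.Agent.Y302.Tri
open Pool.Agent.Y302.KP (Fc gc sr)

variable {M : ℕ} {v : V → V}

/-- Square summability of the coefficients. -/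
lemma sq_hasSum (hv1 : ContDiff ℝ 1 v) (hp : Periodic3 v) (i : Fin 3) :
    Summable fun k => ‖cv v i k‖ ^ 2 := by
  have hc : Continuous (fun x => v x i) := (continuous_apply i).comp hv1.continuous
  have h := parseval (comp_periodic hp i) hc (comp_periodic hp i) hc
  refine (Complex.hasSum_re h).summable.congr fun k => ?_
  rw [← Complex.normSq_eq_conj_mul_self, Complex.ofReal_re, Complex.normSq_eq_norm_sq]
  rfl

lemma sq_grad_hasSum (hv1 : ContDiff ℝ 1 v) (hp : Periodic3 v) (i j : Fin 3) :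
    Summable fun k : K3 => (k j : ℝ) ^ 2 * ‖cv v i k‖ ^ 2 := by
  have hc : Continuous (fun x => fderiv ℝ v x (Pi.single j 1) i) :=
    (continuous_apply i).comp ((hv1.continuous_fderiv one_ne_zero).clm_apply continuous_const)
  have hp' : Periodic3 (fun x => fderiv ℝ v x (Pi.single j 1) i) := by
    intro m x
    simp only
    rw [hp.fderiv m x]
  have h := parseval hp' hc hp' hc
  refine (Complex.hasSum_re h).summable.congr fun k => ?_
  rw [← Complex.normSq_eq_conj_mul_self, Complex.ofReal_re, Complex.normSq_eq_norm_sq,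
    cf_grad hv1 hp, norm_mul, norm_mul, Complex.norm_I, one_mul, mul_pow, Complex.norm_intCast,
    sq_abs]

lemma summable_sz2 (hv1 : ContDiff ℝ 1 v) (hp : Periodic3 v) :
    Summable fun k => sz (cv v) k ^ 2 := by
  refine Summable.of_nonneg_of_le (fun k => sq_nonneg _) (fun k => sz_sq_le k)
    ((summable_sum fun i _ => sq_hasSum hv1 hp i).mul_left 3)

lemma N1_sq_le (k : K3) : N1 k ^ 2 ≤ 3 * ∑ j, (k j : ℝ) ^ 2 := by
  unfold N1
  rw [Fin.sum_univ_three, Fin.sum_univ_three]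
  have h0 := sq_abs (k 0 : ℝ)
  have h1 := sq_abs (k 1 : ℝ)
  have h2 := sq_abs (k 2 : ℝ)
  nlinarith [sq_nonneg (|(k 0 : ℝ)| - |(k 1 : ℝ)|), sq_nonneg (|(k 0 : ℝ)| - |(k 2 : ℝ)|),
    sq_nonneg (|(k 1 : ℝ)| - |(k 2 : ℝ)|)]

lemma summable_k2 (hv1 : ContDiff ℝ 1 v) (hp : Periodic3 v) :
    Summable fun k : K3 => (∑ j, (k j : ℝ) ^ 2) * ∑ i, ‖cv v i k‖ ^ 2 := by
  simp only [Finset.sum_mul, Finset.mul_sum]
  exact summable_sum fun j _ => summable_sum fun i _ => sq_grad_hasSum hv1 hp j i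

lemma N1sz_le (k : K3) : (N1 k * sz (cv v) k) ^ 2
    ≤ 9 * ((∑ j, (k j : ℝ) ^ 2) * ∑ i, ‖cv v i k‖ ^ 2) := by
  rw [mul_pow]
  calc N1 k ^ 2 * sz (cv v) k ^ 2
      ≤ (3 * ∑ j, (k j : ℝ) ^ 2) * (3 * ∑ i, ‖cv v i k‖ ^ 2) :=
        mul_le_mul (N1_sq_le k) (sz_sq_le k) (sq_nonneg _)
          (mul_nonneg (by norm_num) (Finset.sum_nonneg fun _ _ => sq_nonneg _))
    _ = _ := by ring

/-- The weighted size away from the chain. -/
noncomputable def Wf (M : ℕ) (v : V → V) (k : K3) : ℝ :=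
  open Classical in if k ∈ Cset M then 0 else N1 k * sz (cv v) k

lemma Wf_nonneg (k : K3) : 0 ≤ Wf M v k := by
  unfold Wf
  split_ifs
  · exact le_rfl
  · exact mul_nonneg (N1_nonneg _) (sz_nonneg _ _)

lemma summable_Wf (hv1 : ContDiff ℝ 1 v) (hp : Periodic3 v) :
    Summable fun k => Wf M v k ^ 2 := by
  refine Summable.of_nonneg_of_le (fun k => sq_nonneg _) (fun k => ?_)
    ((summable_k2 hv1 hp).mul_left 9)
  unfold Wf
  split_ifs with h
  · rw [zero_pow two_ne_zero]
    exact mul_nonneg (by norm_num) (mul_nonneg (Finset.sum_nonneg fun _ _ => sq_nonneg _)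
      (Finset.sum_nonneg fun _ _ => sq_nonneg _))
  · exact N1sz_le k

lemma N1_Lev (hM : 0 < M) {n : ℕ} {l : K3} (hl : l ∈ Lev M n) : N1 l ≤ 36 * sg M n := by
  unfold N1
  have h : ∀ j, |(l j : ℝ)| ≤ 12 * (sg M n : ℝ) := fun j => by exact_mod_cast Lev_up hM hl j
  calc ∑ j, |(l j : ℝ)| ≤ ∑ _j : Fin 3, 12 * (sg M n : ℝ) := Finset.sum_le_sum fun j _ => h j
    _ = _ := by simp; ring

lemma sg_mono (hM : 0 < M) {n m : ℕ} (h : n ≤ m) : sg M n ≤ sg M m := by
  unfold sg
  have h1 : n / 4 ≤ m / 4 := Nat.div_le_div_right h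
  exact mul_le_mul_of_nonneg_left (pow_le_pow_right₀ (by norm_num) h1) (by positivity)

/-- If `l` and `p` are in the chain and `l - p ≠ 0` then `l - p` is not small. -/
lemma N1_diff (hM : 0 < M) {n : ℕ} {l p : K3} (hl : l ∈ Lev M n) (hp : p ∈ Cset M)
    (h : l - p ≠ 0) : N1 l ≤ 2304 * N1 (l - p) := by
  obtain ⟨m, hm⟩ := hp
  have hm' := neg_mem_Lev hM hm
  have hs : ∃ i, sg M n ≤ 64 * |(l - p) i| := by
    rcases le_total n m with hnm | hnm
    · have h1 : l + -p ≠ 0 := by rwa [← sub_eq_add_neg]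
      obtain ⟨i, hi⟩ := sum_low hM hnm hl hm' h1
      refine ⟨i, (sg_mono hM hnm).trans ?_⟩
      rwa [← sub_eq_add_neg] at hi
    · have h1 : -p + l ≠ 0 := by rwa [add_comm, ← sub_eq_add_neg]
      obtain ⟨i, hi⟩ := sum_low hM hnm hm' hl h1
      refine ⟨i, ?_⟩
      rwa [add_comm (-p) l, ← sub_eq_add_neg] at hi
  obtain ⟨i, hi⟩ := hs
  have h2 : |((l - p) i : ℝ)| ≤ N1 (l - p) :=
    Finset.single_le_sum (f := fun j => |((l - p) j : ℝ)|) (fun _ _ => abs_nonneg _)
      (Finset.mem_univ i)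
  have h3 : (sg M n : ℝ) ≤ 64 * |((l - p) i : ℝ)| := by exact_mod_cast hi
  have h4 := N1_Lev hM hl
  linarith

lemma N1_add_le (p q : K3) : N1 (p + q) ≤ N1 p + N1 q := by
  unfold N1
  rw [← Finset.sum_add_distrib]
  refine Finset.sum_le_sum fun j _ => ?_
  rw [Pi.add_apply]
  push_cast
  exact abs_add_le _ _

/-- The pointwise bound for the interactions which involve a frequency away from the chain. -/
lemma inter_le (hM : 0 < M) (hz : sz (cv v) 0 = 0) {n : ℕ} {l : K3} (hl : l ∈ Lev M n) (q : K3)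
    (h : ¬ (q ∈ Cset M ∧ l - q ∈ Cset M)) :
    N1 l * (sz (cv v) (l - q) * sz (cv v) q)
      ≤ 2304 * (Wf M v (l - q) * sz (cv v) q + sz (cv v) (l - q) * Wf M v q) := by
  have hs1 := sz_nonneg (cv v) (l - q)
  have hs2 := sz_nonneg (cv v) q
  have hW1 := Wf_nonneg (M := M) (v := v) (l - q)
  have hW2 := Wf_nonneg (M := M) (v := v) q
  by_cases hq : q ∈ Cset M
  · have hlq : l - q ∉ Cset M := fun h1 => h ⟨hq, h1⟩
    have hW : Wf M v (l - q) = N1 (l - q) * sz (cv v) (l - q) := by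
      unfold Wf
      rw [if_neg hlq]
    by_cases h0 : l - q = 0
    · rw [h0] at hs1 ⊢
      rw [hz]
      have := mul_nonneg hW1 hs2
      rw [h0] at this
      nlinarith
    · have h1 := N1_diff hM hl hq h0
      rw [hW]
      have h2 := mul_le_mul_of_nonneg_right h1 (mul_nonneg hs1 hs2)
      have h3 := mul_nonneg hs1 hW2
      nlinarith
  · have hW : Wf M v q = N1 q * sz (cv v) q := by
      unfold Wf
      rw [if_neg hq]
    by_cases hlq : l - q ∈ Cset M
    · have e : l - (l - q) = q := by abel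
      by_cases h0 : q = 0
      · rw [h0] at hs2 ⊢
        rw [hz]
        have := mul_nonneg hs1 hW2
        rw [h0] at this
        nlinarith
      · have h1 := N1_diff hM hl hlq (by rwa [e])
        rw [e] at h1
        rw [hW]
        have h2 := mul_le_mul_of_nonneg_right h1 (mul_nonneg hs1 hs2)
        have h3 := mul_nonneg hW1 hs2
        nlinarith
    · have hW' : Wf M v (l - q) = N1 (l - q) * sz (cv v) (l - q) := by
        unfold Wf
        rw [if_neg hlq]
      have h1 : N1 l ≤ N1 (l - q) + N1 q := by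
        have := N1_add_le (l - q) q
        rwa [sub_add_cancel] at this
      rw [hW, hW']
      have h2 := mul_le_mul_of_nonneg_right h1 (mul_nonneg hs1 hs2)
      have h3 : 0 ≤ N1 (l - q) * sz (cv v) (l - q) * sz (cv v) q :=
        mul_nonneg (mul_nonneg (N1_nonneg _) hs1) hs2
      have h4 : 0 ≤ sz (cv v) (l - q) * (N1 q * sz (cv v) q) :=
        mul_nonneg hs1 (mul_nonneg (N1_nonneg _) hs2)
      nlinarith

/-- Cauchy-Schwarz for convolutions. -/
lemma conv_cs {f g : K3 → ℝ} (hf : Summable fun k => f k ^ 2) (hg : Summable fun k => g k ^ 2)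
    (hf0 : ∀ k, 0 ≤ f k) (hg0 : ∀ k, 0 ≤ g k) (l : K3) :
    Summable (fun q => f (l - q) * g q) ∧
      ∑' q, f (l - q) * g q ≤ √(∑' k, f k ^ 2) * √(∑' k, g k ^ 2) := by
  have hf' : Summable fun q => f (l - q) ^ 2 := by
    have := (Equiv.subLeft l).summable_iff (f := fun k => f k ^ 2)
    exact this.2 hf
  have hft : ∑' q, f (l - q) ^ 2 = ∑' k, f k ^ 2 :=
    (Equiv.subLeft l).tsum_eq (fun k => f k ^ 2)
  have h := Real.summable_and_inner_le_Lp_mul_Lq_tsum_of_nonneg
    (p := 2) (q := 2) Real.HolderConjugate.two_two (f := fun q => f (l - q)) (g := g)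
    (fun q => hf0 _) hg0 (by simpa using hf') (by simpa using hg)
  refine ⟨h.1, h.2.trans (le_of_eq ?_)⟩
  rw [Real.sqrt_eq_rpow, Real.sqrt_eq_rpow, ← hft]
  simp

/-- The part of the quadratic term which involves a frequency away from the chain. -/
noncomputable def Rt (M : ℕ) (v : V → V) (l : K3) (i : Fin 3) (q : K3) : ℂ :=
  open Classical in if q ∈ Cset M ∧ l - q ∈ Cset M then 0 else
    (Complex.I * dt (cv v) (l - q) q) * cv v i q

/-- The part of the quadratic term with both frequencies in the chain. -/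
noncomputable def St (M : ℕ) (v : V → V) (l : K3) (i : Fin 3) (q : K3) : ℂ :=
  open Classical in if q ∈ Cset M ∧ l - q ∈ Cset M then
    (Complex.I * dt (cv v) (l - q) q) * cv v i q else 0

lemma dt_shift (hv1 : ContDiff ℝ 1 v) (hp : Periodic3 v) (hd : ∀ x, divergence v x = 0)
    (l q : K3) : dt (cv v) (l - q) q = dt (cv v) (l - q) l := by
  have h1 := cv_div hv1 hp hd (l - q)
  have h2 : dt (cv v) (l - q) l = dt (cv v) (l - q) ((l - q) + q) := by rw [sub_add_cancel]
  rw [h2, dt_add_right, h1, zero_add]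

lemma norm_Rt_le (hM : 0 < M) (hv1 : ContDiff ℝ 1 v) (hp : Periodic3 v)
    (hd : ∀ x, divergence v x = 0) (hz : sz (cv v) 0 = 0) {n : ℕ} {l : K3} (hl : l ∈ Lev M n)
    (q : K3) : ∑ i, ‖Rt M v l i q‖
      ≤ 2304 * (Wf M v (l - q) * sz (cv v) q + sz (cv v) (l - q) * Wf M v q) := by
  unfold Rt
  by_cases h : q ∈ Cset M ∧ l - q ∈ Cset M
  · simp only [if_pos h, norm_zero, Finset.sum_const_zero]
    have h1 := mul_nonneg (Wf_nonneg (M := M) (v := v) (l - q)) (sz_nonneg (cv v) q)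
    have h2 := mul_nonneg (sz_nonneg (cv v) (l - q)) (Wf_nonneg (M := M) (v := v) q)
    linarith
  · simp only [if_neg h]
    refine le_trans ?_ (inter_le hM hz hl q h)
    have h1 : ∀ i, ‖(Complex.I * dt (cv v) (l - q) q) * cv v i q‖
        ≤ (sz (cv v) (l - q) * N1 l) * ‖cv v i q‖ := by
      intro i
      rw [norm_mul, norm_mul, Complex.norm_I, one_mul, dt_shift hv1 hp hd]
      exact mul_le_mul_of_nonneg_right (norm_dt_le _ _ _) (norm_nonneg _)
    refine (Finset.sum_le_sum fun i _ => h1 i).trans (le_of_eq ?_)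
    rw [← Finset.mul_sum]
    unfold sz
    ring

/-- The total of the interactions which involve a frequency away from the chain. -/
theorem Rt_bound (hM : 0 < M) (hv1 : ContDiff ℝ 1 v) (hp : Periodic3 v)
    (hd : ∀ x, divergence v x = 0) (hz : sz (cv v) 0 = 0) {n : ℕ} {l : K3} (hl : l ∈ Lev M n) :
    (∀ i, Summable (Rt M v l i)) ∧
      ∑ i, ‖∑' q, Rt M v l i q‖
        ≤ 4608 * (√(∑' k, Wf M v k ^ 2) * √(∑' k, sz (cv v) k ^ 2)) := by
  have hW := summable_Wf (M := M) hv1 hp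
  have hS := summable_sz2 hv1 hp
  have hW0 := Wf_nonneg (M := M) (v := v)
  have hS0 := sz_nonneg (cv v)
  obtain ⟨s1, b1⟩ := conv_cs hW hS hW0 hS0 l
  obtain ⟨s2, b2⟩ := conv_cs hS hW hS0 hW0 l
  have hs : Summable fun q => 2304 * (Wf M v (l - q) * sz (cv v) q
      + sz (cv v) (l - q) * Wf M v q) := (s1.add s2).mul_left 2304
  have hle := norm_Rt_le hM hv1 hp hd hz hl
  have hsn : ∀ i, Summable fun q => ‖Rt M v l i q‖ := by
    intro i
    refine Summable.of_nonneg_of_le (fun _ => norm_nonneg _) (fun q => ?_) hs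
    exact (Finset.single_le_sum (f := fun i => ‖Rt M v l i q‖) (fun _ _ => norm_nonneg _)
      (Finset.mem_univ i)).trans (hle q)
  refine ⟨fun i => (hsn i).of_norm, ?_⟩
  calc ∑ i, ‖∑' q, Rt M v l i q‖ ≤ ∑ i, ∑' q, ‖Rt M v l i q‖ :=
        Finset.sum_le_sum fun i _ => norm_tsum_le_tsum_norm (hsn i)
    _ = ∑' q, ∑ i, ‖Rt M v l i q‖ := (Summable.tsum_finsetSum fun i _ => hsn i).symm
    _ ≤ ∑' q, 2304 * (Wf M v (l - q) * sz (cv v) q + sz (cv v) (l - q) * Wf M v q) :=
        (summable_sum fun i _ => hsn i).tsum_le_tsum hle hs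
    _ = 2304 * ((∑' q, Wf M v (l - q) * sz (cv v) q)
          + ∑' q, sz (cv v) (l - q) * Wf M v q) := by
        rw [tsum_mul_left, s1.tsum_add s2]
    _ ≤ _ := by nlinarith

end Pool.Agent.R211.SV
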