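import Pool.Agent.R211.SV.Loc5
import Pool.Agent.R211.SV.Quad

/-!
Local existence: the classical solution.
-/

set_option autoImplicit false
set_option linter.unusedSectionVars false

open Set Filter Topology MeasureTheory
open scoped ENNReal Interval ComplexConjugate ContDiff

namespace Pool.Agent.R211.SV

open Pool.Agent.H708R2.EulerSign (V Periodic3 Dom divergence divergence_eq_sum)
open Pool.Agent.H708R2.EulerModes
open Pool.Agent.Y302.Trunc (K3 resc norm_iter_sin norm_iter_cos sin_smul_contDiff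
  cos_smul_contDiff ph_resc)
open Pool.Agent.Y302.Tri

/-- Euclidean space. -/
abbrev E3 := V

lemma abs_quot_le (k : K3) (j m : Fin 3) :
    |(k j : ℝ) * (k m : ℝ) / ∑ l, (k l : ℝ) ^ 2| ≤ 1 := by
  have hS : ∀ a, (k a : ℝ) ^ 2 ≤ ∑ l, (k l : ℝ) ^ 2 := fun a =>
    Finset.single_le_sum (f := fun l => (k l : ℝ) ^ 2) (fun _ _ => sq_nonneg _) (Finset.mem_univ a)
  set S := ∑ l, (k l : ℝ) ^ 2 with hSd
  have hS0 : 0 ≤ S := Finset.sum_nonneg fun _ _ => sq_nonneg _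
  have hj := hS j
  have hm := hS m
  rcases hS0.eq_or_lt with h0 | hpos
  · rw [← h0, div_zero]
    simp
  · rw [abs_div, abs_of_pos hpos, div_le_one hpos, abs_mul]
    have h1 := sq_abs (k j : ℝ)
    have h2 := sq_abs (k m : ℝ)
    nlinarith [sq_nonneg (|(k j : ℝ)| - |(k m : ℝ)|)]

/-- The kernel of the pressure. -/
noncomputable def ker3 {r : ℝ} (hr : 0 ≤ r) : Ker ℂ where
  R k q := (Real.exp (-(r * (N1 (k - q) + N1 q - N1 k))) : ℂ)
  L k _ j m := ContinuousLinearMap.mul ℝ ℂ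
    ((-((k j : ℝ) * (k m : ℝ) / ∑ l, (k l : ℝ) ^ 2) : ℝ) : ℂ)
  c := 1
  R_le k q := by
    rw [Complex.norm_real, Real.norm_eq_abs, abs_of_pos (Real.exp_pos _), Real.exp_le_one_iff]
    have h1 := N1_sub_le k q
    nlinarith
  L_le k i j m := by
    refine (ContinuousLinearMap.opNorm_mul_apply_le ℝ ℂ _).trans ?_
    rw [Complex.norm_real, Real.norm_eq_abs, abs_neg]
    exact abs_quot_le k j m

section phys

variable {τ ρ σ : ℝ} {d : K3 → ℝ} {a0 : K3 × Fin 3 → ℂ} (F : FixD τ ρ σ d a0)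

/-- The coefficients of the pressure. -/
noncomputable def FixD.pc (k : K3) (t : ℝ) : ℂ :=
  ∑ j, ∑ m, ((-((k j : ℝ) * (k m : ℝ) / ∑ l, (k l : ℝ) ^ 2) : ℝ) : ℂ) * F.cc k j m t

/-- The pressure states. -/
noncomputable def FixD.P {r : ℝ} (h0 : 0 ≤ r) (hr : r ≤ ρ / 2) (t : ℝ) : XA ℂ :=
  (ker3 h0).B (F.U hr t) (F.U hr t)

lemma FixD.P_apply {r : ℝ} (h0 : 0 ≤ r) (hr : r ≤ ρ / 2) (t : ℝ) (x : K3 × Fin 3) :
    F.P h0 hr t x = (Real.exp (r * N1 x.1) : ℂ) * F.pc x.1 t := by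
  have e0 : F.P h0 hr t x = (ker3 h0).fn (F.U hr t) (F.U hr t) x := rfl
  rw [e0]
  unfold Ker.fn FixD.pc
  rw [Finset.mul_sum]
  refine Finset.sum_congr rfl fun j _ => ?_
  rw [Finset.mul_sum]
  refine Finset.sum_congr rfl fun m _ => ?_
  have e1 : ∀ z, (ker3 h0).L x.1 x.2 j m z
      = ((-((x.1 j : ℝ) * (x.1 m : ℝ) / ∑ l, (x.1 l : ℝ) ^ 2) : ℝ) : ℂ) * z := fun _ => rfl
  have e2 : (ker3 h0).cvl (F.U hr t) (F.U hr t) x.1 j m
      = (Real.exp (r * N1 x.1) : ℂ) * F.cc x.1 j m t := F.ker2_cvl hr h0 one_pos x.1 j m t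
  rw [e1, e2]
  ring

variable (hcs : ∀ x t, conj (F.uh (-x.1, x.2) t) = F.uh x t)

include hcs

lemma FixD.cc_conj (k : K3) (j m : Fin 3) (t : ℝ) : conj (F.cc (-k) j m t) = F.cc k j m t := by
  unfold FixD.cc
  rw [Complex.conj_tsum, ← (Equiv.neg K3).tsum_eq]
  refine tsum_congr fun q => ?_
  simp only [Equiv.neg_apply]
  have e : -k - -q = -(k - q) := by abel
  rw [map_mul, e]
  have h1 := hcs (k - q, m) t
  have h2 := hcs (q, j) t
  simp only at h1 h2
  rw [h1, h2]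

lemma FixD.nh_conj (x : K3 × Fin 3) (t : ℝ) : conj (F.nh (-x.1, x.2) t) = F.nh x t := by
  unfold FixD.nh
  simp only
  rw [map_sum]
  refine Finset.sum_congr rfl fun j _ => ?_
  rw [map_sum]
  refine Finset.sum_congr rfl fun m _ => ?_
  rw [map_mul, F.cc_conj hcs, Pj_neg]
  simp only [map_mul, Complex.conj_I, Complex.conj_ofReal, map_intCast, Pi.neg_apply]
  push_cast
  ring

lemma FixD.pc_conj (k : K3) (t : ℝ) : conj (F.pc (-k) t) = F.pc k t := by
  unfold FixD.pc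
  rw [map_sum]
  refine Finset.sum_congr rfl fun j _ => ?_
  rw [map_sum]
  refine Finset.sum_congr rfl fun m _ => ?_
  rw [map_mul, F.cc_conj hcs, Complex.conj_ofReal]
  congr 2
  simp

lemma FixD.U_sym {r : ℝ} (hr : r ≤ ρ / 2) (t : ℝ) : ConjSym (F.U hr t) := by
  intro x
  rw [F.U_apply, F.U_apply, map_mul, Complex.conj_ofReal, hcs]
  simp only
  rw [N1_neg]

lemma FixD.P_sym {r : ℝ} (h0 : 0 ≤ r) (hr : r ≤ ρ / 2) (t : ℝ) : ConjSym (F.P h0 hr t) := by
  intro x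
  rw [F.P_apply, F.P_apply, map_mul, Complex.conj_ofReal]
  simp only
  rw [F.pc_conj hcs, N1_neg]

lemma FixD.G_sym (hdn : ∀ k, d (-k) = d k) {r e C : ℝ} (hr' : r + e ≤ ρ / 2) (h0 : 0 ≤ r + e)
    (he : 0 < e) (hC : ∀ k, |d k * Real.exp (-(e * N1 k))| ≤ C) (t : ℝ) :
    ConjSym (F.G hr' h0 he hC t) := by
  intro x
  rw [F.G_apply, F.G_apply, map_mul, Complex.conj_ofReal]
  simp only
  rw [N1_neg, map_sub, F.nh_conj hcs, map_mul, hcs, map_neg, Complex.conj_ofReal, hdn]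

omit hcs

include F in
lemma FixD.h4 : ρ / 4 ≤ ρ / 2 := by linarith [F.hρ0]

include F in
lemma FixD.h40 : 0 < ρ / 4 := by linarith [F.hρ0]

/-- The velocity. -/
noncomputable def FixD.vel (t : ℝ) (x : E3) : E3 := fun i => eX (ρ / 4) i x (F.U F.h4 t)

/-- The pressure. -/
noncomputable def FixD.prs (t : ℝ) (x : E3) : ℝ := eX (ρ / 4) 0 x (F.P F.h40.le F.h4 t)

lemma FixD.U_inf (hτ0 : 0 < τ) (hs : Subexp d) : ContDiffOn ℝ ∞ (F.U F.h4) (Icc 0 τ) := by
  rw [contDiffOn_infty]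
  intro n
  exact F.U_contDiffOn hτ0 hs n F.h40.le F.h4 (by linarith [F.hρ0])

lemma FixD.vel_smooth (hτ0 : 0 < τ) (hs : Subexp d) :
    ContDiffOn ℝ ∞ (fun z : ℝ × E3 => F.vel z.1 z.2) (Icc 0 τ ×ˢ univ) := by
  refine contDiffOn_pi.2 fun i => ?_
  have h1 : ContDiffOn ℝ ∞ (fun z : ℝ × E3 => eX (ρ / 4) i z.2) (Icc 0 τ ×ˢ univ) :=
    ((eX_contDiff F.h40 i).comp contDiff_snd).contDiffOn
  have h2 : ContDiffOn ℝ ∞ (fun z : ℝ × E3 => F.U F.h4 z.1) (Icc 0 τ ×ˢ univ) :=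
    (F.U_inf hτ0 hs).comp contDiffOn_fst fun z hz => hz.1
  exact h1.clm_apply h2

lemma FixD.prs_smooth (hτ0 : 0 < τ) (hs : Subexp d) :
    ContDiffOn ℝ ∞ (fun z : ℝ × E3 => F.prs z.1 z.2) (Icc 0 τ ×ˢ univ) := by
  have h1 : ContDiffOn ℝ ∞ (fun z : ℝ × E3 => eX (ρ / 4) 0 z.2) (Icc 0 τ ×ˢ univ) :=
    ((eX_contDiff F.h40 0).comp contDiff_snd).contDiffOn
  have h2 : ContDiffOn ℝ ∞ (fun z : ℝ × E3 => F.U F.h4 z.1) (Icc 0 τ ×ˢ univ) :=
    (F.U_inf hτ0 hs).comp contDiffOn_fst fun z hz => hz.1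
  have h3 : ContDiffOn ℝ ∞ (fun z : ℝ × E3 => F.P F.h40.le F.h4 z.1) (Icc 0 τ ×ˢ univ) :=
    (((ker3 F.h40.le).B.contDiff.comp_contDiffOn h2).clm_apply h2)
  exact h1.clm_apply h3

lemma FixD.vel_periodic (t : ℝ) : Periodic3 (F.vel t) := by
  intro j x
  funext i
  exact eX_periodic F.h40 i (F.U F.h4 t) j x

lemma FixD.prs_periodic (t : ℝ) : Periodic3 (F.prs t) :=
  eX_periodic F.h40 0 (F.P F.h40.le F.h4 t)

lemma exp_cancel (r : ℝ) (k : K3) (z : ℂ) :
    (Real.exp (-(r * N1 k)) : ℂ) * ((Real.exp (r * N1 k) : ℂ) * z) = z := by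
  have e : (Real.exp (-(r * N1 k)) : ℂ) * (Real.exp (r * N1 k) : ℂ) = 1 := by
    rw [← Complex.ofReal_mul, ← Real.exp_add]
    simp
  linear_combination z * e

include hcs

lemma FixD.cv_vel (t : ℝ) (i : Fin 3) (k : K3) : cv (F.vel t) i k = F.uh (k, i) t := by
  have h1 : cv (F.vel t) i k = cf (fun x => eX (ρ / 4) i x (F.U F.h4 t)) k := rfl
  rw [h1, cf_eX F.h40 i (F.U_sym hcs F.h4 t), bX, F.U_apply]
  exact exp_cancel _ _ _

lemma FixD.cf_prs (t : ℝ) (k : K3) : cf (F.prs t) k = F.pc k t := by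
  have h1 : cf (F.prs t) k = cf (fun x => eX (ρ / 4) 0 x (F.P F.h40.le F.h4 t)) k := rfl
  rw [h1, cf_eX F.h40 0 (F.P_sym hcs _ F.h4 t), bX, F.P_apply]
  exact exp_cancel _ _ _

omit hcs in
lemma FixD.vel_contDiff (t : ℝ) : ContDiff ℝ ∞ (F.vel t) :=
  contDiff_pi.2 fun i => (eX_contDiff F.h40 i).clm_apply contDiff_const

omit hcs in
lemma FixD.prs_contDiff (t : ℝ) : ContDiff ℝ ∞ (F.prs t) :=
  (eX_contDiff F.h40 0).clm_apply contDiff_const

lemma FixD.vel_div (h0 : ∀ k, ∑ i, (k i : ℂ) * a0 (k, i) = 0) {t : ℝ} (ht : t ∈ Icc 0 τ) (x : E3) :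
    divergence (F.vel t) x = 0 := by
  have hv : ContDiff ℝ 1 (F.vel t) := (F.vel_contDiff t).of_le (by exact_mod_cast le_top)
  have hp := F.vel_periodic t
  have hc : ∀ j, Continuous (fun x => fderiv ℝ (F.vel t) x (Pi.single j 1) j) := fun j =>
    (continuous_apply j).comp ((hv.continuous_fderiv one_ne_zero).clm_apply continuous_const)
  have hcd : Continuous (fun x => divergence (F.vel t) x) := by
    simp only [divergence_eq_sum]
    exact continuous_finsetSum _ fun j _ => hc j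
  have hpd : Periodic3 (fun x => divergence (F.vel t) x) := by
    intro j x
    simp only [divergence_eq_sum]
    rw [hp.fderiv j x]
  refine eq_zero_of_cf hpd hcd (fun k => ?_) x
  simp only [divergence_eq_sum]
  have h8 : Continuous (fun x => fderiv ℝ (F.vel t) x (Pi.single 0 1) 0
        + fderiv ℝ (F.vel t) x (Pi.single 1 1) 1) := (hc 0).add (hc 1)
  have h9 : (fun x => ∑ i, fderiv ℝ (F.vel t) x (Pi.single i 1) i)
      = fun x => (fderiv ℝ (F.vel t) x (Pi.single 0 1) 0 + fderiv ℝ (F.vel t) x (Pi.single 1 1) 1)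
        + fderiv ℝ (F.vel t) x (Pi.single 2 1) 2 := by
    funext x
    rw [Fin.sum_univ_three]
  rw [h9, cf_add h8 (hc 2), cf_add (hc 0) (hc 1), cf_grad hv hp, cf_grad hv hp, cf_grad hv hp,
    F.cv_vel hcs, F.cv_vel hcs, F.cv_vel hcs]
  have h10 := F.div_uh h0 k ht
  rw [Fin.sum_univ_three] at h10
  linear_combination Complex.I * h10

lemma FixD.time_deriv (hdn : ∀ k, d (-k) = d k) (hs : Subexp d) {t : ℝ} (ht : t ∈ Ico 0 τ)
    (i : Fin 3) : Continuous (fun x => derivWithin (fun s => F.vel s x i) (Ico 0 τ) t) ∧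
    ∀ k, cf (fun x => derivWithin (fun s => F.vel s x i) (Ico 0 τ) t) k
      = -(d k : ℂ) * F.uh (k, i) t - F.nh (k, i) t := by
  have he := F.h40
  obtain ⟨C, hC⟩ := hs.bound he
  have hr' : ρ / 4 + ρ / 4 ≤ ρ / 2 := by linarith
  have h0 : 0 ≤ ρ / 4 + ρ / 4 := by linarith
  have hτ0 : 0 < τ := ht.1.trans_lt ht.2
  have hd := F.U_hasDeriv F.h4 hr' h0 he hC (Ico_subset_Icc_self ht)
  have h1 : ∀ x, derivWithin (fun s => F.vel s x i) (Ico 0 τ) t
      = eX (ρ / 4) i x (F.G hr' h0 he hC t) := by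
    intro x
    have h2 : HasDerivWithinAt (fun s => F.vel s x i) (eX (ρ / 4) i x (F.G hr' h0 he hC t))
        (Ico 0 τ) t :=
      (eX (ρ / 4) i x).hasFDerivAt.comp_hasDerivWithinAt t (hd.mono Ico_subset_Icc_self)
    exact h2.derivWithin ((uniqueDiffOn_Ico 0 τ) t ht)
  constructor
  · simp only [h1]
    exact ((eX_contDiff F.h40 i).clm_apply contDiff_const : ContDiff ℝ ∞
      (fun x => eX (ρ / 4) i x (F.G hr' h0 he hC t))).continuous
  · intro k
    simp only [h1]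
    rw [cf_eX F.h40 i (F.G_sym hcs hdn hr' h0 he hC t), bX, F.G_apply]
    exact exp_cancel _ _ _

lemma FixD.cf_cvt (h0 : ∀ k, ∑ i, (k i : ℂ) * a0 (k, i) = 0) {t : ℝ} (ht : t ∈ Icc 0 τ)
    (i : Fin 3) (k : K3) :
    cf (cvt (F.vel t) i) k = ∑ m, (Complex.I * (k m : ℂ)) * F.cc k i m t := by
  have hv : ContDiff ℝ 1 (F.vel t) := (F.vel_contDiff t).of_le (by exact_mod_cast le_top)
  have hp := F.vel_periodic t
  have h1 := cvt_hasSum hv hp i k
  have h2 : HasSum (fun q => (Complex.I * dt (cv (F.vel t)) (k - q) q) * cv (F.vel t) i q)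
      (∑ m, (Complex.I * (k m : ℂ)) * F.cc k i m t) := by
    have h3 : ∀ m, HasSum (fun q => (Complex.I * (k m : ℂ)) * (F.uh (k - q, m) t * F.uh (q, i) t))
        ((Complex.I * (k m : ℂ)) * F.cc k i m t) := fun m =>
      (F.summable_cc k i m t).hasSum.mul_left _
    refine (hasSum_sum (s := Finset.univ) fun m _ => h3 m).congr_fun fun q => ?_
    rw [dt_shift hv hp (F.vel_div hcs h0 ht)]
    unfold dt
    simp only [F.cv_vel hcs]
    rw [Finset.mul_sum, Finset.sum_mul]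
    exact Finset.sum_congr rfl fun m _ => by ring
  exact h1.unique h2

/-- The equation. -/
theorem FixD.isSol (hτ0 : 0 < τ) (hdn : ∀ k, d (-k) = d k) (hs : Subexp d)
    (h0 : ∀ k, ∑ i, (k i : ℂ) * a0 (k, i) = 0) : IsSol d τ F.vel F.prs := by
  have hsub : (Ico 0 τ ×ˢ univ : Set (ℝ × E3)) ⊆ Icc 0 τ ×ˢ univ :=
    prod_mono Ico_subset_Icc_self subset_rfl
  refine ⟨⟨((F.vel_smooth hτ0 hs).mono hsub).of_le (by exact_mod_cast le_top),
    ((F.prs_smooth hτ0 hs).mono hsub).of_le (by exact_mod_cast le_top),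
    fun t _ => F.vel_periodic t, fun t _ => F.prs_periodic t,
    fun t ht x => F.vel_div hcs h0 (Ico_subset_Icc_self ht) x⟩, fun t ht k i => ?_⟩
  have hv : ContDiff ℝ 1 (F.vel t) := (F.vel_contDiff t).of_le (by exact_mod_cast le_top)
  have hq : ContDiff ℝ 1 (F.prs t) := (F.prs_contDiff t).of_le (by exact_mod_cast le_top)
  have hp := F.vel_periodic t
  obtain ⟨hc1, hcf1⟩ := F.time_deriv hcs hdn hs ht i
  have hc2 : Continuous (fun x => fderiv ℝ (F.prs t) x (Pi.single i 1)) :=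
    (hq.continuous_fderiv one_ne_zero).clm_apply continuous_const
  have hc3 := cvt_continuous hv i
  have e1 : (fun x => lin (Ico 0 τ) F.vel F.prs t i x + cvt (F.vel t) i x)
      = fun x => (derivWithin (fun s => F.vel s x i) (Ico 0 τ) t
        + fderiv ℝ (F.prs t) x (Pi.single i 1)) + cvt (F.vel t) i x := rfl
  have hc12 : Continuous (fun x => derivWithin (fun s => F.vel s x i) (Ico 0 τ) t
        + fderiv ℝ (F.prs t) x (Pi.single i 1)) := hc1.add hc2
  rw [e1, cf_add hc12 hc3, cf_add hc1 hc2, hcf1, cf_pd (F.prs_periodic t) hq, F.cf_prs hcs,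
    F.cf_cvt hcs h0 (Ico_subset_Icc_self ht), F.cv_vel hcs]
  have e2 : F.nh (k, i) t = ∑ m, (Complex.I * (k m : ℂ)) * F.cc k i m t
      + Complex.I * (k i : ℂ) * F.pc k t := by
    unfold FixD.nh FixD.pc
    simp only
    have e3 : ∀ j m, (Complex.I * (k m : ℂ) * (Pj k i j : ℂ)) * F.cc k j m t
        = (if i = j then (Complex.I * (k m : ℂ)) * F.cc k j m t else 0)
          + Complex.I * (k i : ℂ)
            * (((-((k j : ℝ) * (k m : ℝ) / ∑ l, (k l : ℝ) ^ 2) : ℝ) : ℂ) * F.cc k j m t) := by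
      intro j m
      unfold Pj
      split_ifs with h
      · subst h
        push_cast
        ring
      · push_cast
        ring
    simp only [e3, Finset.sum_add_distrib]
    congr 1
    · rw [Finset.sum_comm]
      refine Finset.sum_congr rfl fun m _ => ?_
      rw [Finset.sum_ite_eq]
      simp
    · rw [Finset.mul_sum]
      refine Finset.sum_congr rfl fun j _ => ?_
      rw [Finset.mul_sum]
  rw [e2]
  ring

end phys

/-- A smooth solution. -/
structure IsSmoothSol (d : K3 → ℝ) (T : ℝ) (u : ℝ → V → V) (p : ℝ → V → ℝ) : Prop where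
  sol : IsSol d T u p
  smooth_u : ContDiffOn ℝ ∞ (fun z : ℝ × V => u z.1 z.2) (Ico 0 T ×ˢ univ)
  smooth_p : ContDiffOn ℝ ∞ (fun z : ℝ × V => p z.1 z.2) (Ico 0 T ×ˢ univ)

/-- Local existence of a smooth solution from an analytic initial velocity. -/
theorem local_existence {d : K3 → ℝ} (hd : ∀ k, 0 ≤ d k) (hdn : ∀ k, d (-k) = d k)
    (hs : Subexp d) {v : V → V} (hv : ContDiff ℝ 1 v) (hp : Periodic3 v)
    (hdiv : ∀ x, divergence v x = 0) {ρ : ℝ} (hρ : 0 < ρ)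
    (ha : ∀ i, Summable fun k => Real.exp (ρ * N1 k) * ‖cv v i k‖) :
    ∃ τ, 0 < τ ∧ ∃ u p, IsSmoothSol d τ u p ∧ u 0 = v := by
  set a0 : K3 × Fin 3 → ℂ := fun x => cv v x.2 x.1 with ha0
  have hsum : Summable fun x : K3 × Fin 3 => Real.exp (ρ * N1 x.1) * ‖a0 x‖ := by
    have h1 : Summable fun x : Fin 3 × K3 => Real.exp (ρ * N1 x.2) * ‖cv v x.1 x.2‖ := by
      refine (summable_prod_of_nonneg fun x => by positivity).2 ⟨fun i => ha i, ?_⟩
      exact (hasSum_fintype _).summable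
    exact (Equiv.prodComm K3 (Fin 3)).summable_iff.2 h1
  have hac : ∀ x, conj (a0 (-x.1, x.2)) = a0 x := by
    intro x
    simp only [ha0]
    rw [cv_conj, neg_neg]
  obtain ⟨τ, σ, hτ0, F, hcs⟩ := exists_fix hρ hd hdn hsum hac
  have h0 : ∀ k, ∑ i, (k i : ℂ) * a0 (k, i) = 0 := by
    intro k
    have h := cv_div hv hp hdiv k
    unfold dt at h
    rw [← h]
    exact Finset.sum_congr rfl fun i _ => mul_comm _ _
  have hsub : (Ico 0 τ ×ˢ univ : Set (ℝ × V)) ⊆ Icc 0 τ ×ˢ univ :=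
    prod_mono Ico_subset_Icc_self subset_rfl
  refine ⟨τ, hτ0, F.vel, F.prs, ⟨F.isSol hcs hτ0 hdn hs h0, (F.vel_smooth hτ0 hs).mono hsub,
    (F.prs_smooth hτ0 hs).mono hsub⟩, ?_⟩
  funext x i
  have hc1 : Continuous (fun x => F.vel 0 x i) :=
    (continuous_apply i).comp (F.vel_contDiff 0).continuous
  have hc2 : Continuous (fun x => v x i) := (continuous_apply i).comp hv.continuous
  have h1 : ∀ x, F.vel 0 x i - v x i = 0 := by
    refine eq_zero_of_cf ?_ (hc1.sub hc2) fun k => ?_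
    · intro j x
      simp only
      rw [F.vel_periodic 0 j x, hp j x]
    · rw [cf_sub hc1 hc2]
      have h2 := F.cv_vel hcs 0 i k
      rw [F.uh_zero] at h2
      have h3 : cf (fun x => F.vel 0 x i) k = cv (F.vel 0) i k := rfl
      rw [h3, h2]
      exact sub_self _
  exact sub_eq_zero.1 (h1 x)

end Pool.Agent.R211.SV
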