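import Pool.Agent.R211.SV.Energy

/-!
Uniqueness of the solutions and of their pressure gradients; invariance under signed permutations.
-/

set_option autoImplicit false

open Set Filter Topology MeasureTheory
open scoped ComplexConjugate

namespace Pool.Agent.R211.SV

open Pool.Agent.H708R2.EulerSign (V Periodic3 Dom divergence grad sum_mul_clm sum_mul_clm'
  divergence_eq_sum contDiff_slice sq3 sq3_nonneg sq3_eq_zero sq3_contDiff hasFDerivAt_sq3
  quad_bound divergence_smul dom_bdd dom_meas dom_lt_top integral_divergence_eq_zero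
  eq_zero_of_integral_eq_zero continuous_grad)
open Pool.Agent.H708R2.EulerModes
open Pool.Agent.Y302.Trunc (K3)
open Pool.Agent.Y302.Tri

variable {d : K3 → ℝ} {T : ℝ} {w u : ℝ → V → V} {q p : ℝ → V → ℝ}

/-- Uniqueness, with a bound for the gradient. -/
theorem unique_aux (hd : ∀ k, 0 ≤ d k) (hw : IsSol d T w q) (hu : IsSol d T u p) {K₀ : ℝ}
    (hK : ∀ t ∈ Ico 0 T, ∀ x i j, |grad (u t) x i j| ≤ K₀)
    (h0 : w 0 = u 0) : ∀ t ∈ Ico 0 T, w t = u t := by
  intro t ht
  have hTpos : 0 < T := ht.1.trans_lt ht.2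
  have hcont := en_continuousOn hw.base hu.base
  set K : ℝ := 6 * K₀ with hKd
  have hle : ∀ s ∈ Ioo 0 T, ∫ x in Dom, dS w u s x ≤ K * en w u s := fun s hs =>
    en_deriv_le hd hw hu hs (hK s ⟨hs.1.le, hs.2⟩)
  have hE0 : en w u 0 = 0 := by
    unfold en
    rw [h0]
    simp [sq3]
  have hEz : en w u t = 0 := by
    refine le_antisymm ?_ (en_nonneg t)
    have hanti : AntitoneOn (fun s => en w u s * Real.exp (-K * s)) (Ico 0 T) := by
      have hder : ∀ s ∈ interior (Ico 0 T), HasDerivAt
          (fun s => en w u s * Real.exp (-K * s))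
          ((∫ x in Dom, dS w u s x) * Real.exp (-K * s)
            + en w u s * (Real.exp (-K * s) * (-K * 1))) s := by
        intro s hs
        rw [interior_Ico] at hs
        exact (en_hasDerivAt hw.base hu.base hs).mul (((hasDerivAt_id s).const_mul (-K)).exp)
      refine antitoneOn_of_deriv_nonpos (convex_Ico _ _) ?_ ?_ ?_
      · exact hcont.mul (by fun_prop)
      · intro s hs
        exact (hder s hs).differentiableAt.differentiableWithinAt
      · intro s hs
        rw [(hder s hs).deriv]
        rw [interior_Ico] at hs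
        have h1 := hle s hs
        have h2 : 0 < Real.exp (-K * s) := Real.exp_pos _
        nlinarith
    have h1 := hanti ⟨le_rfl, hTpos⟩ ht ht.1
    simp only [hE0, zero_mul] at h1
    exact nonpos_of_mul_nonpos_left h1 (Real.exp_pos _)
  have hwt : ContDiff ℝ 1 (w t) := contDiff_slice hw.base.contDiffOn_u ht
  have hut : ContDiff ℝ 1 (u t) := contDiff_slice hu.base.contDiffOn_u ht
  have hW : ContDiff ℝ 1 (fun y => w t y - u t y) := hwt.sub hut
  have hper : Periodic3 (fun x => sq3 (w t x - u t x)) := by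
    intro i x
    simp only
    rw [hw.base.periodic_u t ht i x, hu.base.periodic_u t ht i x]
  have hz := eq_zero_of_integral_eq_zero hper ((sq3_contDiff (n := 1)).comp hW).continuous
    (fun x => sq3_nonneg _) hEz
  ext1 x
  exact sub_eq_zero.1 (sq3_eq_zero (hz x))

/-- Uniqueness. -/
theorem unique (hd : ∀ k, 0 ≤ d k) (hw : IsSol d T w q) (hu : IsSol d T u p)
    (h0 : w 0 = u 0) : ∀ t ∈ Ico 0 T, w t = u t := by
  intro t ht
  obtain ⟨T', h1, h2⟩ := exists_between ht.2
  obtain ⟨K, hK⟩ := grad_bdd hu.base h2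
  exact unique_aux hd (hw.mono h2.le) (hu.mono h2.le) hK h0 t ⟨ht.1, h1⟩

/-- The pressure gradient is unique. -/
theorem pressure_unique (hd : ∀ k, 0 ≤ d k) (hw : IsSol d T w q) (hu : IsSol d T u p)
    (h0 : w 0 = u 0) {t : ℝ} (ht : t ∈ Ico 0 T) (x : V) (i : Fin 3) :
    fderiv ℝ (q t) x (Pi.single i 1) = fderiv ℝ (p t) x (Pi.single i 1) := by
  have hwu := unique hd hw hu h0
  have e1 : ∀ x, (lin (Ico 0 T) w q t i x + cvt (w t) i x)
      - (lin (Ico 0 T) u p t i x + cvt (u t) i x) = 0 := by
    refine eq_zero_of_cf ?_ ((mt_continuous hw.base ht i).sub (mt_continuous hu.base ht i))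
      fun k => ?_
    · intro j x
      have h1 := mt_periodic hw.base ht i j x
      have h2 := mt_periodic hu.base ht i j x
      simp only at h1 h2 ⊢
      rw [h1, h2]
    · rw [cf_sub (mt_continuous hw.base ht i) (mt_continuous hu.base ht i), hw.momentum t ht,
        hu.momentum t ht, hwu t ht, sub_self]
  have e2 := e1 x
  have e3 : derivWithin (fun s => w s x i) (Ico 0 T) t
      = derivWithin (fun s => u s x i) (Ico 0 T) t :=
    derivWithin_congr (fun s hs => by rw [hwu s hs]) (by rw [hwu t ht])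
  unfold lin at e2
  rw [hwu t ht, e3] at e2
  linarith

/-- The pressures agree up to constants. -/
theorem pressure_sub (hd : ∀ k, 0 ≤ d k) (hw : IsSol d T w q) (hu : IsSol d T u p)
    (h0 : w 0 = u 0) {t : ℝ} (ht : t ∈ Ico 0 T) (x : V) :
    q t x - q t 0 = p t x - p t 0 := by
  have hqt : ContDiff ℝ 1 (q t) := contDiff_slice hw.base.contDiffOn_p ht
  have hpt : ContDiff ℝ 1 (p t) := contDiff_slice hu.base.contDiffOn_p ht
  have hdiff : Differentiable ℝ (fun y => q t y - p t y) :=
    (hqt.sub hpt).differentiable one_ne_zero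
  have hz : ∀ y, fderiv ℝ (fun y => q t y - p t y) y = 0 := by
    intro y
    have e : fderiv ℝ (fun y => q t y - p t y) y = fderiv ℝ (q t) y - fderiv ℝ (p t) y :=
      (((hqt.differentiable one_ne_zero) y).hasFDerivAt.sub
        ((hpt.differentiable one_ne_zero) y).hasFDerivAt).fderiv
    rw [e]
    ext v
    rw [sub_apply, ← sum_mul_clm' (fderiv ℝ (q t) y), ← sum_mul_clm' (fderiv ℝ (p t) y),
      zero_apply, ← Finset.sum_sub_distrib]
    refine Finset.sum_eq_zero fun i _ => ?_
    rw [pressure_unique hd hw hu h0 ht y i, sub_self]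
  have h1 := is_const_of_fderiv_eq_zero hdiff hz x 0
  linarith

end Pool.Agent.R211.SV
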