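import Pool.Agent.R211.SV.Loc2

/-!
Local existence: existence for the integral equation, symmetry and divergence.
-/

set_option autoImplicit false
set_option linter.unusedSectionVars false

open Set Filter Topology MeasureTheory
open scoped ENNReal Interval ComplexConjugate

namespace Pool.Agent.R211.SV

open Pool.Agent.Y302.Trunc (K3)
open Pool.Agent.Y302.Tri

section flip

variable {τ : ℝ}

/-- Negation of the frequency. -/
def negx : K3 × Fin 3 ≃ K3 × Fin 3 := (Equiv.neg K3).prodCongr (Equiv.refl _)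

lemma negx_apply (x : K3 × Fin 3) : negx x = (-x.1, x.2) := rfl

/-- The symmetry of the coefficients of real fields. -/
noncomputable def flipV (V : XA (CI τ)) : XA (CI τ) :=
  ⟨fun x => star (V (-x.1, x.2)), memℓ1_iff.2 (by
    have h := (negx.summable_iff (f := fun x => ‖V x‖)).2 (summable_XA V)
    refine h.congr fun x => ?_
    simp only [Function.comp_apply, negx_apply]
    exact (norm_star _).symm)⟩

lemma flipV_apply (V : XA (CI τ)) (x : K3 × Fin 3) : flipV V x = star (V (-x.1, x.2)) := rfl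

lemma norm_flipV (V : XA (CI τ)) : ‖flipV V‖ = ‖V‖ := by
  rw [norm_XA, norm_XA, ← negx.tsum_eq (fun x => ‖V x‖)]
  exact tsum_congr fun x => norm_star (V (-x.1, x.2) : CI τ)

lemma N1_neg (k : K3) : N1 (-k) = N1 k := by
  unfold N1
  refine Finset.sum_congr rfl fun j _ => ?_
  rw [Pi.neg_apply]
  push_cast
  rw [abs_neg]

lemma Pj_neg (k : K3) (i j : Fin 3) : Pj (-k) i j = Pj k i j := by
  unfold Pj
  simp

variable (hτ : 0 ≤ τ)

lemma ext0_star (f : CI τ) (s : ℝ) : ext0 hτ (star f) s = conj (ext0 hτ f s) := rfl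

lemma volF_star (c : ℝ) (f : CI τ) (t : ℝ) : volF hτ c (star f) t = conj (volF hτ c f t) := by
  unfold volF
  have h : ∀ s : ℝ, (Real.exp (c * s) : ℂ) * ext0 hτ (star f) s
      = conj ((Real.exp (c * s) : ℂ) * ext0 hτ f s) := by
    intro s
    rw [ext0_star, map_mul, Complex.conj_ofReal]
  simp only [h]
  rw [map_mul, Complex.conj_ofReal]
  unfold intervalIntegral
  rw [map_sub, integral_conj, integral_conj]

variable {ρ σ : ℝ} {d : K3 → ℝ} (hσ : 0 < σ) (hρ' : σ * τ ≤ ρ) (hd : ∀ k, 0 ≤ d k)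
  (hdn : ∀ k, d (-k) = d k)

lemma ker1_L_apply (k : K3) (i j m : Fin 3) (f : CI τ) (t : Icc (0 : ℝ) τ) :
    (ker1 hτ hσ hρ' d hd).L k i j m f t
      = (Complex.I * (k m : ℂ) * (Pj k i j : ℂ)) * volF hτ (ck σ d k) f t := by
  unfold ker1
  simp only
  split_ifs with hk
  · subst hk
    simp
  · rfl

include hdn in
lemma ker1_L_star (k : K3) (i j m : Fin 3) (f : CI τ) :
    star ((ker1 hτ hσ hρ' d hd).L (-k) i j m f) = (ker1 hτ hσ hρ' d hd).L k i j m (star f) := by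
  ext t
  have e1 : (star ((ker1 hτ hσ hρ' d hd).L (-k) i j m f)) t
      = conj ((ker1 hτ hσ hρ' d hd).L (-k) i j m f t) := rfl
  have e2 : ck σ d (-k) = ck σ d k := by
    unfold ck
    rw [N1_neg, hdn]
  rw [e1, ker1_L_apply, ker1_L_apply, volF_star, Pj_neg, e2]
  simp only [map_mul, Complex.conj_I, Complex.conj_ofReal, map_intCast, Pi.neg_apply]
  push_cast
  ring

lemma ker1_cvl_star (V : XA (CI τ)) (k : K3) (j m : Fin 3) :
    star ((ker1 hτ hσ hρ' d hd).cvl V V (-k) j m)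
      = (ker1 hτ hσ hρ' d hd).cvl (flipV V) (flipV V) k j m := by
  have h0 : star ((ker1 hτ hσ hρ' d hd).cvl V V (-k) j m)
      = ∑' q, star ((ker1 hτ hσ hρ' d hd).R (-k) q * V (-k - q, m) * V (q, j)) := by
    unfold Ker.cvl
    exact tsum_star
  rw [h0, ← (Equiv.neg K3).tsum_eq]
  unfold Ker.cvl
  refine tsum_congr fun q => ?_
  rw [star_mul', star_mul', flipV_apply, flipV_apply]
  simp only [Equiv.neg_apply]
  have e : -k - -q = -(k - q) := by abel
  rw [e]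
  congr 2
  ext t
  have e1 : (star ((ker1 hτ hσ hρ' d hd).R (-k) (-q))) t
      = conj ((ker1 hτ hσ hρ' d hd).R (-k) (-q) t) := rfl
  have e2 : ∀ k q, (ker1 hτ hσ hρ' d hd).R k q t
      = (Real.exp ((ρ - σ * t) * (N1 k - N1 (k - q) - N1 q)) : ℂ) := fun _ _ => rfl
  rw [e1, e2, e2, Complex.conj_ofReal, e, N1_neg, N1_neg, N1_neg]

include hdn in
lemma ker1_fn_star (V : XA (CI τ)) (x : K3 × Fin 3) :
    star ((ker1 hτ hσ hρ' d hd).fn V V (-x.1, x.2))
      = (ker1 hτ hσ hρ' d hd).fn (flipV V) (flipV V) x := by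
  unfold Ker.fn
  rw [star_sum]
  refine Finset.sum_congr rfl fun j _ => ?_
  rw [star_sum]
  refine Finset.sum_congr rfl fun m _ => ?_
  rw [ker1_L_star hτ hσ hρ' hd hdn, ker1_cvl_star]

end flip

/-- Existence for the integral equation. -/
theorem exists_fix {ρ : ℝ} (hρ0 : 0 < ρ) {d : K3 → ℝ} (hd : ∀ k, 0 ≤ d k)
    (hdn : ∀ k, d (-k) = d k) {a0 : K3 × Fin 3 → ℂ}
    (ha : Summable fun x => Real.exp (ρ * N1 x.1) * ‖a0 x‖)
    (hac : ∀ x, conj (a0 (-x.1, x.2)) = a0 x) :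
    ∃ τ σ, 0 < τ ∧ ∃ F : FixD τ ρ σ d a0, ∀ x t, conj (F.uh (-x.1, x.2) t) = F.uh x t := by
  set R0 : ℝ := ∑' x, Real.exp (ρ * N1 x.1) * ‖a0 x‖ with hR0
  have hR00 : 0 ≤ R0 := tsum_nonneg fun x => by positivity
  set σ : ℝ := 24 * R0 + 1 with hσd
  have hσ : 0 < σ := by positivity
  set τ : ℝ := ρ / (2 * σ) with hτd
  have hτ0 : 0 < τ := by positivity
  have hτ := hτ0.le
  have hστ : σ * τ = ρ / 2 := by
    rw [hτd]; field_simp
  have hρ' : σ * τ ≤ ρ := by linarith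
  have hV0s : Summable fun x => ‖V0f τ ρ σ d a0 x‖ :=
    Summable.of_nonneg_of_le (fun _ => norm_nonneg _) (fun x => norm_V0f_le hσ hd x) ha
  let V0 : XA (CI τ) := ⟨V0f τ ρ σ d a0, memℓ1_iff.2 hV0s⟩
  have hV0 : ‖V0‖ ≤ R0 := by
    rw [norm_XA]
    exact hV0s.tsum_le_tsum (fun x => norm_V0f_le hσ hd x) ha
  have hB := (ker1 hτ hσ hρ' d hd).norm_B_le
  have hc : (ker1 hτ hσ hρ' d hd).c = 1 / σ := rfl
  obtain ⟨⟨V, hVr, hVe⟩, huniq⟩ := quad_fixed (ker1 hτ hσ hρ' d hd).B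
    (b := 3 * (ker1 hτ hσ hρ' d hd).c) (by rw [hc]; positivity) hB V0 (r := 2 * R0)
    (by linarith) (by
      rw [hc]
      have : 4 * (3 * (1 / σ)) * (2 * R0) = (24 * R0) / σ := by field_simp; ring
      rw [this, div_le_one hσ]
      linarith)
  have hVx : ∀ x, V x = V0f τ ρ σ d a0 x - (ker1 hτ hσ hρ' d hd).fn V V x := by
    intro x
    conv_lhs => rw [hVe]
    rfl
  have hfl : flipV V = V := by
    refine huniq _ _ (by rw [norm_flipV]; exact hVr) hVr ?_ hVe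
    ext x : 2
    have e1 : (V0 - (ker1 hτ hσ hρ' d hd).B (flipV V) (flipV V) : XA (CI τ)) x
        = V0f τ ρ σ d a0 x - (ker1 hτ hσ hρ' d hd).fn (flipV V) (flipV V) x := rfl
    rw [e1, flipV_apply, hVx, star_sub, ker1_fn_star hτ hσ hρ' hd hdn]
    congr 1
    ext t
    have e2 : (star (V0f τ ρ σ d a0 (-x.1, x.2))) t
        = conj ((Real.exp ((ρ - σ * t) * N1 (-x.1) - d (-x.1) * t) : ℂ) * a0 (-x.1, x.2)) := rfl
    have e3 : V0f τ ρ σ d a0 x t = (Real.exp ((ρ - σ * t) * N1 x.1 - d x.1 * t) : ℂ) * a0 x := rfl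
    rw [e2, e3, map_mul, Complex.conj_ofReal, hac, N1_neg, hdn]
  refine ⟨τ, σ, hτ0, ⟨hτ, hσ, hστ.le, hρ0, hd, hρ', V, hVx⟩, fun x t => ?_⟩
  unfold FixD.uh
  simp only
  rw [map_mul, Complex.conj_ofReal, N1_neg]
  congr 1
  exact congrArg (fun W : XA (CI τ) => W x (projIcc 0 τ hτ t)) hfl

section dv

variable {τ ρ σ : ℝ} {d : K3 → ℝ} {a0 : K3 × Fin 3 → ℂ} (F : FixD τ ρ σ d a0)

lemma FixD.div_nh (k : K3) (t : ℝ) : ∑ i, (k i : ℂ) * F.nh (k, i) t = 0 := by
  by_cases hk : k = 0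
  · subst hk
    simp
  unfold FixD.nh
  have h1 : ∀ i, (k i : ℂ) * ∑ j, ∑ m, (Complex.I * (k m : ℂ) * (Pj k i j : ℂ)) * F.cc k j m t
      = ∑ j, ((k i : ℂ) * (Pj k i j : ℂ)) * ∑ m, Complex.I * (k m : ℂ) * F.cc k j m t := by
    intro i
    rw [Finset.mul_sum]
    refine Finset.sum_congr rfl fun j _ => ?_
    rw [Finset.mul_sum, Finset.mul_sum]
    refine Finset.sum_congr rfl fun m _ => ?_
    ring
  simp only
  rw [Finset.sum_congr rfl fun i _ => h1 i, Finset.sum_comm]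
  refine Finset.sum_eq_zero fun j _ => ?_
  rw [← Finset.sum_mul]
  have h2 : ∑ i, (k i : ℂ) * (Pj k i j : ℂ) = 0 := by
    have := sum_Pj k hk j
    have h3 := congrArg (fun r : ℝ => (r : ℂ)) this
    push_cast at h3
    exact h3
  rw [h2, zero_mul]

/-- The divergence vanishes. -/
lemma FixD.div_uh (h0 : ∀ k, ∑ i, (k i : ℂ) * a0 (k, i) = 0) (k : K3) {t : ℝ}
    (ht : t ∈ Icc 0 τ) : ∑ i, (k i : ℂ) * F.uh (k, i) t = 0 := by
  have hi : ∀ i, Continuous fun s : ℝ => (Real.exp (d k * s) : ℂ) * F.nh (k, i) s := by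
    intro i
    have := F.nh_continuous (k, i)
    fun_prop
  have h1 : ∀ i, (k i : ℂ) * F.uh (k, i) t = (Real.exp (-(d k * t)) : ℂ) * ((k i : ℂ) * a0 (k, i)
      - ∫ s in (0 : ℝ)..t, (k i : ℂ) * ((Real.exp (d k * s) : ℂ) * F.nh (k, i) s)) := by
    intro i
    rw [F.uh_eq (k, i) ht, intervalIntegral.integral_const_mul]
    ring
  have h3 : ∑ i, ∫ s in (0 : ℝ)..t, (k i : ℂ) * ((Real.exp (d k * s) : ℂ) * F.nh (k, i) s)
      = ∫ s in (0 : ℝ)..t, ∑ i, (k i : ℂ) * ((Real.exp (d k * s) : ℂ) * F.nh (k, i) s) :=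
    (intervalIntegral.integral_finsetSum fun i _ =>
      (continuous_const.mul (hi i)).intervalIntegrable _ _).symm
  rw [Finset.sum_congr rfl fun i _ => h1 i, ← Finset.mul_sum, Finset.sum_sub_distrib, h0, h3]
  have h2 : ∀ s : ℝ, ∑ i, (k i : ℂ) * ((Real.exp (d k * s) : ℂ) * F.nh (k, i) s) = 0 := by
    intro s
    have : ∀ i, (k i : ℂ) * ((Real.exp (d k * s) : ℂ) * F.nh (k, i) s)
        = (Real.exp (d k * s) : ℂ) * ((k i : ℂ) * F.nh (k, i) s) := fun i => by ring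
    simp only [this]
    rw [← Finset.mul_sum, F.div_nh, mul_zero]
  simp only [h2]
  simp

end dv

end Pool.Agent.R211.SV
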