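import Pool.Agent.R211.SV.Datum

/-!
If `M` is a power of two, then the set of frequencies is a union of spheres.
-/

set_option autoImplicit false

open Set

namespace Pool.Agent.R211.SV

open Pool.Agent.Y302.Trunc
open Pool.Agent.Y302.Tri

/-- The squared norms of the basic frequencies. -/
def rad : Fin 4 → ℤ := ![11, 40, 88, 208]

lemma sq_act {e : Fin 3 → ℤ} {σ : Equiv.Perm (Fin 3)} (he : IsSign e) (k : K3) :
    ∑ i, actK e σ k i ^ 2 = ∑ i, k i ^ 2 := by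
  unfold actK
  have h : ∀ i, (e i * k (σ i)) ^ 2 = k (σ i) ^ 2 := by
    intro i
    have := he.sq' i
    rw [mul_pow, sq (e i), this, one_mul]
  simp only [h]
  exact Equiv.sum_comp σ fun i => k i ^ 2

lemma sq_dir (i : Fin 4) : ∑ p, dir i p ^ 2 = rad i := by
  fin_cases i <;> (rw [Fin.sum_univ_three]; rfl)

lemma all_even {a b c n : ℤ} (h : a ^ 2 + b ^ 2 + c ^ 2 = 4 * n) :
    ∃ a' b' c', a = 2 * a' ∧ b = 2 * b' ∧ c = 2 * c' ∧ a' ^ 2 + b' ^ 2 + c' ^ 2 = n := by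
  have key : ∀ z : ℤ, (z % 2 = 0 ∧ z ^ 2 % 4 = 0) ∨ (z % 2 = 1 ∧ z ^ 2 % 4 = 1) := by
    intro z
    rcases Int.even_or_odd z with ⟨y, hy⟩ | ⟨y, hy⟩
    · left
      subst hy
      refine ⟨by omega, ?_⟩
      have : (y + y) ^ 2 = 4 * (y ^ 2) := by ring
      omega
    · right
      subst hy
      refine ⟨by omega, ?_⟩
      have : (2 * y + 1) ^ 2 = 4 * (y ^ 2 + y) + 1 := by ring
      omega
  have h0 : a % 2 = 0 ∧ b % 2 = 0 ∧ c % 2 = 0 := by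
    rcases key a with ⟨h1, h2⟩ | ⟨h1, h2⟩ <;> rcases key b with ⟨h3, h4⟩ | ⟨h3, h4⟩ <;>
      rcases key c with ⟨h5, h6⟩ | ⟨h5, h6⟩ <;> omega
  obtain ⟨⟨x, rfl⟩, ⟨y, rfl⟩, ⟨z, rfl⟩⟩ : (2 ∣ a) ∧ (2 ∣ b) ∧ (2 ∣ c) := by omega
  refine ⟨x, y, z, rfl, rfl, rfl, ?_⟩
  nlinarith

lemma all_even_pow (n : ℕ) : ∀ {k : K3} {r : ℤ}, ∑ i, k i ^ 2 = 4 ^ n * r →
    ∃ k' : K3, k = (2 ^ n : ℤ) • k' ∧ ∑ i, k' i ^ 2 = r := by
  induction n with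
  | zero =>
    intro k r h
    exact ⟨k, by simp, by simpa using h⟩
  | succ n ih =>
    intro k r h
    have h1 : k 0 ^ 2 + k 1 ^ 2 + k 2 ^ 2 = 4 * (4 ^ n * r) := by
      rw [Fin.sum_univ_three] at h
      rw [h]; ring
    obtain ⟨a, b, c, h2, h3, h4, h5⟩ := all_even h1
    obtain ⟨k', h6, h7⟩ := ih (k := ![a, b, c]) (r := r) (by
      rw [Fin.sum_univ_three]
      exact h5)
    refine ⟨k', ?_, h7⟩
    have h8 : k = (2 : ℤ) • ![a, b, c] := by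
      funext i
      fin_cases i
      · exact h2
      · exact h3
      · exact h4
    rw [h8, h6, smul_smul]
    congr 1
    ring

lemma check0 : ∀ a ∈ Finset.Icc (-4 : ℤ) 4, ∀ b ∈ Finset.Icc (-4 : ℤ) 4,
    ∀ c ∈ Finset.Icc (-4 : ℤ) 4, (a ^ 2 + b ^ 2 + c ^ 2 = 11 → ((a, b, c) : Z3) ∈ L 0) := by
  decide +kernel

lemma check1 : ∀ a ∈ Finset.Icc (-4 : ℤ) 4, ∀ b ∈ Finset.Icc (-4 : ℤ) 4,
    ∀ c ∈ Finset.Icc (-4 : ℤ) 4,
    (a ^ 2 + b ^ 2 + c ^ 2 = 10 → ((2 * a, 2 * b, 2 * c) : Z3) ∈ L 1) := by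
  decide +kernel

lemma check2 : ∀ a ∈ Finset.Icc (-4 : ℤ) 4, ∀ b ∈ Finset.Icc (-4 : ℤ) 4,
    ∀ c ∈ Finset.Icc (-4 : ℤ) 4,
    (a ^ 2 + b ^ 2 + c ^ 2 = 22 → ((2 * a, 2 * b, 2 * c) : Z3) ∈ L 2) := by
  decide +kernel

lemma check3 : ∀ a ∈ Finset.Icc (-4 : ℤ) 4, ∀ b ∈ Finset.Icc (-4 : ℤ) 4,
    ∀ c ∈ Finset.Icc (-4 : ℤ) 4,
    (a ^ 2 + b ^ 2 + c ^ 2 = 13 → ((4 * a, 4 * b, 4 * c) : Z3) ∈ L 3) := by
  decide +kernel

lemma small_mem {a b c r : ℤ} (h : a ^ 2 + b ^ 2 + c ^ 2 = r) (hr : r ≤ 22) :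
    a ∈ Finset.Icc (-4 : ℤ) 4 ∧ b ∈ Finset.Icc (-4 : ℤ) 4 ∧ c ∈ Finset.Icc (-4 : ℤ) 4 := by
  simp only [Finset.mem_Icc]
  refine ⟨⟨?_, ?_⟩, ⟨?_, ?_⟩, ⟨?_, ?_⟩⟩ <;>
    nlinarith [sq_nonneg a, sq_nonneg b, sq_nonneg c]

lemma base_case (i : Fin 4) {k : K3} (h : ∑ p, k p ^ 2 = rad i) :
    ∃ v ∈ L i, k = toK v := by
  rw [Fin.sum_univ_three] at h
  fin_cases i
  · have h' : k 0 ^ 2 + k 1 ^ 2 + k 2 ^ 2 = 11 := h
    obtain ⟨m1, m2, m3⟩ := small_mem h' (by norm_num)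
    refine ⟨(k 0, k 1, k 2), check0 _ m1 _ m2 _ m3 h', ?_⟩
    funext p; fin_cases p <;> rfl
  · have h' : k 0 ^ 2 + k 1 ^ 2 + k 2 ^ 2 = 4 * 10 := h
    obtain ⟨a, b, c, e1, e2, e3, e4⟩ := all_even h'
    obtain ⟨m1, m2, m3⟩ := small_mem e4 (by norm_num)
    refine ⟨(2 * a, 2 * b, 2 * c), check1 _ m1 _ m2 _ m3 e4, ?_⟩
    funext p; fin_cases p
    · exact e1
    · exact e2
    · exact e3
  · have h' : k 0 ^ 2 + k 1 ^ 2 + k 2 ^ 2 = 4 * 22 := h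
    obtain ⟨a, b, c, e1, e2, e3, e4⟩ := all_even h'
    obtain ⟨m1, m2, m3⟩ := small_mem e4 (by norm_num)
    refine ⟨(2 * a, 2 * b, 2 * c), check2 _ m1 _ m2 _ m3 e4, ?_⟩
    funext p; fin_cases p
    · exact e1
    · exact e2
    · exact e3
  · have h' : k 0 ^ 2 + k 1 ^ 2 + k 2 ^ 2 = 4 * (4 * 13) := h
    obtain ⟨a, b, c, e1, e2, e3, e4⟩ := all_even h'
    obtain ⟨a', b', c', f1, f2, f3, f4⟩ := all_even e4
    obtain ⟨m1, m2, m3⟩ := small_mem f4 (by norm_num)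
    refine ⟨(4 * a', 4 * b', 4 * c'), check3 _ m1 _ m2 _ m3 f4, ?_⟩
    funext p; fin_cases p
    · show k 0 = 4 * a'
      rw [e1, f1]; ring
    · show k 1 = 4 * b'
      rw [e2, f2]; ring
    · show k 2 = 4 * c'
      rw [e3, f3]; ring

/-- If `M` is a power of two, then the set of frequencies is a union of spheres. -/
theorem SF_iso (m : ℕ) (k : K3) :
    k ∈ SF (2 ^ m) ↔ ∃ (j : ℕ) (i : Fin 4), ∑ p, k p ^ 2 = 4 ^ m * 64 ^ j * rad i := by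
  have hM : 0 < 2 ^ m := by positivity
  constructor
  · rintro ⟨j, i, e, σ, he, rfl⟩
    refine ⟨j, i, ?_⟩
    rw [sq_act he]
    have h : ∀ p, (((((2 ^ m : ℕ) : ℤ) * 8 ^ j : ℤ)) • dir i) p ^ 2
        = 4 ^ m * 64 ^ j * dir i p ^ 2 := by
      intro p
      rw [Pi.smul_apply, smul_eq_mul, mul_pow, mul_pow]
      push_cast
      rw [← pow_mul, ← pow_mul, mul_comm m 2, mul_comm j 2, pow_mul, pow_mul]
      norm_num
    simp only [h]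
    rw [← Finset.mul_sum, sq_dir]
  · rintro ⟨j, i, h⟩
    have h1 : ∑ p, k p ^ 2 = 4 ^ (m + 3 * j) * rad i := by
      rw [h, pow_add, pow_mul]
      norm_num
    obtain ⟨k', h2, h3⟩ := all_even_pow _ h1
    obtain ⟨v, hv, rfl⟩ := base_case i h3
    rw [SF_eq hM]
    refine ⟨4 * j + i, ?_⟩
    have hmod : (4 * j + (i : ℕ)) % 4 = i := by omega
    have hdiv : (4 * j + (i : ℕ)) / 4 = j := by omega
    have e1 : (2 : ℤ) ^ (m + 3 * j) = sg (2 ^ m) (4 * j + i) := by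
      unfold sg
      rw [hdiv, pow_add, pow_mul]
      push_cast
      norm_num
    rw [h2, e1, mem_Lev hM, hmod]
    exact hv

end Pool.Agent.R211.SV
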