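import Pool.Agent.Y302.Tri.Skew

/-!
Bilinear operators of convolution type on `ℓ¹` spaces over `ℤ³`.
-/

set_option autoImplicit false
set_option linter.unusedSectionVars false

open Set Filter Topology
open scoped ENNReal

namespace Pool.Agent.R211.SV

open Pool.Agent.Y302.Trunc (K3)
open Pool.Agent.Y302.Tri

/-- The space `ℓ¹(ℤ³ × {0, 1, 2}; A)`. -/
abbrev XA (A : Type) [NormedAddCommGroup A] := lp (fun _ : K3 × Fin 3 => A) 1

section l1

variable {A : Type} [NormedAddCommGroup A]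

lemma memℓ1_iff {f : K3 × Fin 3 → A} : Memℓp f 1 ↔ Summable fun x => ‖f x‖ := by
  rw [memℓp_gen_iff (by simp)]
  simp

lemma norm_XA (V : XA A) : ‖V‖ = ∑' x, ‖V x‖ := by
  rw [lp.norm_eq_tsum_rpow (by simp)]
  simp

lemma summable_XA (V : XA A) : Summable fun x => ‖V x‖ := memℓ1_iff.1 (lp.memℓp V)

/-- The sum of the norms of the three components. -/
noncomputable def szA (V : K3 × Fin 3 → A) (k : K3) : ℝ := ∑ i, ‖V (k, i)‖

lemma szA_nonneg (V : K3 × Fin 3 → A) (k : K3) : 0 ≤ szA V k :=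
  Finset.sum_nonneg fun _ _ => norm_nonneg _

lemma hasSum_szA (V : XA A) : HasSum (szA V) ‖V‖ := by
  have h := (summable_XA V).hasSum
  rw [← norm_XA] at h
  exact h.prod_fiberwise fun k => hasSum_fintype _

lemma le_szA (V : K3 × Fin 3 → A) (k : K3) (i : Fin 3) : ‖V (k, i)‖ ≤ szA V k :=
  Finset.single_le_sum (f := fun i => ‖V (k, i)‖) (fun _ _ => norm_nonneg _) (Finset.mem_univ i)

end l1

/-- The data of a bilinear operator. -/
structure Ker (A : Type) [NormedCommRing A] [NormedAlgebra ℝ A] where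
  R : K3 → K3 → A
  L : K3 → Fin 3 → Fin 3 → Fin 3 → (A →L[ℝ] A)
  c : ℝ
  R_le : ∀ k q, ‖R k q‖ ≤ 1
  L_le : ∀ k i j m, ‖L k i j m‖ ≤ c

namespace Ker

variable {A : Type} [NormedCommRing A] [NormedAlgebra ℝ A] [CompleteSpace A] (𝒦 : Ker A)

lemma c_nonneg : 0 ≤ 𝒦.c := (norm_nonneg _).trans (𝒦.L_le 0 0 0 0)

/-- The convolution. -/
noncomputable def cvl (V W : K3 × Fin 3 → A) (k : K3) (j m : Fin 3) : A :=
  ∑' q, 𝒦.R k q * V (k - q, m) * W (q, j)

/-- The bilinear operator on functions. -/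
noncomputable def fn (V W : K3 × Fin 3 → A) (x : K3 × Fin 3) : A :=
  ∑ j, ∑ m, 𝒦.L x.1 x.2 j m (𝒦.cvl V W x.1 j m)

lemma norm_term_le (V W : K3 × Fin 3 → A) (k q : K3) (j m : Fin 3) :
    ‖𝒦.R k q * V (k - q, m) * W (q, j)‖ ≤ ‖V (k - q, m)‖ * ‖W (q, j)‖ := by
  refine (norm_mul_le _ _).trans (mul_le_mul_of_nonneg_right ?_ (norm_nonneg _))
  refine (norm_mul_le _ _).trans ?_
  calc ‖𝒦.R k q‖ * ‖V (k - q, m)‖ ≤ 1 * ‖V (k - q, m)‖ :=
        mul_le_mul_of_nonneg_right (𝒦.R_le k q) (norm_nonneg _)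
    _ = _ := one_mul _

lemma hasSum_conv (V W : XA A) :
    HasSum (fun x : K3 × K3 => szA V (x.1 - x.2) * szA W x.2) (‖V‖ * ‖W‖) :=
  hasSum_shear (hasSum_szA V) (hasSum_szA W) (szA_nonneg _) (szA_nonneg _)

lemma summable_conv (V W : XA A) (k : K3) :
    Summable fun q => szA V (k - q) * szA W q :=
  (hasSum_conv V W).summable.prod_factor k

lemma summable_norm_term (V W : XA A) (k : K3) (j m : Fin 3) :
    Summable fun q => ‖V (k - q, m)‖ * ‖W (q, j)‖ := by
  refine Summable.of_nonneg_of_le (fun q => mul_nonneg (norm_nonneg _) (norm_nonneg _))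
    (fun q => ?_) (summable_conv V W k)
  exact mul_le_mul (le_szA _ _ _) (le_szA _ _ _) (norm_nonneg _) (szA_nonneg _ _)

lemma summable_term (V W : XA A) (k : K3) (j m : Fin 3) :
    Summable fun q => 𝒦.R k q * V (k - q, m) * W (q, j) :=
  Summable.of_norm (Summable.of_nonneg_of_le (fun _ => norm_nonneg _)
    (fun q => 𝒦.norm_term_le V W k q j m) (summable_norm_term V W k j m))

lemma norm_cvl_le (V W : XA A) (k : K3) (j m : Fin 3) :
    ‖𝒦.cvl V W k j m‖ ≤ ∑' q, ‖V (k - q, m)‖ * ‖W (q, j)‖ := by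
  unfold cvl
  exact tsum_of_norm_bounded (summable_norm_term V W k j m).hasSum
    fun q => 𝒦.norm_term_le V W k q j m

lemma norm_fn_le (V W : XA A) (x : K3 × Fin 3) :
    ‖𝒦.fn V W x‖ ≤ 𝒦.c * ∑' q, szA V (x.1 - q) * szA W q := by
  unfold fn
  have h1 : ∀ j m, ‖𝒦.L x.1 x.2 j m (𝒦.cvl V W x.1 j m)‖
      ≤ 𝒦.c * ∑' q, ‖V (x.1 - q, m)‖ * ‖W (q, j)‖ := by
    intro j m
    refine ((𝒦.L x.1 x.2 j m).le_opNorm _).trans ?_
    exact mul_le_mul (𝒦.L_le _ _ _ _) (𝒦.norm_cvl_le V W _ _ _) (norm_nonneg _) 𝒦.c_nonneg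
  have h2 : ‖∑ j, ∑ m, 𝒦.L x.1 x.2 j m (𝒦.cvl V W x.1 j m)‖
      ≤ ∑ j, ∑ m, 𝒦.c * ∑' q, ‖V (x.1 - q, m)‖ * ‖W (q, j)‖ :=
    (norm_sum_le _ _).trans (Finset.sum_le_sum fun j _ =>
      (norm_sum_le _ _).trans (Finset.sum_le_sum fun m _ => h1 j m))
  refine h2.trans (le_of_eq ?_)
  have h3 : ∀ q, szA V (x.1 - q) * szA W q = ∑ j, ∑ m, ‖V (x.1 - q, m)‖ * ‖W (q, j)‖ := by
    intro q
    unfold szA
    rw [Finset.sum_mul_sum, Finset.sum_comm]
  simp only [h3]
  rw [Summable.tsum_finsetSum fun j _ => summable_sum fun m _ => summable_norm_term V W _ _ _,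
    Finset.mul_sum]
  refine Finset.sum_congr rfl fun j _ => ?_
  rw [Summable.tsum_finsetSum fun m _ => summable_norm_term V W _ _ _, Finset.mul_sum]

lemma summable_fn (V W : XA A) : Summable (fun x => ‖𝒦.fn V W x‖) ∧
    ∑' x, ‖𝒦.fn V W x‖ ≤ 3 * 𝒦.c * (‖V‖ * ‖W‖) := by
  have h1 := (hasSum_conv V W).prod_fiberwise fun k => (summable_conv V W k).hasSum
  have h2 : HasSum (fun x : K3 × Fin 3 => 𝒦.c * ∑' q, szA V (x.1 - q) * szA W q)
      (3 * 𝒦.c * (‖V‖ * ‖W‖)) := by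
    have h3 : HasSum (fun k => 𝒦.c * ∑' q, szA V (k - q) * szA W q) (𝒦.c * (‖V‖ * ‖W‖)) :=
      h1.mul_left _
    have h4 : HasSum (fun _ : Fin 3 => (1 : ℝ)) 3 := by
      have := hasSum_fintype (fun _ : Fin 3 => (1 : ℝ))
      simpa using this
    have h5 := h3.mul h4 (h3.summable.mul_of_nonneg h4.summable (fun k => mul_nonneg 𝒦.c_nonneg
      (tsum_nonneg fun q => mul_nonneg (szA_nonneg _ _) (szA_nonneg _ _)))
      (fun _ => zero_le_one))
    have e : 3 * 𝒦.c * (‖V‖ * ‖W‖) = 𝒦.c * (‖V‖ * ‖W‖) * 3 := by ring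
    rw [e]
    exact h5.congr_fun fun x => by rw [mul_one]
  have h3 := fun x => 𝒦.norm_fn_le V W x
  have h4 := Summable.of_nonneg_of_le (fun _ => norm_nonneg _) h3 h2.summable
  exact ⟨h4, (h4.tsum_le_tsum h3 h2.summable).trans (le_of_eq h2.tsum_eq)⟩

/-- The bilinear operator. -/
noncomputable def bil (V W : XA A) : XA A := ⟨𝒦.fn V W, memℓ1_iff.2 (𝒦.summable_fn V W).1⟩

lemma bil_apply (V W : XA A) (x : K3 × Fin 3) : 𝒦.bil V W x = 𝒦.fn V W x := rfl

lemma norm_bil_le (V W : XA A) : ‖𝒦.bil V W‖ ≤ 3 * 𝒦.c * ‖V‖ * ‖W‖ := by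
  rw [norm_XA, mul_assoc]
  exact (𝒦.summable_fn V W).2

/-- The bilinear operator as a continuous bilinear map. -/
noncomputable def B : XA A →L[ℝ] XA A →L[ℝ] XA A :=
  LinearMap.mkContinuous₂ (LinearMap.mk₂ ℝ 𝒦.bil
    (fun V V' W => by
      ext x
      rw [lp.coeFn_add, Pi.add_apply, bil_apply, bil_apply, bil_apply]
      unfold fn
      rw [← Finset.sum_add_distrib]
      refine Finset.sum_congr rfl fun j _ => ?_
      rw [← Finset.sum_add_distrib]
      refine Finset.sum_congr rfl fun m _ => ?_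
      rw [← map_add]
      congr 1
      unfold cvl
      rw [← (𝒦.summable_term V W _ _ _).tsum_add (𝒦.summable_term V' W _ _ _)]
      refine tsum_congr fun q => ?_
      rw [lp.coeFn_add, Pi.add_apply]
      ring)
    (fun c V W => by
      ext x
      rw [lp.coeFn_smul, Pi.smul_apply, bil_apply, bil_apply]
      unfold fn
      rw [Finset.smul_sum]
      refine Finset.sum_congr rfl fun j _ => ?_
      rw [Finset.smul_sum]
      refine Finset.sum_congr rfl fun m _ => ?_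
      rw [← map_smul]
      congr 1
      unfold cvl
      rw [← (𝒦.summable_term V W _ _ _).tsum_const_smul c]
      refine tsum_congr fun q => ?_
      rw [lp.coeFn_smul, Pi.smul_apply, mul_smul_comm, smul_mul_assoc])
    (fun V W W' => by
      ext x
      rw [lp.coeFn_add, Pi.add_apply, bil_apply, bil_apply, bil_apply]
      unfold fn
      rw [← Finset.sum_add_distrib]
      refine Finset.sum_congr rfl fun j _ => ?_
      rw [← Finset.sum_add_distrib]
      refine Finset.sum_congr rfl fun m _ => ?_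
      rw [← map_add]
      congr 1
      unfold cvl
      rw [← (𝒦.summable_term V W _ _ _).tsum_add (𝒦.summable_term V W' _ _ _)]
      refine tsum_congr fun q => ?_
      rw [lp.coeFn_add, Pi.add_apply]
      ring)
    (fun c V W => by
      ext x
      rw [lp.coeFn_smul, Pi.smul_apply, bil_apply, bil_apply]
      unfold fn
      rw [Finset.smul_sum]
      refine Finset.sum_congr rfl fun j _ => ?_
      rw [Finset.smul_sum]
      refine Finset.sum_congr rfl fun m _ => ?_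
      rw [← map_smul]
      congr 1
      unfold cvl
      rw [← (𝒦.summable_term V W _ _ _).tsum_const_smul c]
      refine tsum_congr fun q => ?_
      rw [lp.coeFn_smul, Pi.smul_apply, mul_smul_comm])) (3 * 𝒦.c) 𝒦.norm_bil_le

lemma B_apply (V W : XA A) (x : K3 × Fin 3) : 𝒦.B V W x = 𝒦.fn V W x := rfl

lemma norm_B_le (V W : XA A) : ‖𝒦.B V W‖ ≤ 3 * 𝒦.c * ‖V‖ * ‖W‖ := 𝒦.norm_bil_le V W

end Ker

/-- A quadratic equation in a Banach space. -/
theorem quad_fixed {X : Type} [NormedAddCommGroup X] [NormedSpace ℝ X] [CompleteSpace X]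
    (B : X →L[ℝ] X →L[ℝ] X) {b : ℝ} (hb : 0 ≤ b) (hB : ∀ x y, ‖B x y‖ ≤ b * ‖x‖ * ‖y‖) (x₀ : X)
    {r : ℝ} (hr : 2 * ‖x₀‖ ≤ r) (hbr : 4 * b * r ≤ 1) :
    (∃ x, ‖x‖ ≤ r ∧ x = x₀ - B x x) ∧
    ∀ x y, ‖x‖ ≤ r → ‖y‖ ≤ r → x = x₀ - B x x → y = x₀ - B y y → x = y := by
  have hr0 : 0 ≤ r := le_trans (by positivity) hr
  have hlip : ∀ x y, ‖x‖ ≤ r → ‖y‖ ≤ r → ‖B x x - B y y‖ ≤ 1 / 2 * ‖x - y‖ := by
    intro x y hx hy
    have e : B x x - B y y = B (x - y) x + B y (x - y) := by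
      simp only [map_sub, sub_apply]
      abel
    rw [e]
    have h1 := hB (x - y) x
    have h2 := hB y (x - y)
    have h3 : b * ‖x - y‖ * ‖x‖ ≤ b * ‖x - y‖ * r :=
      mul_le_mul_of_nonneg_left hx (by positivity)
    have h4 : b * ‖y‖ * ‖x - y‖ ≤ b * r * ‖x - y‖ :=
      mul_le_mul_of_nonneg_right (mul_le_mul_of_nonneg_left hy hb) (norm_nonneg _)
    have h5 := norm_add_le (B (x - y) x) (B y (x - y))
    have h6 := mul_le_mul_of_nonneg_right hbr (norm_nonneg (x - y))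
    linarith
  constructor
  · set f : X → X := fun x => x₀ - B x x with hf
    have hmaps : MapsTo f (Metric.closedBall 0 r) (Metric.closedBall 0 r) := by
      intro x hx
      rw [mem_closedBall_zero_iff] at hx ⊢
      have h1 := hB x x
      have h2 : b * ‖x‖ * ‖x‖ ≤ b * r * r := by gcongr
      have h3 := norm_sub_le x₀ (B x x)
      have h4 := mul_le_mul_of_nonneg_right hbr hr0
      show ‖x₀ - B x x‖ ≤ r
      linarith
    have hcon : ContractingWith (1 / 2 : NNReal) (hmaps.restrict f _ _) := by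
      refine ⟨by rw [div_lt_one (by norm_num)]; norm_num, LipschitzWith.of_dist_le_mul fun x y => ?_⟩
      have hx := mem_closedBall_zero_iff.1 x.2
      have hy := mem_closedBall_zero_iff.1 y.2
      rw [Subtype.dist_eq, Subtype.dist_eq, dist_eq_norm, dist_eq_norm]
      have e : ((hmaps.restrict f _ _ x : X) - (hmaps.restrict f _ _ y : X))
          = -(B x x - B y y) := by
        simp only [MapsTo.val_restrict_apply, hf]
        abel
      rw [e, norm_neg]
      refine (hlip x y hx hy).trans (le_of_eq ?_)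
      push_cast
      ring
    obtain ⟨y, hy, hfix, -⟩ := hcon.exists_fixedPoint' Metric.isClosed_closedBall.isComplete
      hmaps (x := 0) (mem_closedBall_zero_iff.2 (by simpa using hr0)) (edist_ne_top _ _)
    exact ⟨y, mem_closedBall_zero_iff.1 hy, hfix.symm⟩
  · intro x y hx hy hx' hy'
    have h1 := hlip x y hx hy
    have h2 : x - y = -(B x x - B y y) := by
      nth_rewrite 1 [hx', hy']
      abel
    have h3 : ‖x - y‖ = ‖B x x - B y y‖ := by
      rw [h2, norm_neg]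
    have h4 : ‖x - y‖ ≤ 0 := by linarith [norm_nonneg (x - y)]
    exact sub_eq_zero.1 (norm_le_zero_iff.1 h4)

end Pool.Agent.R211.SV
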