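import Pool.Agent.R211.SV.Fun

/-!
The evolution of the functional.
-/

set_option autoImplicit false

open Set Filter Topology MeasureTheory
open scoped ComplexConjugate

namespace Pool.Agent.R211.SV

open Pool.Agent.H708R2.EulerSign (V Periodic3 Dom divergence contDiff_slice dom_bdd dom_meas
  dom_lt_top)
open Pool.Agent.H708R2.EulerModes
open Pool.Agent.Y302.Trunc hiding en dS en_nonneg en_continuousOn en_hasDerivAt unique
open Pool.Agent.Y302.Tri
open Pool.Agent.Y302.KP (Fc gc sr)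

variable {M : ℕ} {d : K3 → ℝ} {T : ℝ} {u : ℝ → V → V} {p : ℝ → V → ℝ}
  {α θ C : ℝ} {β : ℕ → ℝ}

/-- The zero field. -/
def zf : ℝ → V → V := fun _ _ => 0

/-- The energy (the mean of `|u|²`). -/
noncomputable def Ey (u : ℝ → V → V) (t : ℝ) : ℝ := vi * en u zf t

/-- The dissipation rate. -/
noncomputable def Dy (d : K3 → ℝ) (u : ℝ → V → V) (t : ℝ) : ℝ :=
  ∑' k, d k * ∑ i, ‖cv (u t) i k‖ ^ 2

lemma cv_zf (t : ℝ) (i : Fin 3) (k : K3) : cv (zf t) i k = 0 := cf_zero k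

lemma Ey_hasSum (hu : Base (Ico 0 T) u p) {t : ℝ} (ht : t ∈ Ico 0 T) :
    HasSum (fun k => ∑ i, ‖cv (u t) i k‖ ^ 2) (Ey u t) := by
  have h := en_eq hu (zero_sol (d := fun _ => 0)).base ht
  refine h.congr_fun fun k => ?_
  refine Finset.sum_congr rfl fun i _ => ?_
  have : cv ((fun (_ : ℝ) (_ : V) => (0 : V)) t) i k = 0 := cf_zero k
  rw [this, sub_zero]

lemma Dy_facts (hu : IsSol d T u p) {t : ℝ} (ht : t ∈ Ioo 0 T) :
    Summable (fun k => d k * ∑ i, ‖cv (u t) i k‖ ^ 2) ∧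
    HasDerivAt (Ey u) (-(2 * Dy d u t)) t := by
  have hz : IsSol d T zf (fun _ _ => 0) := zero_sol
  have h1 := diss_hasSum hu hz ht
  have h2 := (en_hasDerivAt hu.base hz.base ht).const_mul vi
  have e1 : (fun k => d k * ∑ i, ‖cv (u t) i k - cv (zf t) i k‖ ^ 2)
      = fun k => d k * ∑ i, ‖cv (u t) i k‖ ^ 2 := by
    funext k
    simp only [cv_zf, sub_zero]
  have e2 : ∫ x in Dom, ∑ i, 2 * (u t x - zf t x) i * fderiv ℝ (zf t) x (u t x - zf t x) i = 0 := by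
    have : ∀ x, fderiv ℝ (zf t) x = 0 := by
      intro x
      unfold zf
      simp
    simp [this]
  rw [e1, e2, add_zero] at h1
  refine ⟨h1.summable, ?_⟩
  have h3 : Dy d u t = -(vi / 2) * ∫ x in Dom, dS u zf t x := h1.tsum_eq
  refine h2.congr_deriv ?_
  rw [h3]
  ring

lemma Dy_nonneg (hd0 : ∀ k, 0 ≤ d k) (t : ℝ) : 0 ≤ Dy d u t :=
  tsum_nonneg fun k => mul_nonneg (hd0 k) (Finset.sum_nonneg fun _ _ => sq_nonneg _)

lemma Ey_nonneg (t : ℝ) : 0 ≤ Ey u t := mul_nonneg vi_pos.le (en_nonneg t)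

lemma Ey_continuousOn (hu : Base (Ico 0 T) u p) : ContinuousOn (Ey u) (Ico 0 T) :=
  continuousOn_const.mul (en_continuousOn hu (zero_sol (d := fun _ => 0)).base)

lemma Ey_le (hd0 : ∀ k, 0 ≤ d k) (hu : IsSol d T u p) {t : ℝ} (ht : t ∈ Ico 0 T) :
    Ey u t ≤ Ey u 0 := by
  have hanti : AntitoneOn (Ey u) (Ico 0 T) := by
    refine antitoneOn_of_deriv_nonpos (convex_Ico _ _) (Ey_continuousOn hu.base) ?_ ?_
    · intro s hs
      rw [interior_Ico] at hs
      exact (Dy_facts hu hs).2.differentiableAt.differentiableWithinAt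
    · intro s hs
      rw [interior_Ico] at hs
      rw [(Dy_facts hu hs).2.deriv]
      have := Dy_nonneg (u := u) hd0 s
      linarith
  exact hanti ⟨le_rfl, ht.1.trans_lt ht.2⟩ ht ht.1

/-- The functional. -/
noncomputable def Jf (β : ℕ → ℝ) (M : ℕ) (v : V → V) : ℝ := ∑' n, β n * xn M v n

section evo

variable (hM : 0 < M) (hd0 : ∀ k, 0 ≤ d k) (hdi : InvSymbol d) (hu : IsSol d T u p)
  (h0 : InvField (u 0)) (hW : Wts α β θ C)

include hM hd0 hdi hu h0

lemma xn_le {t : ℝ} (ht : t ∈ Ico 0 T) (n : ℕ) : |xn M (u t) n| ≤ √(Ey u 0) := by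
  have hut : ContDiff ℝ 1 (u t) := contDiff_slice hu.base.contDiffOn_u ht
  have h1 := xn_sq hM hut (hu.base.periodic_u t ht) (hu.base.div_free t ht)
    (inv_preserved hd0 hdi hu h0 ht) n
  have h2 := Ey_hasSum hu.base ht
  have h3 := h2.summable.le_tsum (l0 M n) (fun k _ => Finset.sum_nonneg fun _ _ => sq_nonneg _)
  rw [h2.tsum_eq] at h3
  have h4 := Ey_le hd0 hu ht
  refine Real.abs_le_sqrt ?_
  nlinarith [sq_nonneg (xn M (u t) n)]

include hW

lemma Jf_continuousOn : ContinuousOn (fun t => Jf β M (u t)) (Ico 0 T) := by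
  unfold Jf
  refine continuousOn_tsum (fun n => continuousOn_const.mul (xn_continuousOn hu.base n))
    (hW.sum.mul_right (√(Ey u 0))) fun n t ht => ?_
  rw [norm_mul, Real.norm_eq_abs, Real.norm_eq_abs, abs_of_pos (hW.pos n)]
  exact mul_le_mul_of_nonneg_left (xn_le hM hd0 hdi hu h0 ht n) (hW.pos n).le

/-- The derivative of the functional. -/
theorem Jf_deriv {ν κ : ℝ} (hν : 0 < ν)
    (hdν : ∀ k ∉ Cset M, ν * ∑ i, (k i : ℝ) ^ 2 ≤ d k)
    (hdκ : ∀ k ∈ Cset M, d k ≤ κ * (∑ i, (k i : ℝ) ^ 2) ^ α) {lam : ℝ} (hlam : 0 < lam)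
    {t : ℝ} (ht : t ∈ Ioo 0 T) :
    ∃ J' : ℝ, HasDerivAt (fun t => Jf β M (u t)) J' t ∧
      (1 - θ) * M / (2 * C) * Jf β M (u t) ^ 2
        - (1 / (2 * (1 - θ)) * (κ ^ 2 * (C * (((M : ℝ) ^ 2) ^ α) ^ 2 / M))
          + 4000 * C * (Ey u 0 / (lam * ν))) - 4000 * C * lam * Dy d u t ≤ J' := by
  have htI : t ∈ Ico 0 T := ⟨ht.1.le, ht.2⟩
  have hut : ContDiff ℝ 1 (u t) := contDiff_slice hu.base.contDiffOn_u htI
  have hup := hu.base.periodic_u t htI
  have hud := hu.base.div_free t htI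
  have hui := inv_preserved hd0 hdi hu h0 htI
  obtain ⟨b, hb1, hb2⟩ := exists_between ht.2
  obtain ⟨Cb, hCb⟩ := cv_deriv_bdd hu.base hb2
  have hode := fun (s : ℝ) (hs : s ∈ Ioo 0 T) (n : ℕ) => xn_ode hM hd0 hdi hu h0 hs n
  choose! x' g hx1 hx2 hx3 hx4 using hode
  have hder : HasDerivAt (fun t => Jf β M (u t)) (∑' n, β n * x' t n) t := by
    unfold Jf
    refine hasDerivAt_tsum_of_isPreconnected (u := fun n => β n * Cb) (t := Ioo 0 b)
      (g := fun n s => β n * xn M (u s) n) (g' := fun n s => β n * x' s n)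
      (y₀ := t) (hW.sum.mul_right Cb) isOpen_Ioo isPreconnected_Ioo ?_ ?_ ⟨ht.1, hb1⟩ ?_
      ⟨ht.1, hb1⟩
    · intro n s hs
      exact (hx1 s ⟨hs.1, hs.2.trans hb2⟩ n).const_mul _
    · intro n s hs
      rw [norm_mul, Real.norm_eq_abs, Real.norm_eq_abs, abs_of_pos (hW.pos n)]
      refine mul_le_mul_of_nonneg_left ?_ (hW.pos n).le
      exact (hx4 s ⟨hs.1, hs.2.trans hb2⟩ n).trans (hCb s hs _ _)
    · refine Summable.of_norm (Summable.of_nonneg_of_le (fun _ => norm_nonneg _) (fun n => ?_)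
        (hW.sum.mul_right (√(Ey u 0))))
      rw [norm_mul, Real.norm_eq_abs, Real.norm_eq_abs, abs_of_pos (hW.pos n)]
      exact mul_le_mul_of_nonneg_left (xn_le hM hd0 hdi hu h0 htI n) (hW.pos n).le
  refine ⟨_, hder, ?_⟩
  set X : ℕ → ℝ := fun n => xn M (u t) n with hX
  have hXs := xn_summable hM hut hup hud hui
  obtain ⟨q1, q2, q3⟩ := quad_form hW hM hXs
  have hJ2 := (J_sq_le hW hM q1).2
  have hM' : (0 : ℝ) < M := by exact_mod_cast hM
  have hθ1 : 0 < 1 - θ := by linarith [hW.th1]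
  have hap := ac_pos hW.pos hM
  -- the dissipation on the chain
  set dn : ℕ → ℝ := fun n => d (l0 M n) with hdn
  have hdnb : ∀ n, dn n ^ 2 ≤ κ ^ 2 * ((∑ i, (l0 M n i : ℝ) ^ 2) ^ α) ^ 2 := by
    intro n
    have h1 := hdκ (l0 M n) ⟨n, l0_mem hM n⟩
    have h2 := pow_le_pow_left₀ (hd0 (l0 M n)) h1 2
    rwa [mul_pow] at h2
  obtain ⟨s3a, s3b⟩ := hW.s3 M hM
  have hcle : ∀ n, β n ^ 2 * dn n ^ 2 / ac β M n
      ≤ κ ^ 2 * (β n ^ 2 * ((∑ i, (l0 M n i : ℝ) ^ 2) ^ α) ^ 2 / (β (n + 1) * Fc M (n + 1))) := by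
    intro n
    have h1 := mul_le_mul_of_nonneg_left (hdnb n) (sq_nonneg (β n))
    have h2 := div_le_div_of_nonneg_right h1 (hap n).le
    refine h2.trans (le_of_eq ?_)
    unfold ac
    ring
  have hcs : Summable fun n => β n ^ 2 * dn n ^ 2 / ac β M n :=
    Summable.of_nonneg_of_le (fun n => div_nonneg (mul_nonneg (sq_nonneg _) (sq_nonneg _))
      (hap n).le) hcle (s3a.mul_left (κ ^ 2))
  have hct : ∑' n, β n ^ 2 * dn n ^ 2 / ac β M n ≤ κ ^ 2 * (C * (((M : ℝ) ^ 2) ^ α) ^ 2 / M) := by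
    refine (hcs.tsum_le_tsum hcle (s3a.mul_left (κ ^ 2))).trans ?_
    rw [tsum_mul_left]
    exact mul_le_mul_of_nonneg_left s3b (sq_nonneg κ)
  obtain ⟨w1, w2⟩ := cs_weights hW hM (c := dn) q1 hcs (ε := (1 - θ) / 2) (by positivity)
  -- the error
  set G : ℝ := 1536 * (√(∑' k, Wf M (u t) k ^ 2) * √(∑' k, sz (cv (u t)) k ^ 2)) with hG
  have hGn : 0 ≤ G := by positivity
  have hgs : Summable fun n => β n * g t n := by
    refine Summable.of_norm (Summable.of_nonneg_of_le (fun _ => norm_nonneg _) (fun n => ?_)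
      (hW.sum.mul_right G))
    rw [norm_mul, Real.norm_eq_abs, Real.norm_eq_abs, abs_of_pos (hW.pos n)]
    exact mul_le_mul_of_nonneg_left (hx3 t ht n) (hW.pos n).le
  have hgt : -(C * G) ≤ ∑' n, β n * g t n := by
    have h1 : ∑' n, β n * -G ≤ ∑' n, β n * g t n := by
      refine (hW.sum.mul_right (-G)).tsum_le_tsum (fun n => ?_) hgs
      exact mul_le_mul_of_nonneg_left (neg_le_of_abs_le (hx3 t ht n)) (hW.pos n).le
    rw [tsum_mul_right] at h1
    have h2 := mul_le_mul_of_nonneg_right hW.tsum_le hGn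
    linarith
  -- the derivative
  have hds : Summable fun n => β n * (dn n * X n) := by
    refine Summable.of_norm (w1.congr fun n => ?_)
    rw [norm_mul, norm_mul, Real.norm_eq_abs, Real.norm_eq_abs, Real.norm_eq_abs,
      abs_of_pos (hW.pos n)]
  have hdt : ∑' n, β n * (dn n * X n) ≤ ∑' n, β n * (|dn n| * |X n|) := by
    refine hds.tsum_le_tsum (fun n => ?_) w1
    refine mul_le_mul_of_nonneg_left ?_ (hW.pos n).le
    rw [← abs_mul]
    exact le_abs_self _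
  have hfs : Summable fun n => β n * (Fc M n * X (n - 1) ^ 2) := by
    refine (summable_nat_add_iff 1).1 (q1.congr fun n => ?_)
    unfold ac
    rw [Nat.add_sub_cancel]
    ring
  have hft : ∑' n, β n * (Fc M n * X (n - 1) ^ 2) = ∑' n, ac β M n * X n ^ 2 := by
    rw [hfs.tsum_eq_zero_add]
    have : Fc M 0 = 0 := rfl
    rw [this, zero_mul, mul_zero, zero_add]
    refine tsum_congr fun n => ?_
    unfold ac
    rw [Nat.add_sub_cancel]
    ring
  have hsum : ∑' n, β n * x' t n = -(∑' n, β n * (dn n * X n)) + (∑' n, ac β M n * X n ^ 2)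
      - (∑' n, β n * gc M n * (X n * X (n + 1))) + ∑' n, β n * g t n := by
    rw [← hft, ← tsum_neg, ← (hds.neg).tsum_add hfs, ← (hds.neg.add hfs).tsum_sub q2,
      ← ((hds.neg.add hfs).sub q2).tsum_add hgs]
    refine tsum_congr fun n => ?_
    rw [hx2 t ht n]
    simp only [hX, hdn]
    ring
  set Q : ℝ := ∑' n, ac β M n * X n ^ 2 with hQ
  have hQ0 : 0 ≤ Q := tsum_nonneg fun n => mul_nonneg (hap n).le (sq_nonneg _)
  have hJQ : Jf β M (u t) ^ 2 ≤ C / M * Q := by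
    refine hJ2.trans (mul_le_mul_of_nonneg_right ?_ hQ0)
    exact (hW.s2 M hM).2
  -- the size of the error
  have hDs := (Dy_facts hu ht).1
  have hEs := Ey_hasSum hu.base htI
  have hD0 := Dy_nonneg (u := u) hd0 t
  have hWf : ∑' k, Wf M (u t) k ^ 2 ≤ 9 / ν * Dy d u t := by
    unfold Dy
    rw [← tsum_mul_left]
    refine (summable_Wf hut hup).tsum_le_tsum (fun k => ?_) (hDs.mul_left (9 / ν))
    have hn : 0 ≤ ∑ i, ‖cv (u t) i k‖ ^ 2 := Finset.sum_nonneg fun _ _ => sq_nonneg _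
    unfold Wf
    split_ifs with hk
    · rw [zero_pow two_ne_zero]
      exact mul_nonneg (by positivity) (mul_nonneg (hd0 k) hn)
    · refine (N1sz_le k).trans ?_
      have h1 := mul_le_mul_of_nonneg_right (hdν k hk) hn
      have h2 : 9 * ((∑ j, (k j : ℝ) ^ 2) * ∑ i, ‖cv (u t) i k‖ ^ 2)
          = 9 / ν * (ν * (∑ j, (k j : ℝ) ^ 2) * ∑ i, ‖cv (u t) i k‖ ^ 2) := by
        field_simp
      rw [h2]
      exact mul_le_mul_of_nonneg_left h1 (by positivity)
  have hsz : ∑' k, sz (cv (u t)) k ^ 2 ≤ 3 * Ey u 0 := by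
    have h1 := (summable_sz2 hut hup).tsum_le_tsum (fun k => sz_sq_le k)
      (hEs.summable.mul_left 3)
    rw [tsum_mul_left, hEs.tsum_eq] at h1
    have h2 := Ey_le hd0 hu htI
    linarith
  have hE0 := Ey_nonneg (u := u) 0
  have hGle : G ≤ 4000 * (lam * Dy d u t + Ey u 0 / (lam * ν)) := by
    have h1 : √(∑' k, Wf M (u t) k ^ 2) * √(∑' k, sz (cv (u t)) k ^ 2)
        ≤ √(9 / ν * Dy d u t) * √(3 * Ey u 0) :=
      mul_le_mul (Real.sqrt_le_sqrt hWf) (Real.sqrt_le_sqrt hsz) (Real.sqrt_nonneg _)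
        (Real.sqrt_nonneg _)
    have h2 : √(9 / ν * Dy d u t) * √(3 * Ey u 0) = √(27 * ((lam * Dy d u t)
        * (Ey u 0 / (lam * ν)))) := by
      rw [← Real.sqrt_mul (by positivity)]
      congr 1
      field_simp
      ring
    have hA : 0 ≤ lam * Dy d u t := mul_nonneg hlam.le hD0
    have hB : 0 ≤ Ey u 0 / (lam * ν) := by positivity
    have h3 : √(27 * ((lam * Dy d u t) * (Ey u 0 / (lam * ν))))
        ≤ 26 / 10 * (lam * Dy d u t + Ey u 0 / (lam * ν)) := by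
      refine Real.sqrt_le_iff.2 ⟨by positivity, ?_⟩
      nlinarith [sq_nonneg (lam * Dy d u t - Ey u 0 / (lam * ν)), mul_nonneg hA hB]
    rw [hG]
    have h4 : √(∑' k, Wf M (u t) k ^ 2) * √(∑' k, sz (cv (u t)) k ^ 2)
        ≤ 26 / 10 * (lam * Dy d u t + Ey u 0 / (lam * ν)) := h1.trans (h2 ▸ h3)
    have h5 : 0 ≤ lam * Dy d u t + Ey u 0 / (lam * ν) := add_nonneg hA hB
    nlinarith
  rw [hsum]
  have hC0 := hW.C0
  have hJQ' : (1 - θ) * M / (2 * C) * Jf β M (u t) ^ 2 ≤ (1 - θ) / 2 * Q := by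
    have h1 := mul_le_mul_of_nonneg_left hJQ
      (by positivity : 0 ≤ (1 - θ) * M / (2 * C))
    refine h1.trans (le_of_eq ?_)
    field_simp
  have hCG := mul_le_mul_of_nonneg_left hGle hC0.le
  have hw2 : 1 / (4 * ((1 - θ) / 2)) = 1 / (2 * (1 - θ)) := by ring
  rw [hw2] at w2
  have hct' := mul_le_mul_of_nonneg_left hct (by positivity : 0 ≤ 1 / (2 * (1 - θ)))
  nlinarith

end evo

end Pool.Agent.R211.SV
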