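import Pool.Agent.R211.SV.Life
import Pool.Agent.R211.SV.Loc6

/-!
The set of frequencies and the initial datum.
-/

set_option autoImplicit false
set_option linter.unusedSectionVars false

open Set Filter Topology MeasureTheory
open scoped ComplexConjugate ContDiff

namespace Pool.Agent.R211.SV

open Pool.Agent.H708R2.EulerSign (V Periodic3 Dom divergence divergence_eq_sum contDiff_slice sq3
  sq3_nonneg sq3_contDiff)
open Pool.Agent.H708R2.EulerModes
open Pool.Agent.Y302.Trunc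
open Pool.Agent.Y302.Tri

/-! ### The set of frequencies -/

/-- The basic frequencies `(1, 1, 3)`, `(2, 0, 6)`, `(4, 6, 6)` and `(8, 12, 0)`. -/
def dir : Fin 4 → K3 := ![![1, 1, 3], ![2, 0, 6], ![4, 6, 6], ![8, 12, 0]]

/-- The set of frequencies: the vectors `M 8ʲ b`, `j ≥ 0`, `b` one of the basic frequencies, and all
vectors obtained from them by permutations of the coordinates and changes of signs. -/
def SF (M : ℕ) : Set K3 :=
  {k | ∃ (j : ℕ) (i : Fin 4) (e : Fin 3 → ℤ) (σ : Equiv.Perm (Fin 3)), IsSign e ∧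
    k = actK e σ ((M * 8 ^ j : ℤ) • dir i)}

variable {M : ℕ}

lemma dir_eq (i : Fin 4) : dir i = toK (v0 i) := by
  fin_cases i <;> (funext p; fin_cases p <;> rfl)

lemma act_mem0 : ∀ i < 4, ∀ σ : Equiv.Perm (Fin 3), ∀ s : Fin 3 → Bool, ∃ v ∈ L i,
    ∀ p : Fin 3, co p v = (if s p then 1 else -1) * co (σ p) (v0 i) := by
  decide +kernel

lemma SF_eq (hM : 0 < M) : SF M = Cset M := by
  ext k
  constructor
  · rintro ⟨j, i, e, σ, he, rfl⟩
    have hmod : (4 * j + (i : ℕ)) % 4 = i := by omega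
    have hdiv : (4 * j + (i : ℕ)) / 4 = j := by omega
    obtain ⟨v, hv, h⟩ := act_mem0 i i.2 σ (fun p => decide (e p = 1))
    have h2 : actK e σ (toK (v0 i)) = toK v := by
      funext p
      have h3 := h p
      simp only [decide_eq_true_eq] at h3
      have h4 : e p = if e p = 1 then 1 else -1 := by
        rcases he p with h5 | h5 <;> simp [h5]
      unfold actK toK
      rw [h3, ← h4]
    refine ⟨4 * j + i, ?_⟩
    rw [dir_eq, actK_smul, h2]
    have e1 : (M * 8 ^ j : ℤ) = sg M (4 * j + i) := by unfold sg; rw [hdiv]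
    rw [e1, mem_Lev hM, hmod]
    exact hv
  · rintro ⟨n, hn⟩
    obtain ⟨e, σ, he, h, -⟩ := orbitLev hM hn
    refine ⟨n / 4, ⟨n % 4, Nat.mod_lt _ (by norm_num)⟩, e, σ, he, ?_⟩
    rw [h, dir_eq]
    rfl

/-- The set is sparse. -/
lemma SF_count (hM : 0 < M) {N : ℕ} (hN : 2 ≤ N) :
    {k ∈ SF M | ∀ i, |k i| ≤ N}.Finite ∧
      ({k ∈ SF M | ∀ i, |k i| ≤ N}.ncard : ℝ) ≤ 240 * Real.log N := by
  have hsub : {k ∈ SF M | ∀ i, |k i| ≤ N} ⊆ (LL M N : Set K3) := by
    rintro k ⟨h1, h2⟩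
    rw [SF_eq hM] at h1
    refine mem_LL hM h1 fun p => ?_
    have := h2 p
    have h3 : (0 : ℤ) ≤ N := Int.natCast_nonneg N
    linarith
  have hfin := (LL M N).finite_toSet.subset hsub
  refine ⟨hfin, ?_⟩
  have h1 : {k ∈ SF M | ∀ i, |k i| ≤ N}.ncard ≤ 24 * m1 N := by
    refine (Set.ncard_le_ncard hsub (LL M N).finite_toSet).trans ?_
    rw [Set.ncard_coe_finset]
    exact card_LL M N
  have h2 := m1_le hN
  have h3 : ({k ∈ SF M | ∀ i, |k i| ≤ N}.ncard : ℝ) ≤ 24 * (m1 N : ℝ) := by exact_mod_cast h1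
  linarith

lemma SF_low (hM : 0 < M) {k : K3} (hk : k ∈ SF M) : ∃ i, 3 * (M : ℤ) ≤ |k i| := by
  rw [SF_eq hM] at hk
  obtain ⟨n, hn⟩ := hk
  obtain ⟨p, hp⟩ := Lev_low hM hn
  refine ⟨p, le_trans ?_ hp⟩
  unfold sg
  have h1 : (1 : ℤ) ≤ 8 ^ (n / 4) := one_le_pow₀ (by norm_num)
  have h2 : (0 : ℤ) ≤ M := Int.natCast_nonneg M
  nlinarith

/-! ### The datum -/

/-- The field with the components
`3 sin(M xᵢ) (cos(M xⱼ) cos(3 M xₖ) + cos(3 M xⱼ) cos(M xₖ)) - 2 sin(3 M xᵢ) cos(M xⱼ) cos(M xₖ)`,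
where `{i, j, k} = {1, 2, 3}`. -/
noncomputable def GF (M : ℕ) (x : V) : V := fun i =>
  3 * Real.sin (M * x i) * (Real.cos (M * x (i + 1)) * Real.cos (3 * M * x (i + 2))
    + Real.cos (3 * M * x (i + 1)) * Real.cos (M * x (i + 2)))
  - 2 * Real.sin (3 * M * x i) * (Real.cos (M * x (i + 1)) * Real.cos (M * x (i + 2)))

lemma perm_cases : ∀ (σ : Equiv.Perm (Fin 3)) (i : Fin 3),
    (σ (i + 1) = σ i + 1 ∧ σ (i + 2) = σ i + 2) ∨ (σ (i + 1) = σ i + 2 ∧ σ (i + 2) = σ i + 1) := by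
  decide

lemma sin_sign {e : ℤ} (he : e = 1 ∨ e = -1) (a y : ℝ) :
    Real.sin (a * ((e : ℝ) * y)) = (e : ℝ) * Real.sin (a * y) := by
  rcases he with h | h
  · subst h; simp
  · subst h
    push_cast
    rw [show a * (-1 * y) = -(a * y) by ring, Real.sin_neg]
    ring

lemma cos_sign {e : ℤ} (he : e = 1 ∨ e = -1) (a y : ℝ) :
    Real.cos (a * ((e : ℝ) * y)) = Real.cos (a * y) := by
  rcases he with h | h
  · subst h; simp
  · subst h
    push_cast
    rw [show a * (-1 * y) = -(a * y) by ring, Real.cos_neg]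

lemma GF_inv (c : ℝ) : InvField (fun x => c • GF M x) := by
  intro e σ he x
  funext i
  simp only [Pi.smul_apply, smul_eq_mul, actV, GF]
  rw [sin_sign (he i), sin_sign (he i), cos_sign (he (i + 1)), cos_sign (he (i + 1)),
    cos_sign (he (i + 2)), cos_sign (he (i + 2))]
  rcases perm_cases σ i with ⟨h1, h2⟩ | ⟨h1, h2⟩
  · rw [h1, h2]; ring
  · rw [h1, h2]; ring

lemma nodup_Lx0 : (Lx 0).Nodup := nodup_Lx 0 (by norm_num)

lemma Ef_zero_eq (hM : 0 < M) (x : V) : Ef M 0 x = (8 : ℝ) • GF M x := by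
  have hs : sg M 0 = M := by simp [sg]
  have hM' : (M : ℤ) ≠ 0 := by exact_mod_cast hM.ne'
  have h1 : Ef M 0 x = ∑ v ∈ (Lx 0).toFinset,
      Real.sin (ph ((M : ℤ) • toK v) x) • amv M 0 ((M : ℤ) • toK v) := by
    unfold Ef Lev LevX
    rw [hs, Finset.sum_image fun v _ w _ h => smul_toK_inj hM' h]
  funext i
  have h2 : ∀ v : Z3, (Real.sin (ph ((M : ℤ) • toK v) x) • amv M 0 ((M : ℤ) • toK v)) i
      = Real.sin ((v.1 : ℝ) * (M * x 0) + (v.2.1 : ℝ) * (M * x 1)
        + (v.2.2 : ℝ) * (M * x 2)) * (f 0 (co i v) : ℝ) := by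
    intro v
    have e1 : amv M 0 ((M : ℤ) • toK v) i = (f 0 (co i v) : ℝ) := by
      unfold amv
      have := am_smul hM 0 v i
      rw [hs] at this
      rw [this]
    have e2 : ph ((M : ℤ) • toK v) x = (v.1 : ℝ) * (M * x 0) + (v.2.1 : ℝ) * (M * x 1)
        + (v.2.2 : ℝ) * (M * x 2) := by
      unfold ph
      rw [Fin.sum_univ_three]
      simp only [Pi.smul_apply, smul_eq_mul, toK, co]
      push_cast
      simp
      ring
    rw [Pi.smul_apply, e1, e2, smul_eq_mul]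
  rw [h1, Finset.sum_apply, List.sum_toFinset _ nodup_Lx0]
  simp only [h2]
  have e0 : (3 : ℝ) * M * x 0 = 3 * (M * x 0) := by ring
  have e1 : (3 : ℝ) * M * x 1 = 3 * (M * x 1) := by ring
  have e2 : (3 : ℝ) * M * x 2 = 3 * (M * x 2) := by ring
  have i01 : (0 : Fin 3) + 1 = 1 := rfl
  have i02 : (0 : Fin 3) + 2 = 2 := rfl
  have i11 : (1 : Fin 3) + 1 = 2 := rfl
  have i12 : (1 : Fin 3) + 2 = 0 := rfl
  have i21 : (2 : Fin 3) + 1 = 0 := rfl
  have i22 : (2 : Fin 3) + 2 = 1 := rfl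
  have s1 : ∀ y : ℝ, Real.sin (-(3 * y)) = -Real.sin (3 * y) := fun y => Real.sin_neg _
  have s2 : ∀ y : ℝ, Real.cos (-(3 * y)) = Real.cos (3 * y) := fun y => Real.cos_neg _
  fin_cases i
  · simp only [Lx, L, List.map_cons, List.map_nil, List.sum_cons, List.sum_nil, f, co,
      Pi.smul_apply, smul_eq_mul, GF, Fin.zero_eta, Fin.isValue, i01, i02, e0, e1, e2]
    generalize (M : ℝ) * x 0 = a
    generalize (M : ℝ) * x 1 = b
    generalize (M : ℝ) * x 2 = c
    norm_num [Real.sin_add, Real.cos_add]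
    ring
  · simp only [Lx, L, List.map_cons, List.map_nil, List.sum_cons, List.sum_nil, f, co,
      Pi.smul_apply, smul_eq_mul, GF, Fin.mk_one, Fin.isValue, i11, i12, e0, e1, e2]
    generalize (M : ℝ) * x 0 = a
    generalize (M : ℝ) * x 1 = b
    generalize (M : ℝ) * x 2 = c
    norm_num [Real.sin_add, Real.cos_add]
    ring
  · simp only [Lx, L, List.map_cons, List.map_nil, List.sum_cons, List.sum_nil, f, co,
      Pi.smul_apply, smul_eq_mul, GF, Fin.reduceFinMk, Fin.isValue, i21, i22, e0, e1, e2]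
    generalize (M : ℝ) * x 0 = a
    generalize (M : ℝ) * x 1 = b
    generalize (M : ℝ) * x 2 = c
    norm_num [Real.sin_add, Real.cos_add]
    ring

end Pool.Agent.R211.SV
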