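import Pool.Agent.R211.SV.Datum

/-!
The Fourier coefficients of the initial datum, and fields near it.
-/

set_option autoImplicit false
set_option linter.unusedSectionVars false

open Set Filter Topology MeasureTheory
open scoped ComplexConjugate ContDiff

namespace Pool.Agent.R211.SV

open Pool.Agent.H708R2.EulerSign (V Periodic3 Dom divergence divergence_eq_sum contDiff_slice sq3
  sq3_nonneg sq3_contDiff dom_meas dom_lt_top)
open Pool.Agent.H708R2.EulerModes
open Pool.Agent.Y302.Trunc
open Pool.Agent.Y302.Tri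

variable {M : ℕ}

lemma GF_eq (hM : 0 < M) (x : V) : GF M x = (1 / 8 : ℝ) • Ef M 0 x := by
  rw [Ef_zero_eq hM, smul_smul]
  norm_num

lemma GF_contDiff (hM : 0 < M) (A : ℝ) : ContDiff ℝ ∞ (fun x => A • GF M x) := by
  simp only [GF_eq hM]
  exact ((Ef_contDiff 0).const_smul _).const_smul A

lemma GF_periodic (hM : 0 < M) (A : ℝ) : Periodic3 (fun x => A • GF M x) := by
  intro i x
  simp only [GF_eq hM]
  rw [Ef_periodic 0 i x]

lemma GF_div (hM : 0 < M) (A : ℝ) (x : V) : divergence (fun x => A • GF M x) x = 0 := by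
  have e : (fun x => A • GF M x) = fun x => (A * (1 / 8)) • Ef M 0 x := by
    funext x
    rw [GF_eq hM, smul_smul]
  have h1 : HasFDerivAt (fun x => (A * (1 / 8)) • Ef M 0 x)
      ((A * (1 / 8)) • fderiv ℝ (Ef M 0) x) x :=
    ((((Ef_contDiff 0).differentiable (by simp)) x).hasFDerivAt).const_smul (A * (1 / 8))
  rw [divergence_eq_sum, e, h1.fderiv]
  simp only [smul_apply, Pi.smul_apply, smul_eq_mul]
  rw [← Finset.mul_sum, div_Ef hM, mul_zero]

lemma GF_odd (A : ℝ) (x : V) : A • GF M (-x) = -(A • GF M x) := by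
  have h := GF_inv (M := M) A (fun _ => -1) 1 (fun _ => Or.inr rfl) x
  have e : ∀ y : V, actV (fun _ => -1) 1 y = -y := by
    intro y
    funext i
    simp [actV]
  rw [e, e] at h
  exact h

/-- The Fourier coefficients of the datum. -/
lemma cv_GF (hM : 0 < M) (A : ℝ) (i : Fin 3) (l : K3) :
    cv (fun x => A • GF M x) i l
      = if l ∈ Lev M 0 then -Complex.I * ((A / 8 : ℝ) : ℂ) * (am M 0 l i : ℂ) else 0 := by
  have hc : Continuous (fun x => (A • GF M x) i) :=
    (continuous_apply i).comp (GF_contDiff hM A).continuous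
  have hp : Periodic3 (fun x => (A • GF M x) i) := comp_periodic (GF_periodic hM A) i
  have h1 := (hasSC_Ef (l := l) hM 0 i).const_mul (A * (1 / 8))
  have h2 : ∫ x in Dom, (A • GF M x) i * Real.sin (ph l x)
      = A * (1 / 8) * (vc * (if l ∈ Lev M 0 then 2 * (am M 0 l i : ℝ) else 0)) := by
    rw [← h1.int]
    congr 1
    funext x
    rw [GF_eq hM, smul_smul]
    rfl
  have e : cv (fun x => A • GF M x) i l = cf (fun x => (A • GF M x) i) l := rfl
  rw [e, cf_eq hp hc, cos_zero hp (fun x => by rw [GF_odd]; rfl), h2]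
  have := vi_vc
  split_ifs with h
  · push_cast at this ⊢
    linear_combination (-Complex.I * ((A : ℂ) / 8) * (am M 0 l i : ℂ)) * this
  · simp

lemma xn_GF (hM : 0 < M) (A : ℝ) (n : ℕ) :
    xn M (fun x => A • GF M x) n = if n = 0 then A / 8 else 0 := by
  unfold xn
  rw [cv_GF hM]
  have h0 := am_l0_zero_ne hM n
  by_cases hn : n = 0
  · subst hn
    rw [if_pos (l0_mem hM 0), if_pos rfl]
    have e : (-Complex.I * ((A / 8 : ℝ) : ℂ) * (am M 0 (l0 M 0) 0 : ℂ)).im
        = -(A / 8) * (am M 0 (l0 M 0) 0 : ℝ) := by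
      have : -Complex.I * ((A / 8 : ℝ) : ℂ) * (am M 0 (l0 M 0) 0 : ℂ)
          = ((-(A / 8) * (am M 0 (l0 M 0) 0 : ℝ) : ℝ) : ℂ) * Complex.I := by
        push_cast; ring
      rw [this, Complex.im_ofReal_mul, Complex.I_im, mul_one]
    rw [e]
    field_simp
  · rw [if_neg fun h => hn (Lev_disjoint hM (l0_mem hM n) h), if_neg hn]
    simp

/-- Exponential summability of finitely supported coefficients. -/
lemma GF_summable (hM : 0 < M) (A ρ : ℝ) (i : Fin 3) :
    Summable fun k => Real.exp (ρ * N1 k) * ‖cv (fun x => A • GF M x) i k‖ := by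
  refine summable_of_ne_finset_zero (s := Lev M 0) fun k hk => ?_
  rw [cv_GF hM, if_neg hk, norm_zero, mul_zero]

lemma abs_GF_le (x : V) (i : Fin 3) : |GF M x i| ≤ 8 := by
  unfold GF
  have b : ∀ a b c : ℝ, |Real.sin a * (Real.cos b * Real.cos c)| ≤ 1 := by
    intro a b c
    rw [abs_mul, abs_mul]
    have h1 := Real.abs_sin_le_one a
    have h2 := Real.abs_cos_le_one b
    have h3 := Real.abs_cos_le_one c
    have h4 : |Real.cos b| * |Real.cos c| ≤ 1 := mul_le_one₀ h2 (abs_nonneg _) h3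
    exact mul_le_one₀ h1 (mul_nonneg (abs_nonneg _) (abs_nonneg _)) h4
  have h1 := abs_le.1 (b (M * x i) (M * x (i + 1)) (3 * M * x (i + 2)))
  have h2 := abs_le.1 (b (M * x i) (3 * M * x (i + 1)) (M * x (i + 2)))
  have h3 := abs_le.1 (b (3 * M * x i) (M * x (i + 1)) (M * x (i + 2)))
  rw [abs_le]
  constructor <;> nlinarith

/-! ### Mean squares -/

/-- The integral of the square. -/
noncomputable def Q2 (v : V → V) : ℝ := ∫ x in Dom, ∑ i, v x i ^ 2

lemma Q2_hasSum {v : V → V} (hc : Continuous v) (hp : Periodic3 v) :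
    HasSum (fun k => ∑ i, ‖cv v i k‖ ^ 2) (vi * Q2 v) := by
  have cw : ∀ i, Continuous (fun x => v x i) := fun i => (continuous_apply i).comp hc
  have pw : ∀ i, Periodic3 (fun x => v x i) := fun i => comp_periodic hp i
  have h1 : ∀ i, HasSum (fun k => ‖cv v i k‖ ^ 2) (vi * ∫ x in Dom, v x i * v x i) := by
    intro i
    have h2 := parseval (pw i) (cw i) (pw i) (cw i)
    have h3 := Complex.hasSum_re h2
    rw [Complex.ofReal_re] at h3
    refine h3.congr_fun fun k => ?_
    rw [← Complex.normSq_eq_conj_mul_self, Complex.ofReal_re, Complex.normSq_eq_norm_sq]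
    rfl
  have h4 := hasSum_sum (s := Finset.univ) fun i _ => h1 i
  have h5 : ∑ i, vi * ∫ x in Dom, v x i * v x i = vi * Q2 v := by
    rw [← Finset.mul_sum]
    congr 1
    unfold Q2
    rw [integral_finsetSum]
    · refine Finset.sum_congr rfl fun i _ => ?_
      congr 1
      funext x
      rw [sq]
    · intro i _
      have h6 : Periodic3 (fun x => v x i ^ 2) := by
        intro j x
        have := pw i j x
        simp only at this
        simp only [this]
      exact h6.integrableOn ((cw i).pow 2)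
  rw [h5] at h4
  exact h4

lemma norm_cv_le {v : V → V} (hc : Continuous v) (hp : Periodic3 v) (i : Fin 3) (k : K3) :
    ‖cv v i k‖ ≤ √(vi * Q2 v) := by
  have h := Q2_hasSum hc hp
  have h1 := h.summable.le_tsum k (fun k _ => Finset.sum_nonneg fun _ _ => sq_nonneg _)
  rw [h.tsum_eq] at h1
  have h2 : ‖cv v i k‖ ^ 2 ≤ ∑ i, ‖cv v i k‖ ^ 2 :=
    Finset.single_le_sum (f := fun i => ‖cv v i k‖ ^ 2) (fun _ _ => sq_nonneg _)
      (Finset.mem_univ i)
  exact Real.le_sqrt_of_sq_le (h2.trans h1)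

lemma vi_le_one : vi ≤ 1 := by
  rw [vi_eq]
  have h1 : (1 : ℝ) ≤ 2 * Real.pi := by linarith [Real.pi_gt_three]
  exact inv_le_one_of_one_le₀ (one_le_pow₀ h1)

lemma vi_vol : vi * (volume (Dom : Set V)).toReal = 1 := by
  rw [volume_Dom, vi_eq]
  have : (2 * Real.pi) ^ 3 ≠ 0 := by positivity
  field_simp

lemma abs_xn_le (hM : 0 < M) {v : V → V} (hc : Continuous v) (hp : Periodic3 v) (n : ℕ) :
    |xn M v n| ≤ √(vi * Q2 v) := by
  unfold xn
  have h9 := am_l0_zero_sq hM n
  have h1 : (1 : ℝ) ≤ |(am M n (l0 M n) 0 : ℝ)| := by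
    rw [← sq_abs] at h9
    nlinarith [abs_nonneg (am M n (l0 M n) 0 : ℝ)]
  rw [abs_div, abs_neg]
  refine (div_le_self (abs_nonneg _) h1).trans ?_
  exact (Complex.abs_im_le_norm _).trans (norm_cv_le hc hp 0 _)

section near

variable {v : V → V} {A δ : ℝ} {α θ C : ℝ} {β : ℕ → ℝ}

lemma Q2_continuous_integrable {w : V → V} (hc : Continuous w) (hp : Periodic3 w) :
    IntegrableOn (fun x => ∑ i, w x i ^ 2) Dom := by
  have h6 : Periodic3 (fun x => ∑ i, w x i ^ 2) := by
    intro j x
    simp only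
    rw [hp j x]
  exact h6.integrableOn (by fun_prop)

/-- The energy of a field near the datum. -/
lemma near_energy (hM : 0 < M) (hc : Continuous v) (hp : Periodic3 v)
    (hδ : ∫ x in Dom, ∑ i, (v x i - A * GF M x i) ^ 2 ≤ δ ^ 2) :
    vi * Q2 v ≤ 2 * δ ^ 2 + 384 * A ^ 2 := by
  have hGc : Continuous (fun x => A • GF M x) := (GF_contDiff hM A).continuous
  have hGp := GF_periodic hM A
  have hwc : Continuous (fun x => v x - A • GF M x) := hc.sub hGc
  have hwp : Periodic3 (fun x => v x - A • GF M x) := by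
    intro j x
    have h2 := hGp j x
    simp only at h2 ⊢
    rw [hp j x, h2]
  have i1 := Q2_continuous_integrable hwc hwp
  have h1 : Q2 v ≤ 2 * (∫ x in Dom, ∑ i, (v x i - A * GF M x i) ^ 2)
      + 384 * A ^ 2 * (volume (Dom : Set V)).toReal := by
    have i2 : IntegrableOn (fun _ : V => 384 * A ^ 2) Dom := integrableOn_const dom_lt_top.ne
    have h2 : Q2 v ≤ ∫ x in Dom, (2 * (∑ i, (v x i - A * GF M x i) ^ 2) + 384 * A ^ 2) := by
      refine setIntegral_mono_on (Q2_continuous_integrable hc hp) ((i1.const_mul 2).add i2)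
        dom_meas fun x _ => ?_
      have h3 : ∀ i, v x i ^ 2 ≤ 2 * (v x i - A * GF M x i) ^ 2 + 128 * A ^ 2 := by
        intro i
        have h4 := abs_le.1 (abs_GF_le (M := M) x i)
        have h5 : (A * GF M x i) ^ 2 ≤ 64 * A ^ 2 := by
          rw [mul_pow]
          have : (GF M x i) ^ 2 ≤ 64 := by nlinarith
          nlinarith [sq_nonneg A]
        nlinarith [sq_nonneg (v x i - 2 * (A * GF M x i))]
      calc ∑ i, v x i ^ 2 ≤ ∑ i, (2 * (v x i - A * GF M x i) ^ 2 + 128 * A ^ 2) :=
            Finset.sum_le_sum fun i _ => h3 i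
        _ = 2 * (∑ i, (v x i - A * GF M x i) ^ 2) + 384 * A ^ 2 := by
            rw [Finset.sum_add_distrib, ← Finset.mul_sum, Finset.sum_const, Finset.card_univ,
              Fintype.card_fin]
            ring
    refine h2.trans (le_of_eq ?_)
    have i1' : IntegrableOn (fun x => 2 * ∑ i, (v x i - A * GF M x i) ^ 2) Dom := i1.const_mul 2
    rw [integral_add i1' i2, integral_const_mul, setIntegral_const, smul_eq_mul]
    rw [measureReal_def]
    ring
  have hv := vi_pos
  have hv1 := vi_le_one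
  have hvv := vi_vol
  have hI : 0 ≤ ∫ x in Dom, ∑ i, (v x i - A * GF M x i) ^ 2 :=
    integral_nonneg fun x => Finset.sum_nonneg fun _ _ => sq_nonneg _
  have h2 := mul_le_mul_of_nonneg_left h1 hv.le
  have h3 : vi * (∫ x in Dom, ∑ i, (v x i - A * GF M x i) ^ 2) ≤ 1 * δ ^ 2 :=
    mul_le_mul hv1 hδ hI zero_le_one
  have h4 : vi * (2 * (∫ x in Dom, ∑ i, (v x i - A * GF M x i) ^ 2)
      + 384 * A ^ 2 * (volume (Dom : Set V)).toReal)
      = 2 * (vi * (∫ x in Dom, ∑ i, (v x i - A * GF M x i) ^ 2)) + 384 * A ^ 2 := by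
    linear_combination (384 * A ^ 2) * hvv
  linarith

/-- The functional of a field near the datum. -/
lemma near_J (hM : 0 < M) (hW : Wts α β θ C) (hc : Continuous v) (hp : Periodic3 v) (hδ0 : 0 ≤ δ)
    (hδ : ∫ x in Dom, ∑ i, (v x i - A * GF M x i) ^ 2 ≤ δ ^ 2) :
    A / 8 - C * δ ≤ Jf β M v := by
  have hGc : Continuous (fun x => A • GF M x) := (GF_contDiff hM A).continuous
  have hGp := GF_periodic hM A
  have hwc : Continuous (fun x => v x - A • GF M x) := hc.sub hGc
  have hwp : Periodic3 (fun x => v x - A • GF M x) := by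
    intro j x
    have h2 := hGp j x
    simp only at h2 ⊢
    rw [hp j x, h2]
  have hQ : vi * Q2 (fun x => v x - A • GF M x) ≤ δ ^ 2 := by
    have hI : 0 ≤ Q2 (fun x => v x - A • GF M x) :=
      integral_nonneg fun x => Finset.sum_nonneg fun _ _ => sq_nonneg _
    calc vi * Q2 (fun x => v x - A • GF M x) ≤ 1 * δ ^ 2 := mul_le_mul vi_le_one hδ hI zero_le_one
      _ = δ ^ 2 := one_mul _
  have hx : ∀ n, |xn M (fun x => v x - A • GF M x) n| ≤ δ := fun n =>
    (abs_xn_le hM hwc hwp n).trans ((Real.sqrt_le_sqrt hQ).trans (Real.sqrt_sq hδ0).le)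
  have hlin : ∀ n, xn M v n = (if n = 0 then A / 8 else 0)
      + xn M (fun x => v x - A • GF M x) n := by
    intro n
    rw [← xn_GF hM A n]
    unfold xn
    have e : cv (fun x => v x - A • GF M x) 0 (l0 M n)
        = cv v 0 (l0 M n) - cv (fun x => A • GF M x) 0 (l0 M n) :=
      cf_sub ((continuous_apply 0).comp hc) ((continuous_apply 0).comp hGc) _
    rw [e, Complex.sub_im]
    ring
  have hs1 : HasSum (fun n => β n * (if n = 0 then A / 8 else 0)) (A / 8) := by
    have := hasSum_ite_eq (0 : ℕ) (A / 8)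
    refine this.congr_fun fun n => ?_
    by_cases h : n = 0
    · subst h; simp [hW.zero]
    · simp [h]
  have hle : ∀ n, ‖β n * xn M (fun x => v x - A • GF M x) n‖ ≤ β n * δ := by
    intro n
    rw [norm_mul, Real.norm_eq_abs, Real.norm_eq_abs, abs_of_pos (hW.pos n)]
    exact mul_le_mul_of_nonneg_left (hx n) (hW.pos n).le
  have hs2 : Summable fun n => β n * xn M (fun x => v x - A • GF M x) n :=
    Summable.of_norm (Summable.of_nonneg_of_le (fun _ => norm_nonneg _) hle (hW.sum.mul_right δ))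
  have h3 : |∑' n, β n * xn M (fun x => v x - A • GF M x) n| ≤ C * δ := by
    have h4 := tsum_of_norm_bounded (hW.sum.hasSum.mul_right δ) hle
    rw [Real.norm_eq_abs] at h4
    exact h4.trans (mul_le_mul_of_nonneg_right hW.tsum_le hδ0)
  have h5 : Jf β M v = A / 8 + ∑' n, β n * xn M (fun x => v x - A • GF M x) n := by
    unfold Jf
    have h6 := hs1.add hs2.hasSum
    rw [← h6.tsum_eq]
    refine tsum_congr fun n => ?_
    rw [hlin n]
    ring
  have h7 := (abs_le.1 h3).1
  linarith

end near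

end Pool.Agent.R211.SV
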