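import Pool.Agent.R211.SV.Quad2

/-!
Time derivatives of Fourier coefficients.
-/

set_option autoImplicit false

open Set Filter Topology MeasureTheory
open scoped ComplexConjugate

namespace Pool.Agent.R211.SV

open Pool.Agent.H708R2.EulerSign (V Periodic3 Dom divergence contDiff_slice dom_bdd dom_meas
  dom_lt_top)
open Pool.Agent.H708R2.EulerModes
open Pool.Agent.Y302.Trunc
open Pool.Agent.Y302.Tri
open Pool.Agent.Y302.KP (Fc gc sr)

variable {T : ℝ} {u : ℝ → V → V} {p : ℝ → V → ℝ}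

lemma derivWithin_eq (hu : Base (Ico 0 T) u p) {t : ℝ} (ht : t ∈ Ioo 0 T) (x : V) (i : Fin 3) :
    HasDerivAt (fun s => u s x i) (fderiv ℝ (fun z : ℝ × V => u z.1 z.2) (t, x) (1, 0) i) t ∧
    derivWithin (fun s => u s x i) (Ico 0 T) t
      = fderiv ℝ (fun z : ℝ × V => u z.1 z.2) (t, x) (1, 0) i := by
  have hmem : Ico 0 T ×ˢ (univ : Set V) ∈ 𝓝 (t, x) :=
    prod_mem_nhds (Ico_mem_nhds ht.1 ht.2) Filter.univ_mem
  have hline : HasDerivAt (fun s : ℝ => ((s, x) : ℝ × V)) (1, 0) t :=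
    (hasDerivAt_id t).prodMk (hasDerivAt_const t x)
  have h3 : DifferentiableAt ℝ (fun z : ℝ × V => u z.1 z.2) (t, x) :=
    (hu.contDiffOn_u.contDiffAt hmem).differentiableAt one_ne_zero
  have h4 := hasDerivAt_pi.1 (h3.hasFDerivAt.comp_hasDerivAt t hline) i
  refine ⟨h4, ?_⟩
  rw [derivWithin_of_mem_nhds (Ico_mem_nhds ht.1 ht.2)]
  exact h4.deriv

lemma hasDerivAt_int (hu : Base (Ico 0 T) u p) {g : V → ℝ} (hg : Continuous g)
    (hg1 : ∀ x, |g x| ≤ 1) {t : ℝ} (ht : t ∈ Ioo 0 T) (i : Fin 3) :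
    HasDerivAt (fun s => ∫ x in Dom, u s x i * g x)
      (∫ x in Dom, derivWithin (fun s => u s x i) (Ico 0 T) t * g x) t := by
  obtain ⟨a, ha1, ha2⟩ := exists_between ht.1
  obtain ⟨b, hb1, hb2⟩ := exists_between ht.2
  have hO : IsOpen (Ioo 0 T ×ˢ (univ : Set V)) := isOpen_Ioo.prod isOpen_univ
  have hS1 : ContDiffOn ℝ 1 (fun z : ℝ × V => u z.1 z.2) (Ioo 0 T ×ˢ univ) :=
    hu.contDiffOn_u.mono (prod_mono Ioo_subset_Ico_self subset_rfl)
  have hd : ContinuousOn (fun z : ℝ × V =>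
      fderiv ℝ (fun z : ℝ × V => u z.1 z.2) z (1, 0)) (Ioo 0 T ×ˢ univ) :=
    (hS1.continuousOn_fderiv_of_isOpen hO le_rfl).clm_apply continuousOn_const
  have hK : IsCompact (Icc a b ×ˢ closure Dom) := isCompact_Icc.prod dom_bdd.isCompact_closure
  have hsub : Icc a b ×ˢ closure Dom ⊆ Ioo 0 T ×ˢ (univ : Set V) :=
    prod_mono (fun s hs => ⟨ha1.trans_le hs.1, hs.2.trans_lt hb2⟩) (subset_univ _)
  obtain ⟨C, hC⟩ := hK.exists_bound_of_continuousOn (hd.mono hsub)
  have hslice : ∀ s ∈ Ioo 0 T, Continuous (fun x => u s x i * g x) := fun s hs =>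
    ((continuous_apply i).comp (contDiff_slice hu.contDiffOn_u ⟨hs.1.le, hs.2⟩).continuous).mul hg
  have hnh : Icc a b ∈ 𝓝 t := Icc_mem_nhds ha2 hb1
  have h1 := (hasDerivAt_integral_of_dominated_loc_of_deriv_le (s := Icc a b)
    (F := fun s x => u s x i * g x)
    (F' := fun s x => fderiv ℝ (fun z : ℝ × V => u z.1 z.2) (s, x) (1, 0) i * g x)
    (bound := fun _ => C) (μ := volume.restrict Dom) hnh ?_ ?_ ?_ ?_ ?_ ?_).2
  · refine h1.congr_deriv ?_
    congr 1
    funext x
    rw [(derivWithin_eq hu ht x i).2]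
  · filter_upwards [Ioo_mem_nhds ht.1 ht.2] with s hs
    exact (hslice s hs).aestronglyMeasurable
  · have hcl : IntegrableOn (fun x => u t x i * g x) (closure Dom) :=
      (hslice t ht).continuousOn.integrableOn_compact dom_bdd.isCompact_closure
    exact hcl.mono_set subset_closure
  · have : Continuous (fun x => fderiv ℝ (fun z : ℝ × V => u z.1 z.2) (t, x) (1, 0) i * g x) := by
      have h := hd.comp_continuous (f := fun x : V => ((t, x) : ℝ × V)) (by fun_prop)
        (fun x => ⟨ht, mem_univ _⟩)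
      exact ((continuous_apply i).comp h).mul hg
    exact this.aestronglyMeasurable
  · refine (ae_restrict_iff' dom_meas).2 (Filter.Eventually.of_forall fun x hx s hs => ?_)
    rw [norm_mul]
    have h2 := hC (s, x) ⟨hs, subset_closure hx⟩
    have h3 := (norm_le_pi_norm _ i).trans h2
    calc _ ≤ C * 1 := mul_le_mul h3 (hg1 x) (abs_nonneg _) ((norm_nonneg _).trans h3)
      _ = C := mul_one C
  · exact integrableOn_const dom_lt_top.ne
  · refine Filter.Eventually.of_forall fun x s hs => ?_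
    exact (derivWithin_eq hu ⟨ha1.trans_le hs.1, hs.2.trans_lt hb2⟩ x i).1.mul_const _

lemma continuousOn_int (hu : Base (Ico 0 T) u p) {g : V → ℝ} (hg : Continuous g)
    (hg1 : ∀ x, |g x| ≤ 1) (i : Fin 3) :
    ContinuousOn (fun s => ∫ x in Dom, u s x i * g x) (Ico 0 T) := by
  intro t ht
  have hS := hu.contDiffOn_u.continuousOn
  obtain ⟨b, hb1, hb2⟩ := exists_between ht.2
  have hK : IsCompact (Icc 0 b ×ˢ closure Dom) := isCompact_Icc.prod dom_bdd.isCompact_closure
  have hsub : Icc 0 b ×ˢ closure Dom ⊆ Ico 0 T ×ˢ (univ : Set V) :=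
    prod_mono (fun s hs => ⟨hs.1, hs.2.trans_lt hb2⟩) (subset_univ _)
  obtain ⟨C, hC⟩ := hK.exists_bound_of_continuousOn (hS.mono hsub)
  have hev : ∀ᶠ s in 𝓝[Ico 0 T] t, s ∈ Icc 0 b := by
    have h1 : ∀ᶠ s in 𝓝[Ico 0 T] t, s < b := nhdsWithin_le_nhds (Iio_mem_nhds hb1)
    filter_upwards [h1, self_mem_nhdsWithin] with s hs1 hs2
    exact ⟨hs2.1, hs1.le⟩
  refine continuousWithinAt_of_dominated (bound := fun _ => C) ?_ ?_ ?_ ?_
  · filter_upwards [hev] with s hs
    exact (((continuous_apply i).comp (contDiff_slice hu.contDiffOn_u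
      ⟨hs.1, hs.2.trans_lt hb2⟩).continuous).mul hg).aestronglyMeasurable
  · filter_upwards [hev] with s hs
    refine (ae_restrict_iff' dom_meas).2 (Filter.Eventually.of_forall fun x hx => ?_)
    rw [norm_mul]
    have h3 := (norm_le_pi_norm _ i).trans (hC (s, x) ⟨hs, subset_closure hx⟩)
    calc _ ≤ C * 1 := mul_le_mul h3 (hg1 x) (abs_nonneg _) ((norm_nonneg _).trans h3)
      _ = C := mul_one C
  · exact integrableOn_const dom_lt_top.ne
  · refine Filter.Eventually.of_forall fun x => ?_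
    have h1 : ContinuousWithinAt (fun z : ℝ × V => u z.1 z.2)
        (Ico 0 T ×ˢ univ) (t, x) := hS (t, x) ⟨ht, mem_univ _⟩
    have h2 := h1.comp (t := Ico 0 T ×ˢ univ) (f := fun s : ℝ => ((s, x) : ℝ × V))
      (by fun_prop) (fun s hs => ⟨hs, mem_univ _⟩)
    exact ((continuous_apply i).continuousAt.comp_continuousWithinAt h2).mul_const _

lemma dtu_continuous (hu : Base (Ico 0 T) u p) {t : ℝ} (ht : t ∈ Ico 0 T) (i : Fin 3) :
    Continuous (fun x => derivWithin (fun s => u s x i) (Ico 0 T) t) := by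
  have h1 := lin_continuous' hu ht i
  have hpt : ContDiff ℝ 1 (p t) := contDiff_slice hu.contDiffOn_p ht
  have h5 : Continuous (fun x => fderiv ℝ (p t) x (Pi.single i 1)) :=
    (hpt.continuous_fderiv one_ne_zero).clm_apply continuous_const
  have h2 : (fun x => derivWithin (fun s => u s x i) (Ico 0 T) t)
      = fun x => lin (Ico 0 T) u p t i x - fderiv ℝ (p t) x (Pi.single i 1) := by
    funext x
    unfold lin
    ring
  rw [h2]
  exact h1.sub h5

lemma dtu_periodic (hu : Base (Ico 0 T) u p) {t : ℝ} (ht : t ∈ Ico 0 T) (i : Fin 3) :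
    Periodic3 (fun x => derivWithin (fun s => u s x i) (Ico 0 T) t) := by
  intro j x
  exact derivWithin_congr (fun s hs => by rw [hu.periodic_u s hs j x])
      (by rw [hu.periodic_u t ht j x])

/-- The time derivative of a Fourier coefficient. -/
theorem hasDerivAt_cv (hu : Base (Ico 0 T) u p) {t : ℝ} (ht : t ∈ Ioo 0 T) (k : K3) (i : Fin 3) :
    HasDerivAt (fun s => cv (u s) i k)
      (cf (fun x => derivWithin (fun s => u s x i) (Ico 0 T) t) k) t := by
  have htI : t ∈ Ico 0 T := ⟨ht.1.le, ht.2⟩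
  have hcos : Continuous fun x => Real.cos (ph k x) :=
    Real.continuous_cos.comp (ph_contDiff k).continuous
  have hsin : Continuous fun x => Real.sin (ph k x) :=
    Real.continuous_sin.comp (ph_contDiff k).continuous
  have h1 := hasDerivAt_int hu hcos (fun x => Real.abs_cos_le_one _) ht i
  have h2 := hasDerivAt_int hu hsin (fun x => Real.abs_sin_le_one _) ht i
  have h3 := ((h1.ofReal_comp).sub ((h2.ofReal_comp).mul_const Complex.I)).const_mul (vi : ℂ)
  rw [cf_eq (dtu_periodic hu htI i) (dtu_continuous hu htI i)]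
  refine h3.congr_of_eventuallyEq ?_
  filter_upwards [Ioo_mem_nhds ht.1 ht.2] with s hs
  have hsI : s ∈ Ico 0 T := ⟨hs.1.le, hs.2⟩
  unfold cv
  rw [cf_eq (comp_periodic (hu.periodic_u s hsI) i)
    ((continuous_apply i).comp (contDiff_slice hu.contDiffOn_u hsI).continuous)]
  rfl

theorem continuousOn_cv (hu : Base (Ico 0 T) u p) (k : K3) (i : Fin 3) :
    ContinuousOn (fun s => cv (u s) i k) (Ico 0 T) := by
  have hcos : Continuous fun x => Real.cos (ph k x) :=
    Real.continuous_cos.comp (ph_contDiff k).continuous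
  have hsin : Continuous fun x => Real.sin (ph k x) :=
    Real.continuous_sin.comp (ph_contDiff k).continuous
  have h1 := continuousOn_int hu hcos (fun x => Real.abs_cos_le_one _) i
  have h2 := continuousOn_int hu hsin (fun x => Real.abs_sin_le_one _) i
  have h3 : ContinuousOn (fun s => (vi : ℂ) * (((∫ x in Dom, u s x i * Real.cos (ph k x) : ℝ) : ℂ)
      - ((∫ x in Dom, u s x i * Real.sin (ph k x) : ℝ) : ℂ) * Complex.I)) (Ico 0 T) :=
    continuousOn_const.mul ((Complex.continuous_ofReal.comp_continuousOn h1).sub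
      ((Complex.continuous_ofReal.comp_continuousOn h2).mul continuousOn_const))
  refine h3.congr fun s hs => ?_
  unfold cv
  rw [cf_eq (comp_periodic (hu.periodic_u s hs) i)
    ((continuous_apply i).comp (contDiff_slice hu.contDiffOn_u hs).continuous)]

/-- A bound for the time derivatives of the Fourier coefficients. -/
theorem cv_deriv_bdd (hu : Base (Ico 0 T) u p) {b : ℝ} (hb : b < T) :
    ∃ C, ∀ t ∈ Ioo 0 b, ∀ k i,
      ‖cf (fun x => derivWithin (fun s => u s x i) (Ico 0 T) t) k‖ ≤ C := by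
  have hU : UniqueDiffOn ℝ (Ico 0 T ×ˢ (univ : Set V)) :=
    (uniqueDiffOn_Ico 0 T).prod uniqueDiffOn_univ
  have hd : ContinuousOn (fun z : ℝ × V =>
      fderivWithin ℝ (fun z : ℝ × V => u z.1 z.2) (Ico 0 T ×ˢ univ) z (1, 0)) (Ico 0 T ×ˢ univ) :=
    (hu.contDiffOn_u.continuousOn_fderivWithin hU le_rfl).clm_apply continuousOn_const
  have hK : IsCompact (Icc 0 b ×ˢ closure Dom) := isCompact_Icc.prod dom_bdd.isCompact_closure
  have hsub : Icc 0 b ×ˢ closure Dom ⊆ Ico 0 T ×ˢ (univ : Set V) :=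
    prod_mono (fun s hs => ⟨hs.1, hs.2.trans_lt hb⟩) (subset_univ _)
  obtain ⟨C, hC⟩ := hK.exists_bound_of_continuousOn (hd.mono hsub)
  have hvi := vi_pos
  refine ⟨vi * (2 * (C * (volume (Dom : Set V)).toReal)), fun t ht k i => ?_⟩
  have htI : t ∈ Ico 0 T := ⟨ht.1.le, ht.2.trans hb⟩
  have htI' : t ∈ Ioo 0 T := ⟨ht.1, ht.2.trans hb⟩
  have hval : ∀ x ∈ Dom, |derivWithin (fun s => u s x i) (Ico 0 T) t| ≤ C := by
    intro x hx
    have h1 := hC (t, x) ⟨⟨ht.1.le, ht.2.le⟩, subset_closure hx⟩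
    have h2 : fderivWithin ℝ (fun z : ℝ × V => u z.1 z.2) (Ico 0 T ×ˢ univ) (t, x)
        = fderiv ℝ (fun z : ℝ × V => u z.1 z.2) (t, x) :=
      fderivWithin_of_mem_nhds (prod_mem_nhds (Ico_mem_nhds htI'.1 htI'.2) Filter.univ_mem)
    rw [h2] at h1
    rw [(derivWithin_eq hu htI' x i).2]
    exact (norm_le_pi_norm _ i).trans h1
  have key : ∀ g : V → ℝ, Continuous g → (∀ x, |g x| ≤ 1) →
      |∫ x in Dom, derivWithin (fun s => u s x i) (Ico 0 T) t * g x|
        ≤ C * (volume (Dom : Set V)).toReal := by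
    intro g hg hg1
    have h1 := norm_setIntegral_le_of_norm_le_const (μ := volume) (s := Dom) (C := C)
      (f := fun x => derivWithin (fun s => u s x i) (Ico 0 T) t * g x) dom_lt_top
      (fun x hx => by
        rw [norm_mul]
        have h3 := hval x hx
        calc _ ≤ C * 1 := mul_le_mul h3 (hg1 x) (abs_nonneg _) ((abs_nonneg _).trans h3)
          _ = C := mul_one C)
    exact h1
  rw [cf_eq (dtu_periodic hu htI i) (dtu_continuous hu htI i), norm_mul, Complex.norm_real,
    Real.norm_eq_abs, abs_of_pos hvi]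
  refine mul_le_mul_of_nonneg_left ?_ hvi.le
  refine (norm_sub_le _ _).trans ?_
  rw [norm_mul, Complex.norm_I, mul_one, Complex.norm_real, Complex.norm_real, Real.norm_eq_abs,
    Real.norm_eq_abs]
  have k1 := key (fun x => Real.cos (ph k x)) (Real.continuous_cos.comp (ph_contDiff k).continuous)
    (fun x => Real.abs_cos_le_one _)
  have k2 := key (fun x => Real.sin (ph k x)) (Real.continuous_sin.comp (ph_contDiff k).continuous)
    (fun x => Real.abs_sin_le_one _)
  linarith

end Pool.Agent.R211.SV
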