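import Pool.Agent.Y302.Tri.Main

/-!
Navier-Stokes equations with a general Fourier multiplier as dissipation: the energy of a
difference of solutions.
-/

set_option autoImplicit false

open Set Filter Topology MeasureTheory
open scoped ComplexConjugate

namespace Pool.Agent.R211.SV

open Pool.Agent.H708R2.EulerSign (V Periodic3 Dom divergence grad sum_mul_clm sum_mul_clm'
  divergence_eq_sum contDiff_slice sq3 sq3_nonneg sq3_eq_zero sq3_contDiff hasFDerivAt_sq3
  quad_bound divergence_smul dom_bdd dom_meas dom_lt_top integral_divergence_eq_zero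
  eq_zero_of_integral_eq_zero continuous_grad)
open Pool.Agent.H708R2.EulerModes
open Pool.Agent.Y302.Trunc (K3)
open Pool.Agent.Y302.Tri

/-- `(u, p)` is a classical solution on `[0, T)` of the Navier-Stokes equations on the torus
`(ℝ / 2πℤ)³`, the dissipation being the Fourier multiplier with the symbol `d`: `u` and `p` are
continuously differentiable in `(t, x)` and `2π`-periodic in `x`, `div u = 0`, and the Fourier
coefficients at `k` of the components of `∂ₜ u + (u · ∇) u + ∇ p` are those of `-d(k) u`. -/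
structure IsSol (d : K3 → ℝ) (T : ℝ) (u : ℝ → V → V) (p : ℝ → V → ℝ) : Prop where
  base : Base (Ico 0 T) u p
  momentum : ∀ t ∈ Ico 0 T, ∀ k i,
    cf (fun x => lin (Ico 0 T) u p t i x + cvt (u t) i x) k = -(d k : ℂ) * cv (u t) i k

variable {d : K3 → ℝ} {T : ℝ} {w u : ℝ → V → V} {q p : ℝ → V → ℝ}

lemma IsSol.mono {T' : ℝ} (hw : IsSol d T w q) (hT' : T' ≤ T) : IsSol d T' w q := by
  refine ⟨hw.base.mono hT', fun t ht k i => ?_⟩
  rw [lin_mono hT' ht]
  exact hw.momentum t ⟨ht.1, ht.2.trans_le hT'⟩ k i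

lemma zero_sol : IsSol d T (fun _ _ => 0) (fun _ _ => 0) := by
  have e : cv (fun _ => (0 : V)) = fun _ _ => 0 := by
    funext i k
    exact cf_zero k
  refine ⟨⟨contDiffOn_const, contDiffOn_const, fun _ _ _ _ => rfl, fun _ _ _ _ => rfl,
    fun t _ x => ?_⟩, fun t _ k i => ?_⟩
  · rw [divergence_eq_sum]
    simp
  · have h1 : (fun x => lin (Ico 0 T) (fun _ _ => (0 : V)) (fun _ _ => (0 : ℝ)) t i x
        + cvt (fun _ => (0 : V)) i x) = fun _ => 0 := by
      funext x
      unfold lin cvt
      simp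
    rw [h1, cf_zero, e]
    simp

lemma cvt_eq (v : V → V) (i : Fin 3) (x : V) : cvt v i x = fderiv ℝ v x (v x) i := by
  unfold cvt
  exact sum_mul_clm _ _ _

section pair

variable (hw : Base (Ico 0 T) w q) (hu : Base (Ico 0 T) u p)

include hw hu

/-- The convection terms in the energy of the difference. -/
lemma conv_diff {t : ℝ} (ht : t ∈ Ico 0 T) :
    ∑ i, 2 * ∫ x in Dom, (w t x i - u t x i) * (cvt (w t) i x - cvt (u t) i x)
      = ∫ x in Dom, ∑ i, 2 * (w t x - u t x) i * fderiv ℝ (u t) x (w t x - u t x) i := by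
  have hwt : ContDiff ℝ 1 (w t) := contDiff_slice hw.contDiffOn_u ht
  have hut : ContDiff ℝ 1 (u t) := contDiff_slice hu.contDiffOn_u ht
  have hwp := hw.periodic_u t ht
  have hup := hu.periodic_u t ht
  have hW : ContDiff ℝ 1 (fun y => w t y - u t y) := hwt.sub hut
  have g1 : ContDiff ℝ 1 (fun y => sq3 (w t y - u t y) • w t y) :=
    (sq3_contDiff.comp hW).smul hwt
  have g1p : Periodic3 (fun y => sq3 (w t y - u t y) • w t y) := by
    intro i x
    simp only
    rw [hwp i x, hup i x]
  set Rm : V → ℝ := fun x => ∑ i, 2 * (w t x - u t x) i * fderiv ℝ (u t) x (w t x - u t x) i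
    with hRm
  have hRc : Continuous Rm := by
    have hf : Continuous (fun x => fderiv ℝ (u t) x (w t x - u t x)) :=
      (hut.continuous_fderiv one_ne_zero).clm_apply hW.continuous
    refine continuous_finsetSum _ fun i _ => ?_
    exact (continuous_const.mul ((continuous_apply i).comp hW.continuous)).mul
      ((continuous_apply i).comp hf)
  have hRp : Periodic3 Rm := by
    intro i x
    simp only [hRm]
    rw [hwp i x, hup i x, hup.fderiv i x]
  set X : Fin 3 → V → ℝ := fun i x => (w t x i - u t x i) * (cvt (w t) i x - cvt (u t) i x)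
    with hX
  have hXp : ∀ i, Periodic3 (X i) := by
    intro i j x
    simp only [hX]
    rw [hwp j x, hup j x, cvt_periodic hwp i j x, cvt_periodic hup i j x]
  have hXc : ∀ i, Continuous (X i) := fun i =>
    (((continuous_apply i).comp hwt.continuous).sub ((continuous_apply i).comp hut.continuous)).mul
      ((cvt_continuous hwt i).sub (cvt_continuous hut i))
  have iX : ∀ i, IntegrableOn (X i) Dom := fun i => (hXp i).integrableOn (hXc i)
  have i1 : IntegrableOn (fun x => divergence (fun y => sq3 (w t y - u t y) • w t y) x) Dom :=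
    g1p.trace.integrableOn (continuous_grad g1).matrix_trace
  have iR : IntegrableOn Rm Dom := hRp.integrableOn hRc
  have hpt : ∀ x, ∑ i, 2 * X i x
      = divergence (fun y => sq3 (w t y - u t y) • w t y) x + Rm x := by
    intro x
    have dw : DifferentiableAt ℝ (w t) x := hwt.differentiable one_ne_zero x
    have du : DifferentiableAt ℝ (u t) x := hut.differentiable one_ne_zero x
    have hSd : HasFDerivAt (fun y => sq3 (w t y - u t y))
        ((∑ i, (2 * (w t x - u t x) i) • (ContinuousLinearMap.proj i : V →L[ℝ] ℝ)) ∘L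
          (fderiv ℝ (w t) x - fderiv ℝ (u t) x)) x :=
      HasFDerivAt.comp (g := sq3) (f := fun y => w t y - u t y) x
        (hasFDerivAt_sq3 (w t x - u t x)) (dw.hasFDerivAt.sub du.hasFDerivAt)
    rw [divergence_smul hSd.differentiableAt dw, hSd.fderiv, hw.div_free t ht]
    have hlin : ∀ i, fderiv ℝ (u t) x (w t x - u t x) i
        = fderiv ℝ (u t) x (w t x) i - fderiv ℝ (u t) x (u t x) i := by
      intro i; rw [map_sub]; rfl
    simp only [hRm, hX, hlin, cvt_eq, ContinuousLinearMap.comp_apply, sum_apply,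
      smul_apply, sub_apply, ContinuousLinearMap.proj_apply,
      Pi.sub_apply, smul_eq_mul, mul_zero, zero_add, Finset.mul_sum,
      ← Finset.sum_sub_distrib, ← Finset.sum_add_distrib]
    refine Finset.sum_congr rfl fun i _ => ?_
    ring
  have e1 : ∑ i, 2 * ∫ x in Dom, X i x = ∫ x in Dom, ∑ i, 2 * X i x := by
    rw [integral_finsetSum _ fun i _ => (iX i).const_mul 2]
    exact Finset.sum_congr rfl fun i _ => (integral_const_mul _ _).symm
  rw [e1]
  simp_rw [hpt]
  rw [integral_add i1 iR, integral_divergence_eq_zero g1 g1p, zero_add]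

end pair

lemma mt_continuous (hw : Base (Ico 0 T) w q) {t : ℝ} (ht : t ∈ Ico 0 T) (i : Fin 3) :
    Continuous (fun x => lin (Ico 0 T) w q t i x + cvt (w t) i x) :=
  (lin_continuous' hw ht i).add (cvt_continuous (contDiff_slice hw.contDiffOn_u ht) i)

lemma mt_periodic (hw : Base (Ico 0 T) w q) {t : ℝ} (ht : t ∈ Ico 0 T) (i : Fin 3) :
    Periodic3 (fun x => lin (Ico 0 T) w q t i x + cvt (w t) i x) := by
  intro j x
  simp only
  rw [lin_periodic hw ht i j x, cvt_periodic (hw.periodic_u t ht) i j x]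

/-- The energy identity for the difference. -/
theorem diss_hasSum (hw : IsSol d T w q) (hu : IsSol d T u p) {t : ℝ} (ht : t ∈ Ioo 0 T) :
    HasSum (fun k => d k * ∑ i, ‖cv (w t) i k - cv (u t) i k‖ ^ 2)
      (-(vi / 2) * ((∫ x in Dom, dS w u t x)
        + ∫ x in Dom, ∑ i, 2 * (w t x - u t x) i * fderiv ℝ (u t) x (w t x - u t x) i)) := by
  have htI : t ∈ Ico 0 T := ⟨ht.1.le, ht.2⟩
  have hwt : ContDiff ℝ 1 (w t) := contDiff_slice hw.base.contDiffOn_u htI
  have hut : ContDiff ℝ 1 (u t) := contDiff_slice hu.base.contDiffOn_u htI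
  have hwp := hw.base.periodic_u t htI
  have hup := hu.base.periodic_u t htI
  have cw : ∀ i, Continuous (fun x => w t x i) := fun i => (continuous_apply i).comp hwt.continuous
  have cu : ∀ i, Continuous (fun x => u t x i) := fun i => (continuous_apply i).comp hut.continuous
  have cA := fun i => mt_continuous hw.base htI i
  have cB := fun i => mt_continuous hu.base htI i
  have pd : ∀ i, Periodic3 (fun x => w t x i - u t x i) := by
    intro i j x
    simp only
    rw [hwp j x, hup j x]
  have pl : ∀ i, Periodic3 (fun x => (lin (Ico 0 T) w q t i x + cvt (w t) i x)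
      - (lin (Ico 0 T) u p t i x + cvt (u t) i x)) := by
    intro i j x
    have h1 := mt_periodic hw.base htI i j x
    have h2 := mt_periodic hu.base htI i j x
    simp only at h1 h2 ⊢
    rw [h1, h2]
  have h1 : ∀ i, HasSum (fun k => d k * ‖cv (w t) i k - cv (u t) i k‖ ^ 2)
      (-(vi * ∫ x in Dom, (w t x i - u t x i) * ((lin (Ico 0 T) w q t i x + cvt (w t) i x)
        - (lin (Ico 0 T) u p t i x + cvt (u t) i x)))) := by
    intro i
    have h2 := parseval (pd i) ((cw i).sub (cu i)) (pl i) ((cA i).sub (cB i))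
    have h3 := (Complex.hasSum_re h2).neg
    rw [Complex.ofReal_re] at h3
    refine h3.congr_fun fun k => ?_
    rw [cf_sub (cw i) (cu i), cf_sub (cA i) (cB i), hw.momentum t htI, hu.momentum t htI]
    have e : conj (cf (fun x => w t x i) k - cf (fun x => u t x i) k)
        * (-(d k : ℂ) * cv (w t) i k - -(d k : ℂ) * cv (u t) i k)
        = -((d k : ℂ) * (conj (cv (w t) i k - cv (u t) i k)
          * (cv (w t) i k - cv (u t) i k))) := by
      unfold cv
      ring
    rw [e, ← Complex.normSq_eq_conj_mul_self, ← Complex.ofReal_mul, Complex.neg_re,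
      Complex.ofReal_re, Complex.normSq_eq_norm_sq, neg_neg]
  have h4 := hasSum_sum (s := Finset.univ) fun i _ => h1 i
  simp only [← Finset.mul_sum] at h4
  have h5 : ∑ i, -(vi * ∫ x in Dom, (w t x i - u t x i)
        * ((lin (Ico 0 T) w q t i x + cvt (w t) i x)
        - (lin (Ico 0 T) u p t i x + cvt (u t) i x)))
      = -(vi / 2) * ((∫ x in Dom, dS w u t x)
        + ∫ x in Dom, ∑ i, 2 * (w t x - u t x) i * fderiv ℝ (u t) x (w t x - u t x) i) := by
    rw [int_dS hw.base hu.base ht, ← conv_diff hw.base hu.base htI, ← Finset.sum_add_distrib,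
      Finset.mul_sum]
    refine Finset.sum_congr rfl fun i _ => ?_
    have iX : IntegrableOn (fun x => (w t x i - u t x i)
        * (lin (Ico 0 T) w q t i x - lin (Ico 0 T) u p t i x)) Dom := by
      refine Periodic3.integrableOn ?_ (((cw i).sub (cu i)).mul
        ((lin_continuous' hw.base htI i).sub (lin_continuous' hu.base htI i)))
      intro j x
      simp only
      rw [hwp j x, hup j x, lin_periodic hw.base htI i j x, lin_periodic hu.base htI i j x]
    have iY : IntegrableOn (fun x => (w t x i - u t x i)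
        * (cvt (w t) i x - cvt (u t) i x)) Dom := by
      refine Periodic3.integrableOn ?_ (((cw i).sub (cu i)).mul
        ((cvt_continuous hwt i).sub (cvt_continuous hut i)))
      intro j x
      simp only
      rw [hwp j x, hup j x, cvt_periodic hwp i j x, cvt_periodic hup i j x]
    have e : ∫ x in Dom, (w t x i - u t x i) * ((lin (Ico 0 T) w q t i x + cvt (w t) i x)
        - (lin (Ico 0 T) u p t i x + cvt (u t) i x))
        = (∫ x in Dom, (w t x i - u t x i)
        * (lin (Ico 0 T) w q t i x - lin (Ico 0 T) u p t i x))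
        + ∫ x in Dom, (w t x i - u t x i) * (cvt (w t) i x - cvt (u t) i x) := by
      rw [← integral_add iX iY]
      congr 1
      funext x
      ring
    rw [e]
    ring
  rw [← h5]
  exact h4

/-- Control of the energy of the difference. -/
theorem en_deriv_le (hd : ∀ k, 0 ≤ d k) (hw : IsSol d T w q) (hu : IsSol d T u p) {K : ℝ}
    {t : ℝ} (ht : t ∈ Ioo 0 T) (hK : ∀ x i j, |grad (u t) x i j| ≤ K) :
    ∫ x in Dom, dS w u t x ≤ 6 * K * en w u t := by
  have htI : t ∈ Ico 0 T := ⟨ht.1.le, ht.2⟩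
  have hwt : ContDiff ℝ 1 (w t) := contDiff_slice hw.base.contDiffOn_u htI
  have hut : ContDiff ℝ 1 (u t) := contDiff_slice hu.base.contDiffOn_u htI
  have hW : ContDiff ℝ 1 (fun y => w t y - u t y) := hwt.sub hut
  have h1 := diss_hasSum hw hu ht
  have h2 : 0 ≤ -(vi / 2) * ((∫ x in Dom, dS w u t x)
        + ∫ x in Dom, ∑ i, 2 * (w t x - u t x) i * fderiv ℝ (u t) x (w t x - u t x) i) := by
    rw [← h1.tsum_eq]
    exact tsum_nonneg fun k => mul_nonneg (hd k) (Finset.sum_nonneg fun i _ => sq_nonneg _)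
  have hvi := vi_pos
  have h3 : (∫ x in Dom, dS w u t x)
        + ∫ x in Dom, ∑ i, 2 * (w t x - u t x) i * fderiv ℝ (u t) x (w t x - u t x) i ≤ 0 := by
    by_contra hcon
    push Not at hcon
    nlinarith
  have hpt : ∀ x, ‖∑ i, 2 * (w t x - u t x) i * fderiv ℝ (u t) x (w t x - u t x) i‖
      ≤ 6 * K * sq3 (w t x - u t x) := fun x =>
    quad_bound (L := fderiv ℝ (u t) x) (fun i j => hK x i j) (w t x - u t x)
  have iS : IntegrableOn (fun x => 6 * K * sq3 (w t x - u t x)) Dom := by
    have : Periodic3 (fun x => sq3 (w t x - u t x)) := by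
      intro i x
      simp only
      rw [hw.base.periodic_u t htI i x, hu.base.periodic_u t htI i x]
    exact (this.integrableOn ((sq3_contDiff (n := 1)).comp hW).continuous).const_mul (6 * K)
  have h4 := norm_integral_le_of_norm_le iS (Filter.Eventually.of_forall hpt)
  rw [integral_const_mul] at h4
  have h5 := (abs_le.1 (Real.norm_eq_abs _ ▸ h4)).1
  unfold en
  linarith

/-- Bounds for the gradient on compact time intervals. -/
lemma grad_bdd (hu : Base (Ico 0 T) u p) {T' : ℝ} (hT' : T' < T) :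
    ∃ K, ∀ t ∈ Ico 0 T', ∀ x i j, |grad (u t) x i j| ≤ K := by
  have hU : UniqueDiffOn ℝ (Ico 0 T ×ˢ (univ : Set V)) :=
    (uniqueDiffOn_Ico 0 T).prod uniqueDiffOn_univ
  have hd : ContinuousOn (fun z : ℝ × V =>
      fderivWithin ℝ (fun z : ℝ × V => u z.1 z.2) (Ico 0 T ×ˢ univ) z) (Ico 0 T ×ˢ univ) :=
    hu.contDiffOn_u.continuousOn_fderivWithin hU le_rfl
  have hK : IsCompact (Icc 0 T' ×ˢ closure Dom) := isCompact_Icc.prod dom_bdd.isCompact_closure
  have hsub : Icc 0 T' ×ˢ closure Dom ⊆ Ico 0 T ×ˢ (univ : Set V) :=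
    prod_mono (fun s hs => ⟨hs.1, hs.2.trans_lt hT'⟩) (subset_univ _)
  obtain ⟨C, hC⟩ := hK.exists_bound_of_continuousOn (hd.mono hsub)
  have key : ∀ t ∈ Ico 0 T', ∀ x ∈ Dom, ∀ i j, |grad (u t) x i j| ≤ C := by
    intro t ht x hx i j
    have htI : t ∈ Ico 0 T := ⟨ht.1, ht.2.trans hT'⟩
    have h3 : HasFDerivWithinAt (fun z : ℝ × V => u z.1 z.2)
        (fderivWithin ℝ (fun z : ℝ × V => u z.1 z.2) (Ico 0 T ×ˢ univ) (t, x))
        (Ico 0 T ×ˢ univ) (t, x) :=
      ((hu.contDiffOn_u.differentiableOn one_ne_zero) (t, x) ⟨htI, mem_univ _⟩).hasFDerivWithinAt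
    have hline : HasFDerivWithinAt (fun y : V => ((t, y) : ℝ × V)) (ContinuousLinearMap.inr ℝ ℝ V)
        univ x := (hasFDerivAt_prodMk_right t x).hasFDerivWithinAt
    have h4 := HasFDerivWithinAt.comp (g := fun z : ℝ × V => u z.1 z.2)
      (f := fun y : V => ((t, y) : ℝ × V)) (s := univ) (t := Ico 0 T ×ˢ (univ : Set V)) x h3 hline
      (fun y _ => ⟨htI, mem_univ _⟩)
    rw [hasFDerivWithinAt_univ] at h4
    have h5 : grad (u t) x i j = fderivWithin ℝ (fun z : ℝ × V => u z.1 z.2) (Ico 0 T ×ˢ univ)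
        (t, x) (0, Pi.single j 1) i := by
      have : grad (u t) x i j = fderiv ℝ (u t) x (Pi.single j 1) i := rfl
      rw [this]
      have h6 : fderiv ℝ (u t) x = _ := h4.fderiv
      rw [h6]
      rfl
    rw [h5]
    have h7 := (fderivWithin ℝ (fun z : ℝ × V => u z.1 z.2) (Ico 0 T ×ˢ univ) (t, x)).le_opNorm
      ((0, Pi.single j 1) : ℝ × V)
    have h8 : ‖((0, Pi.single j 1) : ℝ × V)‖ = 1 := by
      rw [Prod.norm_def]
      simp only [norm_zero]
      rw [Pi.norm_single, norm_one]
      norm_num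
    rw [h8, mul_one] at h7
    exact (norm_le_pi_norm _ i).trans (h7.trans (hC (t, x) ⟨⟨ht.1, ht.2.le⟩, subset_closure hx⟩))
  refine ⟨C, fun t ht x i j => ?_⟩
  have htI : t ∈ Ico 0 T := ⟨ht.1, ht.2.trans hT'⟩
  obtain ⟨g, hg, -⟩ := Pool.Agent.H708R2.EulerSign.dom_exists_unique x
  have h2 : (g +ᵥ x : V) = x + g := by rw [add_comm]; rfl
  have h3 : x + (g : V) ∈ Dom := by rw [← h2]; exact hg
  have h4 := key t ht _ h3 i j
  rwa [((hu.periodic_u t htI).grad).lat g.2] at h4

end Pool.Agent.R211.SV
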