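import Pool.Agent.R211.SV.Loc6

/-!
Maximal smooth solutions.
-/

set_option autoImplicit false
set_option linter.unusedSectionVars false

open Set Filter Topology MeasureTheory
open scoped ContDiff

namespace Pool.Agent.R211.SV

open Pool.Agent.H708R2.EulerSign (V Periodic3 Dom divergence divergence_eq_sum contDiff_slice)
open Pool.Agent.Y302.Trunc (K3)
open Pool.Agent.Y302.Tri

variable {d : K3 → ℝ} {T : ℝ} {w u : ℝ → V → V} {q p : ℝ → V → ℝ}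

lemma lin_congr (hu : ∀ t ∈ Ico 0 T, w t = u t) (hp : ∀ t ∈ Ico 0 T, q t = p t) {t : ℝ}
    (ht : t ∈ Ico 0 T) (i : Fin 3) (x : V) :
    lin (Ico 0 T) w q t i x = lin (Ico 0 T) u p t i x := by
  unfold lin
  rw [hp t ht]
  congr 1
  refine derivWithin_congr (fun s hs => ?_) ?_
  · rw [hu s hs]
  · rw [hu t ht]

lemma IsSol.congr (h : IsSol d T u p) (hu : ∀ t ∈ Ico 0 T, w t = u t)
    (hp : ∀ t ∈ Ico 0 T, q t = p t) : IsSol d T w q := by
  refine ⟨⟨h.base.contDiffOn_u.congr fun z hz => ?_, h.base.contDiffOn_p.congr fun z hz => ?_,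
    fun t ht => ?_, fun t ht => ?_, fun t ht x => ?_⟩, fun t ht k i => ?_⟩
  · rw [hu z.1 hz.1]
  · rw [hp z.1 hz.1]
  · rw [hu t ht]; exact h.base.periodic_u t ht
  · rw [hp t ht]; exact h.base.periodic_p t ht
  · rw [hu t ht]; exact h.base.div_free t ht x
  · have := h.momentum t ht k i
    simp only [lin_congr hu hp ht]
    rw [hu t ht]
    exact this

lemma IsSmoothSol.congr (h : IsSmoothSol d T u p) (hu : ∀ t ∈ Ico 0 T, w t = u t)
    (hp : ∀ t ∈ Ico 0 T, q t = p t) : IsSmoothSol d T w q := by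
  refine ⟨h.sol.congr hu hp, h.smooth_u.congr fun z hz => ?_, h.smooth_p.congr fun z hz => ?_⟩
  · rw [hu z.1 hz.1]
  · rw [hp z.1 hz.1]

lemma IsSmoothSol.mono {T' : ℝ} (h : IsSmoothSol d T u p) (hT' : T' ≤ T) :
    IsSmoothSol d T' u p := by
  have hsub : (Ico 0 T' ×ˢ univ : Set (ℝ × V)) ⊆ Ico 0 T ×ˢ univ :=
    prod_mono (Ico_subset_Ico_right hT') subset_rfl
  exact ⟨h.sol.mono hT', h.smooth_u.mono hsub, h.smooth_p.mono hsub⟩

/-- Normalisation of the pressure. -/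
def nrm (p : ℝ → V → ℝ) (t : ℝ) (x : V) : ℝ := p t x - p t 0

lemma contDiffOn_nrm {n : WithTop ℕ∞}
    (h : ContDiffOn ℝ n (fun z : ℝ × V => p z.1 z.2) (Ico 0 T ×ˢ univ)) :
    ContDiffOn ℝ n (fun z : ℝ × V => nrm p z.1 z.2) (Ico 0 T ×ˢ univ) := by
  have h1 : ContDiffOn ℝ n (fun z : ℝ × V => p z.1 0) (Ico 0 T ×ˢ univ) :=
    h.comp (f := fun z : ℝ × V => ((z.1, (0 : V)) : ℝ × V))
      (contDiff_fst.prodMk contDiff_const).contDiffOn fun z hz => ⟨hz.1, mem_univ _⟩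
  exact h.sub h1

lemma IsSol.nrm (h : IsSol d T u p) : IsSol d T u (nrm p) := by
  refine ⟨⟨h.base.contDiffOn_u, contDiffOn_nrm h.base.contDiffOn_p, h.base.periodic_u,
    fun t ht j x => ?_, h.base.div_free⟩, fun t ht k i => ?_⟩
  · unfold SV.nrm
    rw [h.base.periodic_p t ht j x]
  · rw [← h.momentum t ht k i]
    congr 1
    funext x
    congr 1
    unfold lin
    congr 1
    have e : (SV.nrm p t) = fun x => p t x - p t 0 := rfl
    rw [e, fderiv_sub_const]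

lemma IsSmoothSol.nrm (h : IsSmoothSol d T u p) : IsSmoothSol d T u (nrm p) :=
  ⟨h.sol.nrm, h.smooth_u, contDiffOn_nrm h.smooth_p⟩

/-- Solutions on all smaller intervals give a solution. -/
lemma contDiffOn_of_lt {F : Type*} [NormedAddCommGroup F] [NormedSpace ℝ F] {f : ℝ × V → F}
    {n : WithTop ℕ∞} (h : ∀ T' < T, ContDiffOn ℝ n f (Ico 0 T' ×ˢ univ)) :
    ContDiffOn ℝ n f (Ico 0 T ×ˢ univ) := by
  intro z hz
  obtain ⟨T', h1, h2⟩ := exists_between hz.1.2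
  have h3 := h T' h2 z ⟨⟨hz.1.1, h1⟩, hz.2⟩
  refine h3.mono_of_mem_nhdsWithin ?_
  have h4 : (Iio T' ×ˢ univ : Set (ℝ × V)) ∈ 𝓝 z := (isOpen_Iio.prod isOpen_univ).mem_nhds
    ⟨h1, mem_univ _⟩
  filter_upwards [mem_nhdsWithin_of_mem_nhds h4, self_mem_nhdsWithin] with y hy1 hy2
  exact ⟨⟨hy2.1.1, hy1.1⟩, mem_univ _⟩

lemma IsSol.of_lt (h : ∀ T' < T, IsSol d T' u p) : IsSol d T u p := by
  have hex : ∀ t ∈ Ico 0 T, ∃ T' < T, t ∈ Ico 0 T' := fun t ht => by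
    obtain ⟨T', h1, h2⟩ := exists_between ht.2
    exact ⟨T', h2, ht.1, h1⟩
  refine ⟨⟨contDiffOn_of_lt fun T' hT' => (h T' hT').base.contDiffOn_u,
    contDiffOn_of_lt fun T' hT' => (h T' hT').base.contDiffOn_p, fun t ht => ?_, fun t ht => ?_,
    fun t ht => ?_⟩, fun t ht k i => ?_⟩
  · obtain ⟨T', h1, h2⟩ := hex t ht
    exact (h T' h1).base.periodic_u t h2
  · obtain ⟨T', h1, h2⟩ := hex t ht
    exact (h T' h1).base.periodic_p t h2
  · obtain ⟨T', h1, h2⟩ := hex t ht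
    exact (h T' h1).base.div_free t h2
  · obtain ⟨T', h1, h2⟩ := hex t ht
    rw [← (h T' h1).momentum t h2 k i]
    congr 1
    funext x
    rw [lin_mono h1.le h2]

lemma IsSmoothSol.of_lt (h : ∀ T' < T, IsSmoothSol d T' u p) : IsSmoothSol d T u p :=
  ⟨IsSol.of_lt fun T' hT' => (h T' hT').sol, contDiffOn_of_lt fun T' hT' => (h T' hT').smooth_u,
    contDiffOn_of_lt fun T' hT' => (h T' hT').smooth_p⟩

/-- The maximal smooth solution. -/
theorem exists_maximal (hd : ∀ k, 0 ≤ d k) {v : V → V} {B : ℝ}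
    (hB : ∀ T u p, 0 < T → IsSmoothSol d T u p → u 0 = v → T ≤ B)
    (hloc : ∃ τ, 0 < τ ∧ ∃ u p, IsSmoothSol d τ u p ∧ u 0 = v) :
    ∃ (Ts : ℝ) (u : ℝ → V → V) (p : ℝ → V → ℝ), 0 < Ts ∧ Ts ≤ B ∧ IsSmoothSol d Ts u p ∧
      u 0 = v ∧ ∀ T w q, 0 < T → IsSmoothSol d T w q → w 0 = v → T ≤ Ts := by
  set 𝒯 : Set ℝ := {T | 0 < T ∧ ∃ u p, IsSmoothSol d T u p ∧ u 0 = v} with h𝒯
  have hne : 𝒯.Nonempty := by
    obtain ⟨τ, h1, u, p, h2, h3⟩ := hloc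
    exact ⟨τ, h1, u, p, h2, h3⟩
  have hbdd : BddAbove 𝒯 := ⟨B, fun T hT => by
    obtain ⟨h1, u, p, h2, h3⟩ := hT
    exact hB T u p h1 h2 h3⟩
  have hex : ∀ t < sSup 𝒯, ∃ T ∈ 𝒯, t < T := fun t ht => exists_lt_of_lt_csSup hne ht
  have hsol : ∀ t : ℝ, ∃ T u p, t < sSup 𝒯 → (t < T ∧ 0 < T ∧ IsSmoothSol d T u p ∧ u 0 = v) := by
    intro t
    by_cases ht : t < sSup 𝒯
    · obtain ⟨T, ⟨h1, u, p, h2, h3⟩, h4⟩ := hex t ht
      exact ⟨T, u, p, fun _ => ⟨h4, h1, h2, h3⟩⟩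
    · exact ⟨0, fun _ _ => 0, fun _ _ => 0, fun h => absurd h ht⟩
  choose S U P hS using hsol
  set u : ℝ → V → V := fun t => U t t with hu
  set p : ℝ → V → ℝ := fun t => nrm (P t) t with hp
  have hTs0 : 0 < sSup 𝒯 := by
    obtain ⟨T, hT⟩ := hne
    exact hT.1.trans_le (le_csSup hbdd hT)
  have hkey : ∀ T ∈ 𝒯, ∀ w q, IsSmoothSol d T w q → w 0 = v →
      (∀ t ∈ Ico 0 T, u t = w t) ∧ ∀ t ∈ Ico 0 T, p t = nrm q t := by
    intro T hT w q hw hw0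
    have hTle : T ≤ sSup 𝒯 := le_csSup hbdd hT
    have h1 : ∀ t ∈ Ico 0 T, u t = w t ∧ p t = nrm q t := by
      intro t ht
      obtain ⟨k1, k2, k3, k4⟩ := hS t (ht.2.trans_le hTle)
      have hm1 : IsSol d (min T (S t)) w q := hw.sol.mono (min_le_left _ _)
      have hm2 : IsSol d (min T (S t)) (U t) (P t) := k3.sol.mono (min_le_right _ _)
      have hmt : t ∈ Ico 0 (min T (S t)) := ⟨ht.1, lt_min ht.2 k1⟩
      refine ⟨unique hd hm2 hm1 (k4.trans hw0.symm) t hmt, ?_⟩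
      funext x
      exact pressure_sub hd hm2 hm1 (k4.trans hw0.symm) hmt x
    exact ⟨fun t ht => (h1 t ht).1, fun t ht => (h1 t ht).2⟩
  have hu0 : u 0 = v := (hS 0 hTs0).2.2.2
  refine ⟨sSup 𝒯, u, p, hTs0, csSup_le hne fun T hT => ?_, IsSmoothSol.of_lt fun T' hT' => ?_,
    hu0, fun T w q h1 h2 h3 => le_csSup hbdd ⟨h1, w, q, h2, h3⟩⟩
  · obtain ⟨h1, u, p, h2, h3⟩ := hT
    exact hB T u p h1 h2 h3
  · obtain ⟨T, hT, h4⟩ := hex T' hT'
    obtain ⟨h1, w, q, h2, h3⟩ := id hT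
    obtain ⟨k1, k2⟩ := hkey T hT w q h2 h3
    exact (h2.nrm.congr k1 k2).mono h4.le

end Pool.Agent.R211.SV
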