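import Pool.Agent.R211.SV.Datum2
import Pool.Agent.R211.SV.Max

/-!
The main theorem.
-/

set_option autoImplicit false
set_option linter.unusedSectionVars false

open Set Filter Topology MeasureTheory
open scoped ComplexConjugate ContDiff

namespace Pool.Agent.R211.SV

open Pool.Agent.H708R2.EulerSign (V Periodic3 Dom divergence divergence_eq_sum contDiff_slice sq3
  sq3_nonneg sq3_contDiff dom_meas dom_lt_top)
open Pool.Agent.H708R2.EulerModes
open Pool.Agent.Y302.Trunc (K3)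
open Pool.Agent.Y302.Tri

/-- A real-analytic field: exponential decay of the Fourier coefficients. -/
def ExpDecay (v : V → V) : Prop :=
  ∃ ρ > 0, ∀ i, Summable fun k => Real.exp (ρ * N1 k) * ‖cv v i k‖

/-- The hypotheses on the symbol of the dissipation. -/
structure Symb (M : ℕ) (ν κ α : ℝ) (d : K3 → ℝ) : Prop where
  nonneg : ∀ k, 0 ≤ d k
  inv : InvSymbol d
  off : ∀ k ∉ SF M, ν * ∑ i, (k i : ℝ) ^ 2 ≤ d k
  on : ∀ k ∈ SF M, d k ≤ κ * (∑ i, (k i : ℝ) ^ 2) ^ α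

lemma InvSymbol.neg {d : K3 → ℝ} (h : InvSymbol d) (k : K3) : d (-k) = d k := by
  have h1 := h (fun _ => -1) 1 (fun _ => Or.inr rfl) k
  have e1 : actK (fun _ => -1) 1 k = -k := by
    funext p
    simp [actK]
  rwa [e1] at h1

theorem main {α : ℝ} (hα0 : 0 ≤ α) (hα : α < 1 / 3) : ∃ ε : ℝ, 0 < ε ∧
    ∀ (M : ℕ) (ν κ A : ℝ) (d : K3 → ℝ), 0 < M → 0 < ν → 0 ≤ κ → 0 < A →
      κ * (M : ℝ) ^ (2 * α) ≤ ε * M * A → A ≤ ε * ν * M → Symb M ν κ α d →
      (∀ (T : ℝ) (u : ℝ → V → V) (p : ℝ → V → ℝ), IsSol d T u p → InvField (u 0) →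
        ∫ x in Dom, ∑ i, (u 0 x i - A * GF M x i) ^ 2 ≤ (ε * A) ^ 2 → T ≤ 1 / (ε * M * A)) ∧
      (Subexp d → ∀ v : V → V, ContDiff ℝ 1 v → Periodic3 v → (∀ x, divergence v x = 0) →
        InvField v → ExpDecay v → ∫ x in Dom, ∑ i, (v x i - A * GF M x i) ^ 2 ≤ (ε * A) ^ 2 →
        ∃ (Ts : ℝ) (u : ℝ → V → V) (p : ℝ → V → ℝ), 0 < Ts ∧ Ts ≤ 1 / (ε * M * A) ∧
          IsSmoothSol d Ts u p ∧ u 0 = v ∧
          (∀ (T : ℝ) (w : ℝ → V → V) (q : ℝ → V → ℝ), IsSmoothSol d T w q → w 0 = v → T ≤ Ts) ∧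
          ∀ (T : ℝ) (w : ℝ → V → V) (q : ℝ → V → ℝ), IsSol d T w q → w 0 = v →
            ∀ t ∈ Ico 0 T, t < Ts → w t = u t) := by
  obtain ⟨β, θ, C, hW⟩ := exists_wts hα0 hα
  have hθ1 : 0 < 1 - θ := by linarith [hW.th1]
  have hC0 := hW.C0
  set c1 : ℝ := 8 * (4 * C / (1 - θ)) * (1 / (2 * (1 - θ)) * C) with hc1
  set c2 : ℝ := (8 * (4000 * C * (4 * C / (1 - θ)) + 2000 * C)) ^ 2 with hc2
  have hc1p : 0 < c1 := by positivity
  have hc2p : 0 ≤ c2 := sq_nonneg _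
  set K : ℝ := 1 + 16 * C + 256 * c1 + 160000 * 4096 * c2 + 64 * C / (1 - θ) with hK
  have hK1 : 1 ≤ K := by
    have : 0 ≤ 16 * C + 256 * c1 + 160000 * 4096 * c2 + 64 * C / (1 - θ) := by positivity
    linarith
  have hKp : 0 < K := by linarith
  have k1 : 16 * C ≤ K := by
    have : 0 ≤ 256 * c1 + 160000 * 4096 * c2 + 64 * C / (1 - θ) := by positivity
    linarith
  have k2 : 256 * c1 ≤ K := by
    have : 0 ≤ 16 * C + 160000 * 4096 * c2 + 64 * C / (1 - θ) := by positivity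
    linarith
  have k3 : 160000 * 4096 * c2 ≤ K := by
    have : 0 ≤ 16 * C + 256 * c1 + 64 * C / (1 - θ) := by positivity
    linarith
  have k4 : 64 * C / (1 - θ) ≤ K := by
    have : 0 ≤ 16 * C + 256 * c1 + 160000 * 4096 * c2 := by positivity
    linarith
  refine ⟨1 / K, by positivity, fun M ν κ A d hM hν hκ hA hcκ hcA hS => ?_⟩
  have hM' : (0 : ℝ) < M := by exact_mod_cast hM
  set ε : ℝ := 1 / K with hε
  have hεp : 0 < ε := by positivity
  have hε1 : ε ≤ 1 := by rw [hε, div_le_one hKp]; exact hK1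
  have hεK : ε * K = 1 := by rw [hε]; field_simp
  have e1 : C * ε ≤ 1 / 16 := by nlinarith
  have e2 : c1 * ε ≤ 1 / 256 := by nlinarith
  have e3 : c2 * ε * (160000 * 4096) ≤ 1 := by nlinarith
  have e4 : 64 * C / (1 - θ) * ε ≤ 1 := by nlinarith
  have hdν : ∀ k ∉ Pool.Agent.Y302.Trunc.Cset M, ν * ∑ i, (k i : ℝ) ^ 2 ≤ d k := by
    intro k hk
    rw [← SF_eq hM] at hk
    exact hS.off k hk
  have hdκ : ∀ k ∈ Pool.Agent.Y302.Trunc.Cset M, d k ≤ κ * (∑ i, (k i : ℝ) ^ 2) ^ α := by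
    intro k hk
    rw [← SF_eq hM] at hk
    exact hS.on k hk
  have hmain : ∀ (T : ℝ) (u : ℝ → V → V) (p : ℝ → V → ℝ), IsSol d T u p → InvField (u 0) →
      ∫ x in Dom, ∑ i, (u 0 x i - A * GF M x i) ^ 2 ≤ (ε * A) ^ 2 → T ≤ 1 / (ε * M * A) := by
    intro T u p hu h0 hcl
    rcases le_or_gt T 0 with hT | hT
    · exact hT.trans (by positivity)
    have h0T : (0 : ℝ) ∈ Ico 0 T := ⟨le_rfl, hT⟩
    have hc : Continuous (u 0) := (contDiff_slice hu.base.contDiffOn_u h0T).continuous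
    have hp := hu.base.periodic_u 0 h0T
    have hE := near_energy hM hc hp hcl
    have hJ := near_J hM hW hc hp (by positivity : 0 ≤ ε * A) hcl
    have hJ' : A / 16 ≤ Jf β M (u 0) := by
      have : C * (ε * A) ≤ 1 / 16 * A := by
        rw [← mul_assoc]
        exact mul_le_mul_of_nonneg_right e1 hA.le
      linarith
    have hE' : Ey u 0 ≤ 400 * A ^ 2 := by
      have h1 : Ey u 0 = vi * Q2 (u 0) := by
        unfold Ey en Q2 sq3 zf
        simp
      rw [h1]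
      have h2 : (ε * A) ^ 2 ≤ A ^ 2 := by
        rw [mul_pow]
        have : ε ^ 2 ≤ 1 := pow_le_one₀ hεp.le hε1
        nlinarith [sq_nonneg A]
      nlinarith
    have hlife := lifespan hM hS.nonneg hS.inv hu h0 hW hν hdν hdκ (J0 := A / 16)
      (E0 := 400 * A ^ 2) (by positivity) hJ' hE' ?_ ?_
    · refine hlife.trans ?_
      have h3 : 4 * C / (1 - θ) / (M * (A / 16)) = (64 * C / (1 - θ)) / (M * A) := by
        field_simp
        norm_num
      rw [h3, div_le_div_iff₀ (by positivity) (by positivity)]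
      have h4 : 0 < M * A := by positivity
      nlinarith
    · -- the smallness of the dissipation on the chain
      have h5 : κ * ((M : ℝ) ^ 2) ^ α ≤ ε * M * A := by
        rw [← Real.rpow_natCast, ← Real.rpow_mul hM'.le]
        exact_mod_cast hcκ
      have h6 : 0 ≤ κ * ((M : ℝ) ^ 2) ^ α := by positivity
      have h7 : (κ * ((M : ℝ) ^ 2) ^ α) ^ 2 ≤ (ε * M * A) ^ 2 := pow_le_pow_left₀ h6 h5 2
      calc c1 * (κ * ((M : ℝ) ^ 2) ^ α) ^ 2 ≤ c1 * (ε * M * A) ^ 2 :=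
            mul_le_mul_of_nonneg_left h7 hc1p.le
        _ = (c1 * ε) * ε * (M * A) ^ 2 := by ring
        _ ≤ (1 / 256) * 1 * (M * A) ^ 2 := by
            refine mul_le_mul_of_nonneg_right ?_ (sq_nonneg _)
            exact mul_le_mul e2 hε1 hεp.le (by norm_num)
        _ = (M * (A / 16)) ^ 2 := by ring
    · -- the smallness of the amplitude
      calc c2 * (400 * A ^ 2) ^ 2 = (c2 * 160000) * A ^ 3 * A := by ring
        _ ≤ (c2 * 160000) * A ^ 3 * (ε * ν * M) :=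
            mul_le_mul_of_nonneg_left hcA (by positivity)
        _ = (c2 * ε * (160000 * 4096)) * (ν * M * (A / 16) ^ 3) := by ring
        _ ≤ 1 * (ν * M * (A / 16) ^ 3) := mul_le_mul_of_nonneg_right e3 (by positivity)
        _ = ν * M * (A / 16) ^ 3 := one_mul _
  refine ⟨hmain, fun hs v hv hp hdiv hinv hexp hcl => ?_⟩
  obtain ⟨ρ, hρ, hsum⟩ := hexp
  obtain ⟨τ, hτ, u₁, p₁, hu₁, hu₁0⟩ := local_existence hS.nonneg hS.inv.neg hs hv hp hdiv hρ hsum
  obtain ⟨Ts, u, p, h1, h2, h3, h4, h5⟩ := exists_maximal hS.nonneg (v := v)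
    (B := 1 / (ε * M * A)) (fun T u p _ hu hu0 => by
      refine hmain T u p hu.sol (by rw [hu0]; exact hinv) ?_
      rw [hu0]
      exact hcl) ⟨τ, hτ, u₁, p₁, hu₁, hu₁0⟩
  refine ⟨Ts, u, p, h1, h2, h3, h4, fun T w q hw hw0 => ?_, fun T w q hw hw0 t ht htT => ?_⟩
  · rcases le_or_gt T 0 with hT | hT
    · exact hT.trans h1.le
    · exact h5 T w q hT hw hw0
  · exact unique hS.nonneg (hw.mono (min_le_left T Ts)) (h3.sol.mono (min_le_right T Ts))
      (hw0.trans h4.symm) t ⟨ht.1, lt_min ht.2 htT⟩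

/-- The datum satisfies the hypotheses. -/
theorem datum_ok {M : ℕ} (hM : 0 < M) (A : ℝ) :
    ContDiff ℝ 1 (fun x => A • GF M x) ∧ Periodic3 (fun x => A • GF M x) ∧
    (∀ x, divergence (fun x => A • GF M x) x = 0) ∧ InvField (fun x => A • GF M x) ∧
    ExpDecay (fun x => A • GF M x) :=
  ⟨(GF_contDiff hM A).of_le (by exact_mod_cast le_top), GF_periodic hM A, GF_div hM A, GF_inv A,
    1, one_pos, fun i => GF_summable hM A 1 i⟩

end Pool.Agent.R211.SV
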