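import Pool.Agent.R211.SV.Wt

/-!
The functional: estimates at a fixed time.
-/

set_option autoImplicit false

open Set Filter Topology MeasureTheory
open scoped ComplexConjugate

namespace Pool.Agent.R211.SV

open Pool.Agent.H708R2.EulerSign (V Periodic3 Dom divergence contDiff_slice dom_bdd dom_meas
  dom_lt_top)
open Pool.Agent.H708R2.EulerModes
open Pool.Agent.Y302.Trunc
open Pool.Agent.Y302.Tri
open Pool.Agent.Y302.KP (Fc gc sr)

variable {M : ℕ} {v : V → V} {α θ C : ℝ} {β : ℕ → ℝ}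

lemma l0_inj (hM : 0 < M) : Function.Injective (l0 M) := by
  intro n m h
  refine Lev_disjoint hM (l0_mem hM n) ?_
  rw [h]
  exact l0_mem hM m

lemma l0_sq_ge (hM : 0 < M) (n : ℕ) : (M : ℝ) * 8 ^ (n / 4) ≤ ∑ i, (l0 M n i : ℝ) ^ 2 := by
  obtain ⟨i, hi⟩ := Lev_low hM (l0_mem hM n)
  have hs := sg_pos hM n
  have h1 : sg M n ≤ (l0 M n i) ^ 2 := by
    have h2 : sg M n ≤ |l0 M n i| := by linarith
    have h3 : sg M n ^ 2 ≤ |l0 M n i| ^ 2 := pow_le_pow_left₀ hs.le h2 2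
    rw [sq_abs] at h3
    nlinarith
  have h2 : ((sg M n : ℤ) : ℝ) ≤ (l0 M n i : ℝ) ^ 2 := by exact_mod_cast h1
  have h3 : (l0 M n i : ℝ) ^ 2 ≤ ∑ i, (l0 M n i : ℝ) ^ 2 :=
    Finset.single_le_sum (f := fun i => (l0 M n i : ℝ) ^ 2) (fun _ _ => sq_nonneg _)
      (Finset.mem_univ i)
  have h4 : ((sg M n : ℤ) : ℝ) = (M : ℝ) * 8 ^ (n / 4) := by
    unfold sg
    push_cast
    rfl
  linarith

lemma xn_sq (hM : 0 < M) (hv1 : ContDiff ℝ 1 v) (hp : Periodic3 v)
    (hd : ∀ x, divergence v x = 0) (hv : InvField v) (n : ℕ) :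
    9 * xn M v n ^ 2 ≤ ∑ i, ‖cv v i (l0 M n)‖ ^ 2 := by
  have h1 : ‖cv v 0 (l0 M n)‖ ^ 2 = 9 * xn M v n ^ 2 := by
    rw [cv_l0 hM hv1 hp hd hv, norm_mul, norm_mul, norm_neg, Complex.norm_I, one_mul,
      Complex.norm_real, Real.norm_eq_abs, Complex.norm_intCast, mul_pow, sq_abs, sq_abs,
      am_l0_zero_sq hM]
    ring
  rw [← h1]
  exact Finset.single_le_sum (f := fun i => ‖cv v i (l0 M n)‖ ^ 2) (fun _ _ => sq_nonneg _)
    (Finset.mem_univ 0)

/-- The amplitudes are square summable with weights. -/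
lemma xn_summable (hM : 0 < M) (hv1 : ContDiff ℝ 1 v) (hp : Periodic3 v)
    (hd : ∀ x, divergence v x = 0) (hv : InvField v) :
    Summable fun n => (M * 8 ^ (n / 4) : ℝ) * xn M v n ^ 2 := by
  have h1 := (summable_k2 hv1 hp).comp_injective (l0_inj hM)
  refine Summable.of_nonneg_of_le (fun n => by positivity) (fun n => ?_) h1
  have h2 := l0_sq_ge hM n
  have h3 := xn_sq hM hv1 hp hd hv n
  have h4 : 0 ≤ xn M v n ^ 2 := sq_nonneg _
  have h5 : (0 : ℝ) ≤ M * 8 ^ (n / 4) := by positivity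
  show (M * 8 ^ (n / 4) : ℝ) * xn M v n ^ 2
    ≤ (∑ j, (l0 M n j : ℝ) ^ 2) * ∑ i, ‖cv v i (l0 M n)‖ ^ 2
  exact mul_le_mul h2 (by linarith) h4 (h5.trans h2)

/-- The coefficients `aₙ = βₙ₊₁ Fₙ₊₁`. -/
noncomputable def ac (β : ℕ → ℝ) (M n : ℕ) : ℝ := β (n + 1) * Fc M (n + 1)

lemma ac_pos (hβ : ∀ n, 0 < β n) (hM : 0 < M) (n : ℕ) : 0 < ac β M n := by
  unfold ac
  have hM' : (0 : ℝ) < M := by exact_mod_cast hM
  exact mul_pos (hβ _) (lt_of_lt_of_le (by positivity) (Fc_bounds n).1)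

/-- The quadratic form. -/
theorem quad_form (hW : Wts α β θ C) (hM : 0 < M) {X : ℕ → ℝ}
    (hX : Summable fun n => (M * 8 ^ (n / 4) : ℝ) * X n ^ 2) :
    Summable (fun n => ac β M n * X n ^ 2) ∧
    Summable (fun n => β n * gc M n * (X n * X (n + 1))) ∧
    ∑' n, β n * gc M n * (X n * X (n + 1)) ≤ θ * ∑' n, ac β M n * X n ^ 2 := by
  have hap := ac_pos hW.pos hM
  have h1 : Summable (fun n => ac β M n * X n ^ 2) := by
    refine Summable.of_nonneg_of_le (fun n => mul_nonneg (hap n).le (sq_nonneg _)) (fun n => ?_)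
      (hX.mul_left C)
    have := mul_le_mul_of_nonneg_right (hW.up M n) (sq_nonneg (X n))
    unfold ac
    linarith
  have h1' : Summable (fun n => ac β M (n + 1) * X (n + 1) ^ 2) := (summable_nat_add_iff 1).2 h1
  have hle : ∀ n, |β n * gc M n * (X n * X (n + 1))|
      ≤ θ / 2 * (ac β M n * X n ^ 2) + θ / 2 * (ac β M (n + 1) * X (n + 1) ^ 2) := by
    intro n
    have hg : 0 < gc M n := Pool.Agent.Y302.KP.gc_pos hM n
    have hc := hW.cond M n
    have ha1 := (hap n).le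
    have ha2 := (hap (n + 1)).le
    rw [abs_mul, abs_of_pos (mul_pos (hW.pos n) hg), abs_mul]
    have hsq1 : √(ac β M n) ^ 2 = ac β M n := Real.sq_sqrt ha1
    have hsq2 : √(ac β M (n + 1)) ^ 2 = ac β M (n + 1) := Real.sq_sqrt ha2
    have hx1 := sq_abs (X n)
    have hx2 := sq_abs (X (n + 1))
    have hc' : β n * gc M n ≤ θ * (√(ac β M n) * √(ac β M (n + 1))) := hc
    have hxx : 0 ≤ |X n| * |X (n + 1)| := mul_nonneg (abs_nonneg _) (abs_nonneg _)
    have h2 := mul_le_mul_of_nonneg_right hc' hxx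
    have hs := sq_nonneg (√(ac β M n) * |X n| - √(ac β M (n + 1)) * |X (n + 1)|)
    have hθ := hW.th0
    have h3 : θ * (√(ac β M n) * √(ac β M (n + 1))) * (|X n| * |X (n + 1)|)
        ≤ θ / 2 * ((√(ac β M n) * |X n|) ^ 2 + (√(ac β M (n + 1)) * |X (n + 1)|) ^ 2) := by
      nlinarith
    rw [mul_pow, mul_pow, hsq1, hsq2, hx1, hx2] at h3
    linarith
  have h2s : Summable fun n => θ / 2 * (ac β M n * X n ^ 2)
      + θ / 2 * (ac β M (n + 1) * X (n + 1) ^ 2) := (h1.mul_left _).add (h1'.mul_left _)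
  have h2 : Summable (fun n => β n * gc M n * (X n * X (n + 1))) :=
    Summable.of_norm (Summable.of_nonneg_of_le (fun _ => norm_nonneg _)
      (fun n => by rw [Real.norm_eq_abs]; exact hle n) h2s)
  refine ⟨h1, h2, ?_⟩
  have h3 := h2.tsum_le_tsum (fun n => (le_abs_self _).trans (hle n)) h2s
  rw [(h1.mul_left _).tsum_add (h1'.mul_left _), tsum_mul_left, tsum_mul_left] at h3
  have h4 : ∑' n, ac β M (n + 1) * X (n + 1) ^ 2 ≤ ∑' n, ac β M n * X n ^ 2 := by
    rw [h1.tsum_eq_zero_add]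
    have := mul_nonneg (hap 0).le (sq_nonneg (X 0))
    linarith
  have hθ := hW.th0
  have h5 := mul_le_mul_of_nonneg_left h4 (by positivity : 0 ≤ θ / 2)
  linarith

/-- Cauchy-Schwarz. -/
theorem cs_weights (hW : Wts α β θ C) (hM : 0 < M) {X c : ℕ → ℝ}
    (hX : Summable fun n => ac β M n * X n ^ 2)
    (hc : Summable fun n => β n ^ 2 * c n ^ 2 / ac β M n) {ε : ℝ} (hε : 0 < ε) :
    Summable (fun n => β n * (|c n| * |X n|)) ∧
    ∑' n, β n * (|c n| * |X n|) ≤ ε * ∑' n, ac β M n * X n ^ 2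
      + 1 / (4 * ε) * ∑' n, β n ^ 2 * c n ^ 2 / ac β M n := by
  have hap := ac_pos hW.pos hM
  have hle : ∀ n, β n * (|c n| * |X n|) ≤ ε * (ac β M n * X n ^ 2)
      + 1 / (4 * ε) * (β n ^ 2 * c n ^ 2 / ac β M n) := by
    intro n
    have ha := hap n
    have hs : 0 ≤ (2 * ε * ac β M n * |X n| - β n * |c n|) ^ 2 := sq_nonneg _
    have h1 := sq_abs (X n)
    have h2 := sq_abs (c n)
    have h3 : 0 < 4 * ε * ac β M n := by positivity
    have h4 : ε * (ac β M n * X n ^ 2) + 1 / (4 * ε) * (β n ^ 2 * c n ^ 2 / ac β M n)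
        - β n * (|c n| * |X n|)
        = (2 * ε * ac β M n * |X n| - β n * |c n|) ^ 2 / (4 * ε * ac β M n) := by
      rw [← h1, ← h2]
      field_simp
      ring
    have h5 := div_nonneg hs h3.le
    linarith
  have hs := (hX.mul_left ε).add (hc.mul_left (1 / (4 * ε)))
  have hsum : Summable (fun n => β n * (|c n| * |X n|)) :=
    Summable.of_nonneg_of_le (fun n => mul_nonneg (hW.pos n).le
      (mul_nonneg (abs_nonneg _) (abs_nonneg _))) hle hs
  refine ⟨hsum, ?_⟩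
  have h1 := hsum.tsum_le_tsum hle hs
  rwa [(hX.mul_left ε).tsum_add (hc.mul_left (1 / (4 * ε))), tsum_mul_left, tsum_mul_left] at h1

/-- The square of the functional. -/
theorem J_sq_le (hW : Wts α β θ C) (hM : 0 < M) {X : ℕ → ℝ}
    (hX : Summable fun n => ac β M n * X n ^ 2) :
    Summable (fun n => β n * X n) ∧
    (∑' n, β n * X n) ^ 2 ≤ (∑' n, β n ^ 2 / ac β M n) * ∑' n, ac β M n * X n ^ 2 := by
  have hap := ac_pos hW.pos hM
  have hc : Summable fun n => β n ^ 2 * (1 : ℝ) ^ 2 / ac β M n := by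
    simpa [ac] using (hW.s2 M hM).1
  obtain ⟨h1, -⟩ := cs_weights hW hM (c := fun _ => 1) hX hc one_pos
  have hsum : Summable (fun n => β n * X n) := by
    refine Summable.of_norm (h1.congr fun n => ?_)
    rw [norm_mul, Real.norm_eq_abs, Real.norm_eq_abs, abs_of_pos (hW.pos n), abs_one, one_mul]
  refine ⟨hsum, ?_⟩
  have h2 : Summable fun n => (β n / √(ac β M n)) ^ 2 := by
    refine hc.congr fun n => ?_
    rw [div_pow, Real.sq_sqrt (hap n).le, one_pow, mul_one]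
  have h3 : Summable fun n => (√(ac β M n) * |X n|) ^ 2 := by
    refine hX.congr fun n => ?_
    rw [mul_pow, Real.sq_sqrt (hap n).le, sq_abs]
  have h4 := (Real.summable_and_inner_le_Lp_mul_Lq_tsum_of_nonneg (p := 2) (q := 2)
    Real.HolderConjugate.two_two (f := fun n => β n / √(ac β M n))
    (g := fun n => √(ac β M n) * |X n|)
    (fun n => div_nonneg (hW.pos n).le (Real.sqrt_nonneg _))
    (fun n => mul_nonneg (Real.sqrt_nonneg _) (abs_nonneg _)) (by simpa only [Real.rpow_two] using h2)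
    (by simpa only [Real.rpow_two] using h3)).2
  have h5 : |∑' n, β n * X n| ≤ ∑' n, (β n / √(ac β M n)) * (√(ac β M n) * |X n|) := by
    rw [← Real.norm_eq_abs]
    refine (norm_tsum_le_tsum_norm hsum.norm).trans (le_of_eq (tsum_congr fun n => ?_))
    have : √(ac β M n) ≠ 0 := (Real.sqrt_pos.2 (hap n)).ne'
    rw [norm_mul, Real.norm_eq_abs, Real.norm_eq_abs, abs_of_pos (hW.pos n)]
    field_simp
  have h6 := h5.trans h4
  have hA : 0 ≤ ∑' n, β n ^ 2 / ac β M n :=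
    tsum_nonneg fun n => div_nonneg (sq_nonneg _) (hap n).le
  have hB : 0 ≤ ∑' n, ac β M n * X n ^ 2 :=
    tsum_nonneg fun n => mul_nonneg (hap n).le (sq_nonneg _)
  have e1 : ∑' n, (β n / √(ac β M n)) ^ (2 : ℝ) = ∑' n, β n ^ 2 / ac β M n := by
    refine tsum_congr fun n => ?_
    rw [Real.rpow_two, div_pow, Real.sq_sqrt (hap n).le]
  have e2 : ∑' n, (√(ac β M n) * |X n|) ^ (2 : ℝ) = ∑' n, ac β M n * X n ^ 2 := by
    refine tsum_congr fun n => ?_
    rw [Real.rpow_two, mul_pow, Real.sq_sqrt (hap n).le, sq_abs]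
  rw [e1, e2, ← Real.sqrt_eq_rpow, ← Real.sqrt_eq_rpow] at h6
  have h7 := pow_le_pow_left₀ (abs_nonneg _) h6 2
  rwa [sq_abs, mul_pow, Real.sq_sqrt hA, Real.sq_sqrt hB] at h7

end Pool.Agent.R211.SV
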