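import Pool.Agent.R211.SV.Blow

/-!
The lifespan of the solutions.
-/

set_option autoImplicit false

open Set Filter Topology MeasureTheory
open scoped ComplexConjugate

namespace Pool.Agent.R211.SV

open Pool.Agent.H708R2.EulerSign (V Periodic3 Dom divergence contDiff_slice dom_bdd dom_meas
  dom_lt_top)
open Pool.Agent.H708R2.EulerModes
open Pool.Agent.Y302.Trunc hiding en dS en_nonneg en_continuousOn en_hasDerivAt unique
open Pool.Agent.Y302.Tri
open Pool.Agent.Y302.KP (Fc gc sr)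

/-- A differential inequality. -/
lemma ode_blow {J E D : ℝ → ℝ} {T a c1 c2 : ℝ} (ha : 0 < a) (hc1 : 0 ≤ c1) (hc2 : 0 ≤ c2)
    (hJc : ContinuousOn J (Ico 0 T)) (hEc : ContinuousOn E (Ico 0 T))
    (hE' : ∀ t ∈ Ioo 0 T, HasDerivAt E (-(2 * D t)) t)
    (hE0 : ∀ t ∈ Ico 0 T, 0 ≤ E t)
    (hJ : ∀ t ∈ Ioo 0 T, ∃ J', HasDerivAt J J' t ∧ a * J t ^ 2 - c1 - 2 * c2 * D t ≤ J')
    (hJ0 : 0 < J 0) (hsm : c1 * (16 / (9 * a * J 0)) + c2 * E 0 ≤ J 0 / 4) :
    T ≤ 16 / (9 * a * J 0) := by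
  by_contra hcon
  push Not at hcon
  set T₁ : ℝ := 16 / (9 * a * J 0) with hT₁
  have hT₁p : 0 < T₁ := by positivity
  have hsub : Icc 0 T₁ ⊆ Ico 0 T := fun s hs => ⟨hs.1, hs.2.trans_lt hcon⟩
  set K : ℝ → ℝ := fun t => J t + (c1 * t + c2 * (E 0 - E t)) with hK
  have hKc : ContinuousOn K (Icc 0 T₁) := by
    refine (hJc.mono hsub).add ((continuousOn_const.mul continuousOn_id).add
      (continuousOn_const.mul (continuousOn_const.sub (hEc.mono hsub))))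
  have hK' : ∀ t ∈ Ioo 0 T₁, ∃ K', HasDerivAt K K' t ∧ a * J t ^ 2 ≤ K' := by
    intro t ht
    have htT : t ∈ Ioo 0 T := ⟨ht.1, ht.2.trans hcon⟩
    obtain ⟨J', h1, h2⟩ := hJ t htT
    refine ⟨J' + (c1 * 1 + c2 * (0 - -(2 * D t))), ?_, by linarith⟩
    exact h1.add (((hasDerivAt_id t).const_mul c1).add
      (((hasDerivAt_const t (E 0)).sub (hE' t htT)).const_mul c2))
  choose! K' hK1 hK2 using hK'
  have hmono : MonotoneOn K (Icc 0 T₁) := by
    refine monotoneOn_of_deriv_nonneg (convex_Icc _ _) hKc ?_ ?_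
    · intro s hs
      rw [interior_Icc] at hs
      exact (hK1 s hs).differentiableAt.differentiableWithinAt
    · intro s hs
      rw [interior_Icc] at hs
      rw [(hK1 s hs).deriv]
      exact le_trans (by positivity) (hK2 s hs)
  have hK0 : K 0 = J 0 := by simp [hK]
  have hKge : ∀ t ∈ Icc 0 T₁, J 0 ≤ K t := by
    intro t ht
    rw [← hK0]
    exact hmono ⟨le_rfl, hT₁p.le⟩ ht ht.1
  have hJge : ∀ t ∈ Icc 0 T₁, 3 / 4 * K t ≤ J t := by
    intro t ht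
    have h1 := hKge t ht
    have h2 := hE0 t (hsub ht)
    have h3 : c1 * t ≤ c1 * T₁ := mul_le_mul_of_nonneg_left ht.2 hc1
    have h4 : c2 * (E 0 - E t) ≤ c2 * E 0 := mul_le_mul_of_nonneg_left (by linarith) hc2
    have h5 : K t = J t + (c1 * t + c2 * (E 0 - E t)) := rfl
    linarith
  set L : ℝ → ℝ := fun t => -(K t)⁻¹ - 9 * a / 16 * t with hL
  have hKne : ∀ t ∈ Icc 0 T₁, K t ≠ 0 := fun t ht => (hJ0.trans_le (hKge t ht)).ne'
  have hLmono : MonotoneOn L (Icc 0 T₁) := by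
    have hder : ∀ s ∈ Ioo 0 T₁, HasDerivAt L (-(-K' s / K s ^ 2) - 9 * a / 16 * 1) s := by
      intro s hs
      exact (((hK1 s hs).inv (hKne s ⟨hs.1.le, hs.2.le⟩)).neg).sub
        ((hasDerivAt_id s).const_mul _)
    refine monotoneOn_of_deriv_nonneg (convex_Icc _ _) ?_ ?_ ?_
    · exact ((hKc.inv₀ hKne).neg).sub (continuousOn_const.mul continuousOn_id)
    · intro s hs
      rw [interior_Icc] at hs
      exact (hder s hs).differentiableAt.differentiableWithinAt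
    · intro s hs
      rw [interior_Icc] at hs
      rw [(hder s hs).deriv]
      have hsI : s ∈ Icc 0 T₁ := ⟨hs.1.le, hs.2.le⟩
      have hKp : 0 < K s := hJ0.trans_le (hKge s hsI)
      have h1 := hJge s hsI
      have h2 : (3 / 4 * K s) ^ 2 ≤ J s ^ 2 := pow_le_pow_left₀ (by positivity) h1 2
      have h3 := hK2 s hs
      have h4 : a * (3 / 4 * K s) ^ 2 ≤ K' s := (mul_le_mul_of_nonneg_left h2 ha.le).trans h3
      have h5 : 9 * a / 16 ≤ K' s / K s ^ 2 := by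
        rw [le_div_iff₀ (by positivity)]
        linarith
      have h6 : -(-K' s / K s ^ 2) = K' s / K s ^ 2 := by ring
      rw [h6]
      linarith
  have h1 := hLmono ⟨le_rfl, hT₁p.le⟩ ⟨hT₁p.le, le_rfl⟩ hT₁p.le
  have h2 : L 0 = -(J 0)⁻¹ := by simp [hL, hK0]
  have h3 : L T₁ = -(K T₁)⁻¹ - (J 0)⁻¹ := by
    have : 9 * a / 16 * T₁ = (J 0)⁻¹ := by
      rw [hT₁]
      field_simp
    simp only [hL, this]
  rw [h2, h3] at h1
  have h4 : 0 < (K T₁)⁻¹ := inv_pos.2 (hJ0.trans_le (hKge T₁ ⟨hT₁p.le, le_rfl⟩))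
  linarith

variable {M : ℕ} {d : K3 → ℝ} {T : ℝ} {u : ℝ → V → V} {p : ℝ → V → ℝ}
  {α θ C : ℝ} {β : ℕ → ℝ}

/-- The bound for the lifespan in terms of the functional. -/
theorem lifespan (hM : 0 < M) (hd0 : ∀ k, 0 ≤ d k) (hdi : InvSymbol d) (hu : IsSol d T u p)
    (h0 : InvField (u 0)) (hW : Wts α β θ C) {ν κ : ℝ} (hν : 0 < ν)
    (hdν : ∀ k ∉ Cset M, ν * ∑ i, (k i : ℝ) ^ 2 ≤ d k)
    (hdκ : ∀ k ∈ Cset M, d k ≤ κ * (∑ i, (k i : ℝ) ^ 2) ^ α)
    {J0 E0 : ℝ} (hJ0 : 0 < J0) (hJ : J0 ≤ Jf β M (u 0)) (hE : Ey u 0 ≤ E0)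
    (h1 : 8 * (4 * C / (1 - θ)) * (1 / (2 * (1 - θ)) * C) * (κ * ((M : ℝ) ^ 2) ^ α) ^ 2
      ≤ (M * J0) ^ 2)
    (h2 : (8 * (4000 * C * (4 * C / (1 - θ)) + 2000 * C)) ^ 2 * E0 ^ 2 ≤ ν * M * J0 ^ 3) :
    T ≤ 4 * C / (1 - θ) / (M * J0) := by
  have hM' : (0 : ℝ) < M := by exact_mod_cast hM
  have hθ1 : 0 < 1 - θ := by linarith [hW.th1]
  have hC0 := hW.C0
  have hE0n := Ey_nonneg (u := u) 0
  have hE0 : 0 ≤ E0 := hE0n.trans hE
  set Jz := Jf β M (u 0) with hJz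
  have hJzp : 0 < Jz := hJ0.trans_le hJ
  set a : ℝ := (1 - θ) * M / (2 * C) with ha
  have hap : 0 < a := by positivity
  set lam : ℝ := 1 / √(ν * M * J0) with hlam
  have hsq : 0 < ν * M * J0 := by positivity
  have hs0 : 0 < √(ν * M * J0) := Real.sqrt_pos.2 hsq
  have hlamp : 0 < lam := by positivity
  have hs2 : √(ν * M * J0) ^ 2 = ν * M * J0 := Real.sq_sqrt hsq.le
  set c1 : ℝ := 1 / (2 * (1 - θ)) * (κ ^ 2 * (C * (((M : ℝ) ^ 2) ^ α) ^ 2 / M))
          + 4000 * C * (Ey u 0 / (lam * ν)) with hc1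
  have hc1n : 0 ≤ c1 := by positivity
  set CT : ℝ := 4 * C / (1 - θ) with hCT
  have hCTp : 0 < CT := by positivity
  have hT1le : 16 / (9 * a * Jz) ≤ CT / (M * J0) := by
    have e1 : 16 / (9 * a * Jz) = (8 / 9 * CT) / (M * Jz) := by
      rw [ha, hCT]
      field_simp
      norm_num
    rw [e1]
    calc (8 / 9 * CT) / (M * Jz) ≤ CT / (M * Jz) :=
          div_le_div_of_nonneg_right (by linarith) (by positivity)
      _ ≤ CT / (M * J0) := div_le_div_of_nonneg_left hCTp.le (by positivity)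
          (mul_le_mul_of_nonneg_left hJ hM'.le)
  -- the smallness condition
  have hE1 : c1 * (CT / (M * J0)) + (2000 * C * lam) * Ey u 0 ≤ J0 / 4 := by
    have k1 : 1 / (2 * (1 - θ)) * (κ ^ 2 * (C * (((M : ℝ) ^ 2) ^ α) ^ 2 / M)) * (CT / (M * J0))
        ≤ J0 / 8 := by
      have e : 1 / (2 * (1 - θ)) * (κ ^ 2 * (C * (((M : ℝ) ^ 2) ^ α) ^ 2 / M)) * (CT / (M * J0))
          = (8 * CT * (1 / (2 * (1 - θ)) * C) * (κ * ((M : ℝ) ^ 2) ^ α) ^ 2)
            / (8 * (M ^ 2 * J0)) := by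
        field_simp
      rw [e, div_le_iff₀ (by positivity)]
      refine h1.trans (le_of_eq ?_)
      ring
    have k2 : 4000 * C * (Ey u 0 / (lam * ν)) * (CT / (M * J0)) + (2000 * C * lam) * Ey u 0
        ≤ J0 / 8 := by
      have e : 4000 * C * (Ey u 0 / (lam * ν)) * (CT / (M * J0)) + (2000 * C * lam) * Ey u 0
          = (4000 * C * CT + 2000 * C) * Ey u 0 / √(ν * M * J0) := by
        rw [hlam]
        field_simp
        rw [hs2]
        ring
      rw [e, div_le_iff₀ hs0]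
      have h3 : 8 * (4000 * C * CT + 2000 * C) * E0 ≤ J0 * √(ν * M * J0) := by
        have h4 : (8 * (4000 * C * CT + 2000 * C) * E0) ^ 2 ≤ (J0 * √(ν * M * J0)) ^ 2 := by
          rw [mul_pow J0, hs2]
          refine le_trans (le_of_eq (by ring)) (h2.trans (le_of_eq (by ring)))
        exact (pow_le_pow_iff_left₀ (by positivity) (by positivity) two_ne_zero).1 h4
      have h5 : (4000 * C * CT + 2000 * C) * Ey u 0 ≤ (4000 * C * CT + 2000 * C) * E0 :=
        mul_le_mul_of_nonneg_left hE (by positivity)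
      linarith
    rw [hc1, add_mul]
    linarith
  have hfin := ode_blow (J := fun t => Jf β M (u t)) (E := Ey u) (D := Dy d u) (T := T)
    (a := a) (c1 := c1) (c2 := 2000 * C * lam) hap hc1n (by positivity)
    (Jf_continuousOn hM hd0 hdi hu h0 hW) (Ey_continuousOn hu.base)
    (fun t ht => (Dy_facts hu ht).2) (fun t _ => Ey_nonneg t)
    (fun t ht => by
      obtain ⟨J', h3, h4⟩ := Jf_deriv hM hd0 hdi hu h0 hW hν hdν hdκ hlamp ht
      exact ⟨J', h3, le_trans (le_of_eq (by rw [ha, hc1]; ring)) h4⟩)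
    hJzp ?_
  · exact hfin.trans hT1le
  · have h3 : c1 * (16 / (9 * a * Jz)) ≤ c1 * (CT / (M * J0)) :=
      mul_le_mul_of_nonneg_left hT1le hc1n
    have h4 : c1 * (16 / (9 * a * Jz)) + 2000 * C * lam * Ey u 0 ≤ Jz / 4 := by linarith
    exact h4

end Pool.Agent.R211.SV
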