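import Pool.Agent.R211.SV.Bil

/-!
Local existence: the integral equation.
-/

set_option autoImplicit false
set_option linter.unusedSectionVars false

open Set Filter Topology MeasureTheory
open scoped ENNReal Interval

namespace Pool.Agent.R211.SV

open Pool.Agent.Y302.Trunc (K3)
open Pool.Agent.Y302.Tri

section vol

variable {τ : ℝ} (hτ : 0 ≤ τ)

/-- Continuous functions on `[0, τ]`. -/
abbrev CI (τ : ℝ) := C(Icc (0 : ℝ) τ, ℂ)

/-- The extension of a function on `[0, τ]` by constants. -/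
noncomputable def ext0 (f : CI τ) (s : ℝ) : ℂ := f (projIcc 0 τ hτ s)

lemma ext0_continuous (f : CI τ) : Continuous (ext0 hτ f) :=
  f.continuous.comp continuous_projIcc

lemma norm_ext0_le (f : CI τ) (s : ℝ) : ‖ext0 hτ f s‖ ≤ ‖f‖ := f.norm_coe_le_norm _

/-- The function `t ↦ ∫₀ᵗ exp (-c (t - s)) f(s) ds`. -/
noncomputable def volF (c : ℝ) (f : CI τ) (t : ℝ) : ℂ :=
  (Real.exp (-c * t) : ℂ) * ∫ s in (0 : ℝ)..t, (Real.exp (c * s) : ℂ) * ext0 hτ f s

lemma volF_integrand_continuous (c : ℝ) (f : CI τ) :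
    Continuous fun s : ℝ => (Real.exp (c * s) : ℂ) * ext0 hτ f s := by
  have := ext0_continuous hτ f
  fun_prop

lemma volF_continuous (c : ℝ) (f : CI τ) : Continuous (volF hτ c f) := by
  have h1 := volF_integrand_continuous hτ c f
  have h2 : Continuous fun t : ℝ => ∫ s in (0 : ℝ)..t, (Real.exp (c * s) : ℂ) * ext0 hτ f s :=
    intervalIntegral.continuous_primitive (fun a b => h1.intervalIntegrable a b) 0
  unfold volF
  fun_prop

lemma norm_volF_le {c : ℝ} (hc : 0 < c) (f : CI τ) {t : ℝ} (ht : 0 ≤ t) :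
    ‖volF hτ c f t‖ ≤ 1 / c * ‖f‖ := by
  unfold volF
  have h1 : ‖∫ s in (0 : ℝ)..t, (Real.exp (c * s) : ℂ) * ext0 hτ f s‖
      ≤ ∫ s in (0 : ℝ)..t, Real.exp (c * s) * ‖f‖ := by
    refine intervalIntegral.norm_integral_le_of_norm_le ht ?_ ?_
    · refine Eventually.of_forall fun s _ => ?_
      rw [norm_mul, Complex.norm_real, Real.norm_eq_abs, abs_of_pos (Real.exp_pos _)]
      exact mul_le_mul_of_nonneg_left (norm_ext0_le hτ f s) (Real.exp_pos _).le
    · exact (by fun_prop : Continuous fun s => Real.exp (c * s) * ‖f‖).intervalIntegrable _ _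
  have h2 : ∫ s in (0 : ℝ)..t, Real.exp (c * s) * ‖f‖ = (Real.exp (c * t) - 1) / c * ‖f‖ := by
    rw [intervalIntegral.integral_mul_const]
    congr 1
    have hd : ∀ s ∈ [[(0 : ℝ), t]], HasDerivAt (fun s => Real.exp (c * s) / c)
        (Real.exp (c * s)) s := by
      intro s _
      have := (((hasDerivAt_id s).const_mul c).exp).div_const c
      refine this.congr_deriv ?_
      field_simp
      simp
    rw [intervalIntegral.integral_eq_sub_of_hasDerivAt hd
      ((by fun_prop : Continuous fun s => Real.exp (c * s)).intervalIntegrable _ _)]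
    rw [mul_zero, Real.exp_zero]
    ring
  rw [norm_mul, Complex.norm_real, Real.norm_eq_abs, abs_of_pos (Real.exp_pos _)]
  calc Real.exp (-c * t) * ‖∫ s in (0 : ℝ)..t, (Real.exp (c * s) : ℂ) * ext0 hτ f s‖
      ≤ Real.exp (-c * t) * ((Real.exp (c * t) - 1) / c * ‖f‖) :=
        mul_le_mul_of_nonneg_left (h1.trans (le_of_eq h2)) (Real.exp_pos _).le
    _ = (1 - Real.exp (-c * t)) / c * ‖f‖ := by
        have : Real.exp (-c * t) * Real.exp (c * t) = 1 := by
          rw [← Real.exp_add]; simp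
        linear_combination ‖f‖ / c * this
    _ ≤ 1 / c * ‖f‖ := by
        refine mul_le_mul_of_nonneg_right ?_ (norm_nonneg _)
        refine div_le_div_of_nonneg_right ?_ hc.le
        have := Real.exp_pos (-c * t)
        linarith

/-- The Volterra operator on functions. -/
noncomputable def volC (c : ℝ) (f : CI τ) : CI τ :=
  ⟨fun t => volF hτ c f t, (volF_continuous hτ c f).comp continuous_subtype_val⟩

lemma volC_add (c : ℝ) (f g : CI τ) : volC hτ c (f + g) = volC hτ c f + volC hτ c g := by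
  ext t
  show volF hτ c (f + g) t = volF hτ c f t + volF hτ c g t
  unfold volF
  rw [← mul_add, ← intervalIntegral.integral_add
    ((volF_integrand_continuous hτ c f).intervalIntegrable _ _)
    ((volF_integrand_continuous hτ c g).intervalIntegrable _ _)]
  congr 1
  refine intervalIntegral.integral_congr fun s _ => ?_
  simp only [ext0, ContinuousMap.add_apply]
  ring

lemma volC_smul (c r : ℝ) (f : CI τ) : volC hτ c (r • f) = r • volC hτ c f := by
  ext t
  show volF hτ c (r • f) t = r • volF hτ c f t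
  have h : ∫ s in (0 : ℝ)..t, (Real.exp (c * s) : ℂ) * ext0 hτ (r • f) s
      = (r : ℂ) * ∫ s in (0 : ℝ)..t, (Real.exp (c * s) : ℂ) * ext0 hτ f s := by
    rw [← intervalIntegral.integral_const_mul]
    refine intervalIntegral.integral_congr fun s _ => ?_
    simp only [ext0, ContinuousMap.smul_apply, Complex.real_smul]
    ring
  unfold volF
  rw [h, Complex.real_smul]
  ring

/-- The Volterra operator, with a factor. -/
noncomputable def volL (c : ℝ) (hc : 0 < c) : CI τ →L[ℝ] CI τ :=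
  LinearMap.mkContinuous
    ({ toFun := volC hτ c
       map_add' := volC_add hτ c
       map_smul' := fun r f => volC_smul hτ c r f } : CI τ →ₗ[ℝ] CI τ) (1 / c) fun f => by
    have h0 : 0 ≤ 1 / c * ‖f‖ := mul_nonneg (by positivity) (norm_nonneg f)
    exact (ContinuousMap.norm_le (volC hτ c f) h0).2 fun t => norm_volF_le hτ hc f t.2.1

lemma volL_apply (c : ℝ) (hc : 0 < c) (f : CI τ) (t : Icc (0 : ℝ) τ) :
    volL hτ c hc f t = volF hτ c f t := rfl

lemma norm_volL_le (c : ℝ) (hc : 0 < c) : ‖volL hτ c hc‖ ≤ 1 / c :=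
  LinearMap.mkContinuous_norm_le _ (by positivity) _

end vol

/-- The entries of the Leray projector. -/
noncomputable def Pj (k : K3) (i j : Fin 3) : ℝ :=
  (if i = j then 1 else 0) - (k i : ℝ) * (k j : ℝ) / ∑ l, (k l : ℝ) ^ 2

lemma abs_Pj_le (k : K3) (i j : Fin 3) : |Pj k i j| ≤ 1 := by
  unfold Pj
  have hS : ∀ a, (k a : ℝ) ^ 2 ≤ ∑ l, (k l : ℝ) ^ 2 := fun a =>
    Finset.single_le_sum (f := fun l => (k l : ℝ) ^ 2) (fun _ _ => sq_nonneg _) (Finset.mem_univ a)
  set S := ∑ l, (k l : ℝ) ^ 2 with hSd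
  have hS0 : 0 ≤ S := Finset.sum_nonneg fun _ _ => sq_nonneg _
  rcases hS0.eq_or_lt with h0 | hpos
  · rw [← h0, div_zero]
    split_ifs <;> simp
  · have hi := hS i
    have hj := hS j
    by_cases h : i = j
    · subst h
      rw [if_pos rfl]
      have h1 : (k i : ℝ) * (k i : ℝ) / S ≤ 1 := by
        rw [div_le_one hpos]; nlinarith
      have h2 : 0 ≤ (k i : ℝ) * (k i : ℝ) / S := div_nonneg (mul_self_nonneg _) hS0
      rw [abs_le]
      constructor <;> linarith
    · rw [if_neg h, zero_sub, abs_neg, abs_div, abs_of_pos hpos, div_le_one hpos, abs_mul]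
      have h1 := sq_abs (k i : ℝ)
      have h2 := sq_abs (k j : ℝ)
      nlinarith [sq_nonneg (|(k i : ℝ)| - |(k j : ℝ)|)]

/-- The projector produces divergence free fields. -/
lemma sum_Pj (k : K3) (hk : k ≠ 0) (j : Fin 3) : ∑ i, (k i : ℝ) * Pj k i j = 0 := by
  unfold Pj
  have hS : (∑ l, (k l : ℝ) ^ 2) ≠ 0 := by
    intro h
    rw [Finset.sum_eq_zero_iff_of_nonneg fun _ _ => sq_nonneg _] at h
    refine hk (funext fun i => ?_)
    have := h i (Finset.mem_univ i)
    have h2 : (k i : ℝ) = 0 := by simpa using this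
    exact_mod_cast h2
  simp only [mul_sub, Finset.sum_sub_distrib]
  have h1 : ∑ i, (k i : ℝ) * (if i = j then (1 : ℝ) else 0) = k j := by
    simp
  have h2 : ∑ i, (k i : ℝ) * ((k i : ℝ) * (k j : ℝ) / ∑ l, (k l : ℝ) ^ 2)
      = (k j : ℝ) := by
    have : ∀ i, (k i : ℝ) * ((k i : ℝ) * (k j : ℝ) / ∑ l, (k l : ℝ) ^ 2)
        = (k i : ℝ) ^ 2 * ((k j : ℝ) / ∑ l, (k l : ℝ) ^ 2) := fun i => by ring
    simp only [this]
    rw [← Finset.sum_mul]
    field_simp
  rw [h1, h2, sub_self]

lemma N1_eq_zero {k : K3} (h : N1 k ≤ 0) : k = 0 := by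
  funext i
  have h1 : |(k i : ℝ)| ≤ N1 k := Finset.single_le_sum (f := fun j => |(k j : ℝ)|)
    (fun _ _ => abs_nonneg _) (Finset.mem_univ i)
  have h2 : |(k i : ℝ)| ≤ 0 := h1.trans h
  have h3 : (k i : ℝ) = 0 := abs_eq_zero.1 (le_antisymm h2 (abs_nonneg _))
  exact_mod_cast h3

lemma abs_le_N1 (k : K3) (i : Fin 3) : |(k i : ℝ)| ≤ N1 k :=
  Finset.single_le_sum (f := fun j => |(k j : ℝ)|) (fun _ _ => abs_nonneg _) (Finset.mem_univ i)

section ker1

variable {τ : ℝ} (hτ : 0 ≤ τ) {ρ σ : ℝ} (hσ : 0 < σ) (hρ : σ * τ ≤ ρ) (d : K3 → ℝ)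

/-- The decay rate of a mode. -/
noncomputable def ck (σ : ℝ) (d : K3 → ℝ) (k : K3) : ℝ := σ * N1 k + d k

lemma N1_sub_le (k q : K3) : N1 k ≤ N1 (k - q) + N1 q := by
  unfold N1
  rw [← Finset.sum_add_distrib]
  refine Finset.sum_le_sum fun j _ => ?_
  have : (k j : ℝ) = ((k - q) j : ℝ) + (q j : ℝ) := by
    rw [Pi.sub_apply]; push_cast; ring
  rw [this]
  exact abs_add_le _ _

lemma N1_pos {k : K3} (hk : k ≠ 0) : 0 < N1 k := by
  by_contra h
  exact hk (N1_eq_zero (not_lt.1 h))

/-- The kernel of the integral equation. -/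
noncomputable def ker1 (hd : ∀ k, 0 ≤ d k) : Ker (CI τ) where
  R k q := ⟨fun t => (Real.exp ((ρ - σ * t) * (N1 k - N1 (k - q) - N1 q)) : ℂ), by fun_prop⟩
  L k i j m := if hk : k = 0 then 0 else
    (ContinuousLinearMap.mul ℝ (CI τ) (ContinuousMap.const _
      (Complex.I * (k m : ℂ) * (Pj k i j : ℂ)))).comp
      (volL hτ (ck σ d k) (add_pos_of_pos_of_nonneg (mul_pos hσ (N1_pos hk)) (hd k)))
  c := 1 / σ
  R_le k q := by
    refine (ContinuousMap.norm_le _ zero_le_one).2 fun t => ?_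
    show ‖(Real.exp ((ρ - σ * t) * (N1 k - N1 (k - q) - N1 q)) : ℂ)‖ ≤ 1
    rw [Complex.norm_real, Real.norm_eq_abs, abs_of_pos (Real.exp_pos _), Real.exp_le_one_iff]
    have h1 := N1_sub_le k q
    have h2 : σ * (t : ℝ) ≤ σ * τ := mul_le_mul_of_nonneg_left t.2.2 hσ.le
    have h3 : 0 ≤ ρ - σ * (t : ℝ) := by linarith
    nlinarith
  L_le k i j m := by
    split_ifs with hk
    · rw [norm_zero]
      positivity
    · have hN := N1_pos hk
      refine (ContinuousLinearMap.opNorm_comp_le _ _).trans ?_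
      have h1 : ‖ContinuousLinearMap.mul ℝ (CI τ) (ContinuousMap.const _
          (Complex.I * (k m : ℂ) * (Pj k i j : ℂ)))‖ ≤ N1 k := by
        refine (ContinuousLinearMap.opNorm_mul_apply_le ℝ (CI τ) _).trans ?_
        refine (ContinuousMap.norm_le _ hN.le).2 fun t => ?_
        show ‖Complex.I * (k m : ℂ) * (Pj k i j : ℂ)‖ ≤ N1 k
        rw [norm_mul, norm_mul, Complex.norm_I, one_mul, Complex.norm_intCast, Complex.norm_real,
          Real.norm_eq_abs]
        calc |(k m : ℝ)| * |Pj k i j| ≤ N1 k * 1 :=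
              mul_le_mul (abs_le_N1 k m) (abs_Pj_le k i j) (abs_nonneg _) hN.le
          _ = N1 k := mul_one _
      have h2 := norm_volL_le hτ (ck σ d k)
        (add_pos_of_pos_of_nonneg (mul_pos hσ hN) (hd k))
      calc _ ≤ N1 k * (1 / ck σ d k) :=
            mul_le_mul h1 h2 (ContinuousLinearMap.opNorm_nonneg _) hN.le
        _ ≤ N1 k * (1 / (σ * N1 k)) := by
            refine mul_le_mul_of_nonneg_left ?_ hN.le
            refine one_div_le_one_div_of_le (mul_pos hσ hN) ?_
            unfold ck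
            linarith [hd k]
        _ = 1 / σ := by field_simp

end ker1

end Pool.Agent.R211.SV
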