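import Pool.Agent.R211.SV.Loc1

/-!
Local existence: the solution of the integral equation and its Fourier modes.
-/

set_option autoImplicit false
set_option linter.unusedSectionVars false

open Set Filter Topology MeasureTheory
open scoped ENNReal Interval ComplexConjugate

namespace Pool.Agent.R211.SV

open Pool.Agent.Y302.Trunc (K3)
open Pool.Agent.Y302.Tri

section sol

variable {τ ρ σ : ℝ} {d : K3 → ℝ} {a0 : K3 × Fin 3 → ℂ}

/-- The free evolution. -/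
noncomputable def V0f (τ ρ σ : ℝ) (d : K3 → ℝ) (a0 : K3 × Fin 3 → ℂ) (x : K3 × Fin 3) : CI τ :=
  ⟨fun t => (Real.exp ((ρ - σ * t) * N1 x.1 - d x.1 * t) : ℂ) * a0 x, by fun_prop⟩

lemma norm_V0f_le (hσ : 0 < σ) (hd : ∀ k, 0 ≤ d k) (x : K3 × Fin 3) :
    ‖V0f τ ρ σ d a0 x‖ ≤ Real.exp (ρ * N1 x.1) * ‖a0 x‖ := by
  refine (ContinuousMap.norm_le _ (by positivity)).2 fun t => ?_
  show ‖(Real.exp ((ρ - σ * t) * N1 x.1 - d x.1 * t) : ℂ) * a0 x‖ ≤ _
  rw [norm_mul, Complex.norm_real, Real.norm_eq_abs, abs_of_pos (Real.exp_pos _)]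
  refine mul_le_mul_of_nonneg_right (Real.exp_le_exp.2 ?_) (norm_nonneg _)
  have h1 : 0 ≤ σ * (t : ℝ) * N1 x.1 := mul_nonneg (mul_nonneg hσ.le t.2.1) (N1_nonneg _)
  have h2 : 0 ≤ d x.1 * (t : ℝ) := mul_nonneg (hd _) t.2.1
  linarith

/-- The data of the integral equation and its solution. -/
structure FixD (τ ρ σ : ℝ) (d : K3 → ℝ) (a0 : K3 × Fin 3 → ℂ) where
  hτ : 0 ≤ τ
  hσ : 0 < σ
  hρ : σ * τ ≤ ρ / 2
  hρ0 : 0 < ρ
  hd : ∀ k, 0 ≤ d k
  hρ' : σ * τ ≤ ρ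
  V : XA (CI τ)
  eq : ∀ x, V x = V0f τ ρ σ d a0 x - (ker1 hτ hσ hρ' d hd).fn V V x

variable (F : FixD τ ρ σ d a0)

/-- Projection of the time to `[0, τ]`. -/
noncomputable def FixD.pr (t : ℝ) : ℝ := (projIcc 0 τ F.hτ t : ℝ)

lemma FixD.pr_continuous : Continuous F.pr := continuous_subtype_val.comp continuous_projIcc

lemma FixD.pr_mem (t : ℝ) : F.pr t ∈ Icc 0 τ := (projIcc 0 τ F.hτ t).2

lemma FixD.pr_eq {t : ℝ} (ht : t ∈ Icc 0 τ) : F.pr t = t := by
  unfold FixD.pr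
  rw [projIcc_of_mem F.hτ ht]

/-- The Fourier modes. -/
noncomputable def FixD.uh (x : K3 × Fin 3) (t : ℝ) : ℂ :=
  (Real.exp (-((ρ - σ * F.pr t) * N1 x.1)) : ℂ) * ext0 F.hτ (F.V x) t

lemma FixD.uh_continuous (x : K3 × Fin 3) : Continuous (F.uh x) := by
  have h1 := F.pr_continuous
  have h2 := ext0_continuous F.hτ (F.V x)
  unfold FixD.uh
  fun_prop

lemma FixD.rate_ge (t : ℝ) : ρ / 2 ≤ ρ - σ * F.pr t := by
  have h1 : σ * F.pr t ≤ σ * τ := mul_le_mul_of_nonneg_left (F.pr_mem t).2 F.hσ.le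
  linarith [F.hρ]

lemma FixD.norm_uh_le (x : K3 × Fin 3) (t : ℝ) :
    ‖F.uh x t‖ ≤ Real.exp (-(ρ / 2 * N1 x.1)) * ‖F.V x‖ := by
  unfold FixD.uh
  rw [norm_mul, Complex.norm_real, Real.norm_eq_abs, abs_of_pos (Real.exp_pos _)]
  refine mul_le_mul (Real.exp_le_exp.2 ?_) (norm_ext0_le _ _ _) (norm_nonneg _) (Real.exp_pos _).le
  have := mul_le_mul_of_nonneg_right (F.rate_ge t) (N1_nonneg x.1)
  linarith

lemma FixD.norm_uh_le' (x : K3 × Fin 3) (t : ℝ) : ‖F.uh x t‖ ≤ ‖F.V x‖ := by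
  refine (F.norm_uh_le x t).trans ?_
  have h1 : Real.exp (-(ρ / 2 * N1 x.1)) ≤ 1 := by
    rw [Real.exp_le_one_iff]
    have := mul_nonneg (by linarith [F.hρ0] : (0 : ℝ) ≤ ρ / 2) (N1_nonneg x.1)
    linarith
  calc _ ≤ 1 * ‖F.V x‖ := mul_le_mul_of_nonneg_right h1 (norm_nonneg _)
    _ = _ := one_mul _

/-- The convolutions. -/
noncomputable def FixD.cc (k : K3) (j m : Fin 3) (t : ℝ) : ℂ :=
  ∑' q, F.uh (k - q, m) t * F.uh (q, j) t

lemma FixD.summable_cc (k : K3) (j m : Fin 3) (t : ℝ) :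
    Summable fun q => F.uh (k - q, m) t * F.uh (q, j) t := by
  refine Summable.of_norm (Summable.of_nonneg_of_le (fun _ => norm_nonneg _) (fun q => ?_)
    (Ker.summable_norm_term F.V F.V k j m))
  rw [norm_mul]
  exact mul_le_mul (F.norm_uh_le' _ _) (F.norm_uh_le' _ _) (norm_nonneg _) (norm_nonneg _)

lemma FixD.cc_continuous (k : K3) (j m : Fin 3) : Continuous (F.cc k j m) := by
  unfold FixD.cc
  refine continuous_tsum (fun q => (F.uh_continuous _).mul (F.uh_continuous _))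
    (Ker.summable_norm_term F.V F.V k j m) fun q t => ?_
  rw [norm_mul]
  exact mul_le_mul (F.norm_uh_le' _ _) (F.norm_uh_le' _ _) (norm_nonneg _) (norm_nonneg _)

/-- The nonlinear term. -/
noncomputable def FixD.nh (x : K3 × Fin 3) (t : ℝ) : ℂ :=
  ∑ j, ∑ m, (Complex.I * (x.1 m : ℂ) * (Pj x.1 x.2 j : ℂ)) * F.cc x.1 j m t

lemma FixD.nh_continuous (x : K3 × Fin 3) : Continuous (F.nh x) := by
  unfold FixD.nh
  exact continuous_finsetSum _ fun j _ => continuous_finsetSum _ fun m _ =>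
    continuous_const.mul (F.cc_continuous _ _ _)

lemma FixD.cvl_eval (k : K3) (j m : Fin 3) {s : ℝ} (hs : s ∈ Icc 0 τ) :
    ext0 F.hτ ((ker1 F.hτ F.hσ F.hρ' d F.hd).cvl F.V F.V k j m) s
      = (Real.exp ((ρ - σ * s) * N1 k) : ℂ) * F.cc k j m s := by
  unfold FixD.cc
  have h0 := ContinuousMap.tsum_apply
    ((ker1 F.hτ F.hσ F.hρ' d F.hd).summable_term F.V F.V k j m) (projIcc 0 τ F.hτ s)
  refine h0.symm.trans ?_
  rw [← tsum_mul_left]
  refine tsum_congr fun q => ?_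
  have e1 : ((ker1 F.hτ F.hσ F.hρ' d F.hd).R k q * F.V (k - q, m) * F.V (q, j))
      (projIcc 0 τ F.hτ s) = (Real.exp ((ρ - σ * F.pr s) * (N1 k - N1 (k - q) - N1 q)) : ℂ)
        * F.V (k - q, m) (projIcc 0 τ F.hτ s) * F.V (q, j) (projIcc 0 τ F.hτ s) := rfl
  rw [e1]
  unfold FixD.uh ext0
  rw [F.pr_eq hs]
  have e2 : (ρ - σ * s) * (N1 k - N1 (k - q) - N1 q)
      = (ρ - σ * s) * N1 k + -((ρ - σ * s) * N1 (k - q)) + -((ρ - σ * s) * N1 q) := by ring
  rw [e2, Real.exp_add, Real.exp_add]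
  push_cast
  ring

lemma FixD.L_eval (k : K3) (i j m : Fin 3) (f : CI τ) (t : Icc (0 : ℝ) τ) :
    (ker1 F.hτ F.hσ F.hρ' d F.hd).L k i j m f t
      = (Complex.I * (k m : ℂ) * (Pj k i j : ℂ)) * volF F.hτ (ck σ d k) f t := by
  unfold ker1
  simp only
  split_ifs with hk
  · subst hk
    simp
  · rfl

/-- The modes in terms of the nonlinear term. -/
lemma FixD.uh_eq (x : K3 × Fin 3) {t : ℝ} (ht : t ∈ Icc 0 τ) :
    F.uh x t = (Real.exp (-(d x.1 * t)) : ℂ)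
      * (a0 x - ∫ s in (0 : ℝ)..t, (Real.exp (d x.1 * s) : ℂ) * F.nh x s) := by
  have h1 := congrArg (fun f : CI τ => f ⟨t, ht⟩) (F.eq x)
  have hV : ext0 F.hτ (F.V x) t = F.V x ⟨t, ht⟩ := by
    unfold ext0
    rw [projIcc_of_mem F.hτ ht]
  have h2 : ((ker1 F.hτ F.hσ F.hρ' d F.hd).fn F.V F.V x) ⟨t, ht⟩
      = ∑ j, ∑ m, (Complex.I * (x.1 m : ℂ) * (Pj x.1 x.2 j : ℂ))
        * volF F.hτ (ck σ d x.1) ((ker1 F.hτ F.hσ F.hρ' d F.hd).cvl F.V F.V x.1 j m) t := by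
    unfold Ker.fn
    rw [ContinuousMap.sum_apply]
    refine Finset.sum_congr rfl fun j _ => ?_
    rw [ContinuousMap.sum_apply]
    exact Finset.sum_congr rfl fun m _ => F.L_eval _ _ _ _ _ _
  have h3 : ∀ j m, (Real.exp (-((ρ - σ * t) * N1 x.1)) : ℂ)
      * volF F.hτ (ck σ d x.1) ((ker1 F.hτ F.hσ F.hρ' d F.hd).cvl F.V F.V x.1 j m) t
      = (Real.exp (-(d x.1 * t)) : ℂ)
        * ∫ s in (0 : ℝ)..t, (Real.exp (d x.1 * s) : ℂ) * F.cc x.1 j m s := by
    intro j m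
    unfold volF
    have h4 : ∫ s in (0 : ℝ)..t, (Real.exp (ck σ d x.1 * s) : ℂ)
        * ext0 F.hτ ((ker1 F.hτ F.hσ F.hρ' d F.hd).cvl F.V F.V x.1 j m) s
        = (Real.exp (ρ * N1 x.1) : ℂ)
          * ∫ s in (0 : ℝ)..t, (Real.exp (d x.1 * s) : ℂ) * F.cc x.1 j m s := by
      rw [← intervalIntegral.integral_const_mul]
      refine intervalIntegral.integral_congr fun s hs => ?_
      rw [uIcc_of_le ht.1] at hs
      have hs' : s ∈ Icc 0 τ := ⟨hs.1, hs.2.trans ht.2⟩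
      simp only
      rw [F.cvl_eval _ _ _ hs']
      have e : Real.exp (ck σ d x.1 * s) * Real.exp ((ρ - σ * s) * N1 x.1)
          = Real.exp (ρ * N1 x.1) * Real.exp (d x.1 * s) := by
        rw [← Real.exp_add, ← Real.exp_add]
        unfold ck
        congr 1
        ring
      have e' : (Real.exp (ck σ d x.1 * s) : ℂ) * (Real.exp ((ρ - σ * s) * N1 x.1) : ℂ)
          = (Real.exp (ρ * N1 x.1) : ℂ) * (Real.exp (d x.1 * s) : ℂ) := by
        exact_mod_cast congrArg (fun r : ℝ => (r : ℂ)) e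
      linear_combination (F.cc x.1 j m s) * e'
    rw [h4]
    have e : Real.exp (-((ρ - σ * t) * N1 x.1)) * Real.exp (-ck σ d x.1 * t)
        * Real.exp (ρ * N1 x.1) = Real.exp (-(d x.1 * t)) := by
      rw [← Real.exp_add, ← Real.exp_add]
      unfold ck
      congr 1
      ring
    have e' : (Real.exp (-((ρ - σ * t) * N1 x.1)) : ℂ) * (Real.exp (-ck σ d x.1 * t) : ℂ)
        * (Real.exp (ρ * N1 x.1) : ℂ) = (Real.exp (-(d x.1 * t)) : ℂ) := by
      exact_mod_cast congrArg (fun r : ℝ => (r : ℂ)) e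
    linear_combination (∫ s in (0 : ℝ)..t, (Real.exp (d x.1 * s) : ℂ) * F.cc x.1 j m s) * e'
  have h5 : ∫ s in (0 : ℝ)..t, (Real.exp (d x.1 * s) : ℂ) * F.nh x s
      = ∑ j, ∑ m, (Complex.I * (x.1 m : ℂ) * (Pj x.1 x.2 j : ℂ))
        * ∫ s in (0 : ℝ)..t, (Real.exp (d x.1 * s) : ℂ) * F.cc x.1 j m s := by
    have hc : ∀ j m, Continuous fun s : ℝ => (Complex.I * (x.1 m : ℂ) * (Pj x.1 x.2 j : ℂ))
        * ((Real.exp (d x.1 * s) : ℂ) * F.cc x.1 j m s) := by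
      intro j m
      have := F.cc_continuous x.1 j m
      fun_prop
    have e : ∀ s : ℝ, (Real.exp (d x.1 * s) : ℂ) * F.nh x s
        = ∑ j, ∑ m, (Complex.I * (x.1 m : ℂ) * (Pj x.1 x.2 j : ℂ))
        * ((Real.exp (d x.1 * s) : ℂ) * F.cc x.1 j m s) := by
      intro s
      unfold FixD.nh
      rw [Finset.mul_sum]
      refine Finset.sum_congr rfl fun j _ => ?_
      rw [Finset.mul_sum]
      refine Finset.sum_congr rfl fun m _ => ?_
      ring
    simp only [e]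
    rw [intervalIntegral.integral_finsetSum fun j _ =>
      (continuous_finsetSum _ fun m _ => hc j m).intervalIntegrable _ _]
    refine Finset.sum_congr rfl fun j _ => ?_
    rw [intervalIntegral.integral_finsetSum fun m _ => (hc j m).intervalIntegrable _ _]
    refine Finset.sum_congr rfl fun m _ => ?_
    rw [intervalIntegral.integral_const_mul]
  have h6 : F.V x ⟨t, ht⟩ = (Real.exp ((ρ - σ * t) * N1 x.1 - d x.1 * t) : ℂ) * a0 x
      - ∑ j, ∑ m, (Complex.I * (x.1 m : ℂ) * (Pj x.1 x.2 j : ℂ))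
        * volF F.hτ (ck σ d x.1) ((ker1 F.hτ F.hσ F.hρ' d F.hd).cvl F.V F.V x.1 j m) t := by
    rw [← h2]
    exact h1
  unfold FixD.uh
  rw [F.pr_eq ht, hV, h6, h5, mul_sub, mul_sub, Finset.mul_sum, Finset.mul_sum]
  congr 1
  · have e : Real.exp (-((ρ - σ * t) * N1 x.1)) * Real.exp ((ρ - σ * t) * N1 x.1 - d x.1 * t)
        = Real.exp (-(d x.1 * t)) := by
      rw [← Real.exp_add]
      congr 1
      ring
    have e' : (Real.exp (-((ρ - σ * t) * N1 x.1)) : ℂ)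
        * (Real.exp ((ρ - σ * t) * N1 x.1 - d x.1 * t) : ℂ) = (Real.exp (-(d x.1 * t)) : ℂ) := by
      exact_mod_cast congrArg (fun r : ℝ => (r : ℂ)) e
    linear_combination (a0 x) * e'
  · refine Finset.sum_congr rfl fun j _ => ?_
    rw [Finset.mul_sum, Finset.mul_sum]
    refine Finset.sum_congr rfl fun m _ => ?_
    linear_combination (Complex.I * (x.1 m : ℂ) * (Pj x.1 x.2 j : ℂ)) * h3 j m

/-- The modes at the initial time. -/
lemma FixD.uh_zero (x : K3 × Fin 3) : F.uh x 0 = a0 x := by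
  rw [F.uh_eq x ⟨le_rfl, F.hτ⟩]
  simp

/-- The differential equations of the modes, in integrated form. -/
lemma FixD.uh_int (x : K3 × Fin 3) {t : ℝ} (ht : t ∈ Icc 0 τ) :
    F.uh x t - a0 x = ∫ s in (0 : ℝ)..t, (-(d x.1 : ℂ) * F.uh x s - F.nh x s) := by
  have hn := F.nh_continuous x
  have hi : Continuous fun s : ℝ => (Real.exp (d x.1 * s) : ℂ) * F.nh x s := by fun_prop
  set W : ℝ → ℂ := fun t => (Real.exp (-(d x.1 * t)) : ℂ)
      * (a0 x - ∫ s in (0 : ℝ)..t, (Real.exp (d x.1 * s) : ℂ) * F.nh x s) with hW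
  have hder : ∀ t, HasDerivAt W (-(d x.1 : ℂ) * W t - F.nh x t) t := by
    intro t
    have h1 : HasDerivAt (fun t => ∫ s in (0 : ℝ)..t, (Real.exp (d x.1 * s) : ℂ) * F.nh x s)
        ((Real.exp (d x.1 * t) : ℂ) * F.nh x t) t :=
      intervalIntegral.integral_hasDerivAt_right (hi.intervalIntegrable _ _)
        hi.stronglyMeasurable.stronglyMeasurableAtFilter hi.continuousAt
    have h2 : HasDerivAt (fun t : ℝ => (Real.exp (-(d x.1 * t)) : ℂ))
        ((Real.exp (-(d x.1 * t)) * -(d x.1 * 1) : ℝ) : ℂ) t :=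
      ((((hasDerivAt_id t).const_mul (d x.1)).neg).exp).ofReal_comp
    have h3 := h2.mul (h1.const_sub (a0 x))
    refine h3.congr_deriv ?_
    have e : (Real.exp (-(d x.1 * t)) : ℂ) * (Real.exp (d x.1 * t) : ℂ) = 1 := by
      rw [← Complex.ofReal_mul, ← Real.exp_add]
      simp
    simp only [hW]
    push_cast
    push_cast at e
    linear_combination -(F.nh x t) * e
  have hWc : Continuous W := continuous_iff_continuousAt.2 fun t => (hder t).continuousAt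
  have h4 : ∫ s in (0 : ℝ)..t, (-(d x.1 : ℂ) * W s - F.nh x s) = W t - W 0 := by
    refine intervalIntegral.integral_eq_sub_of_hasDerivAt (fun s _ => hder s) ?_
    exact ((continuous_const.mul hWc).sub hn).intervalIntegrable _ _
  have h5 : W 0 = a0 x := by simp [hW]
  have h6 : ∀ s ∈ Icc 0 τ, F.uh x s = W s := fun s hs => F.uh_eq x hs
  rw [h6 t ht, ← h5, ← h4]
  refine intervalIntegral.integral_congr fun s hs => ?_
  rw [uIcc_of_le ht.1] at hs
  rw [h6 s ⟨hs.1, hs.2.trans ht.2⟩]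

end sol

end Pool.Agent.R211.SV
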