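import Pool.Agent.R211.SV.Loc3

/-!
Local existence: the states with values in a weighted `ℓ¹` space, and their smoothness in time.
-/

set_option autoImplicit false
set_option linter.unusedSectionVars false

open Set Filter Topology MeasureTheory
open scoped ENNReal Interval ComplexConjugate ContDiff

namespace Pool.Agent.R211.SV

open Pool.Agent.Y302.Trunc (K3)
open Pool.Agent.Y302.Tri

/-- The coordinates of a sequence. -/
noncomputable def coordX (x : K3 × Fin 3) : XA ℂ →L[ℝ] ℂ :=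
  LinearMap.mkContinuous
    ({ toFun := fun W => W x
       map_add' := fun _ _ => rfl
       map_smul' := fun _ _ => rfl } : XA ℂ →ₗ[ℝ] ℂ) 1 fun W => by
    rw [one_mul]
    exact lp.norm_apply_le_norm one_ne_zero W x

lemma coordX_apply (x : K3 × Fin 3) (W : XA ℂ) : coordX x W = W x := rfl

lemma norm_coordX_le (x : K3 × Fin 3) : ‖coordX x‖ ≤ 1 :=
  LinearMap.mkContinuous_norm_le _ zero_le_one _

/-- Multiplication operators. -/
noncomputable def mulX (m : K3 → ℝ) {C : ℝ} (hm : ∀ k, |m k| ≤ C) : XA ℂ →L[ℝ] XA ℂ :=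
  LinearMap.mkContinuous
    ({ toFun := fun W => ⟨fun x => (m x.1 : ℂ) * W x, memℓ1_iff.2 (by
          refine Summable.of_nonneg_of_le (fun _ => norm_nonneg _) (fun x => ?_)
            ((summable_XA W).mul_left C)
          rw [norm_mul, Complex.norm_real, Real.norm_eq_abs]
          exact mul_le_mul_of_nonneg_right (hm _) (norm_nonneg _))⟩
       map_add' := fun W W' => by
          ext x
          exact mul_add _ _ _
       map_smul' := fun c W => by
          ext x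
          have e : (m x.1 : ℂ) * ((c : ℂ) * W x) = (c : ℂ) * ((m x.1 : ℂ) * W x) := by ring
          exact e } : XA ℂ →ₗ[ℝ] XA ℂ) C fun W => by
    rw [norm_XA, norm_XA, ← tsum_mul_left]
    have h : ∀ x, ‖(m x.1 : ℂ) * W x‖ ≤ C * ‖W x‖ := fun x => by
      rw [norm_mul, Complex.norm_real, Real.norm_eq_abs]
      exact mul_le_mul_of_nonneg_right (hm _) (norm_nonneg _)
    exact (Summable.of_nonneg_of_le (fun _ => norm_nonneg _) h
      ((summable_XA W).mul_left C)).tsum_le_tsum h ((summable_XA W).mul_left C)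

lemma mulX_apply (m : K3 → ℝ) {C : ℝ} (hm : ∀ k, |m k| ≤ C) (W : XA ℂ) (x : K3 × Fin 3) :
    mulX m hm W x = (m x.1 : ℂ) * W x := rfl

lemma mul_exp_neg_le {e : ℝ} (he : 0 < e) {y : ℝ} (hy : 0 ≤ y) : y * Real.exp (-(e * y)) ≤ 1 / e := by
  have h1 : e * y ≤ Real.exp (e * y) := by
    have := Real.add_one_le_exp (e * y)
    linarith
  have h2 : Real.exp (e * y) * Real.exp (-(e * y)) = 1 := by
    rw [← Real.exp_add]; simp
  rw [le_div_iff₀ he]
  have h3 := mul_le_mul_of_nonneg_right h1 (Real.exp_pos (-(e * y))).le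
  nlinarith

/-- The kernel of the nonlinear term on the weighted sequences. -/
noncomputable def ker2 {r' e : ℝ} (hr' : 0 ≤ r') (he : 0 < e) : Ker ℂ where
  R k q := (Real.exp (-(r' * (N1 (k - q) + N1 q - N1 k))) : ℂ)
  L k i j m := ContinuousLinearMap.mul ℝ ℂ
    (Complex.I * (k m : ℂ) * (Pj k i j : ℂ) * (Real.exp (-(e * N1 k)) : ℂ))
  c := 1 / e
  R_le k q := by
    rw [Complex.norm_real, Real.norm_eq_abs, abs_of_pos (Real.exp_pos _), Real.exp_le_one_iff]
    have h1 := N1_sub_le k q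
    nlinarith
  L_le k i j m := by
    refine (ContinuousLinearMap.opNorm_mul_apply_le ℝ ℂ _).trans ?_
    rw [norm_mul, norm_mul, norm_mul, Complex.norm_I, one_mul, Complex.norm_intCast,
      Complex.norm_real, Complex.norm_real, Real.norm_eq_abs, Real.norm_eq_abs,
      abs_of_pos (Real.exp_pos _)]
    calc |(k m : ℝ)| * |Pj k i j| * Real.exp (-(e * N1 k))
        ≤ N1 k * 1 * Real.exp (-(e * N1 k)) :=
          mul_le_mul_of_nonneg_right (mul_le_mul (abs_le_N1 k m) (abs_Pj_le k i j) (abs_nonneg _)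
            (N1_nonneg k)) (Real.exp_pos _).le
      _ = N1 k * Real.exp (-(e * N1 k)) := by ring
      _ ≤ 1 / e := mul_exp_neg_le he (N1_nonneg k)

section state

variable {τ ρ σ : ℝ} {d : K3 → ℝ} {a0 : K3 × Fin 3 → ℂ} (F : FixD τ ρ σ d a0)

lemma FixD.norm_wt_le {r : ℝ} (hr : r ≤ ρ / 2) (x : K3 × Fin 3) (t : ℝ) :
    ‖(Real.exp (r * N1 x.1) : ℂ) * F.uh x t‖ ≤ ‖F.V x‖ := by
  rw [norm_mul, Complex.norm_real, Real.norm_eq_abs, abs_of_pos (Real.exp_pos _)]
  calc Real.exp (r * N1 x.1) * ‖F.uh x t‖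
      ≤ Real.exp (ρ / 2 * N1 x.1) * (Real.exp (-(ρ / 2 * N1 x.1)) * ‖F.V x‖) := by
        refine mul_le_mul (Real.exp_le_exp.2 ?_) (F.norm_uh_le x t) (norm_nonneg _)
          (Real.exp_pos _).le
        exact mul_le_mul_of_nonneg_right hr (N1_nonneg _)
    _ = ‖F.V x‖ := by
        rw [← mul_assoc, ← Real.exp_add]
        simp

/-- The states. -/
noncomputable def FixD.U {r : ℝ} (hr : r ≤ ρ / 2) (t : ℝ) : XA ℂ :=
  ⟨fun x => (Real.exp (r * N1 x.1) : ℂ) * F.uh x t, memℓ1_iff.2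
    (Summable.of_nonneg_of_le (fun _ => norm_nonneg _) (fun x => F.norm_wt_le hr x t)
      (summable_XA F.V))⟩

lemma FixD.U_apply {r : ℝ} (hr : r ≤ ρ / 2) (t : ℝ) (x : K3 × Fin 3) :
    F.U hr t x = (Real.exp (r * N1 x.1) : ℂ) * F.uh x t := rfl

lemma FixD.U_continuous {r : ℝ} (hr : r ≤ ρ / 2) : Continuous (F.U hr) := by
  refine continuous_iff_continuousAt.2 fun t₀ => ?_
  rw [ContinuousAt, tendsto_iff_norm_sub_tendsto_zero]
  have h1 : ∀ t, ‖F.U hr t - F.U hr t₀‖ = ∑' x, ‖F.U hr t x - F.U hr t₀ x‖ := fun t => norm_XA _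
  simp only [h1]
  have h2 : Tendsto (fun t => ∑' x, ‖F.U hr t x - F.U hr t₀ x‖) (𝓝 t₀)
      (𝓝 (∑' _ : K3 × Fin 3, (0 : ℝ))) := by
    refine tendsto_tsum_of_dominated_convergence ((summable_XA F.V).mul_left 2) (fun x => ?_)
      (Eventually.of_forall fun t x => ?_)
    · have h3 : Continuous fun t => F.U hr t x := continuous_const.mul (F.uh_continuous x)
      have h4 := (h3.sub continuous_const : Continuous fun t => F.U hr t x - F.U hr t₀ x).norm
      have h5 := h4.tendsto t₀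
      simpa using h5
    · rw [norm_norm]
      refine (norm_sub_le _ _).trans ?_
      have h3 := F.norm_wt_le hr x t
      have h4 := F.norm_wt_le hr x t₀
      rw [F.U_apply, F.U_apply]
      linarith
  rw [tsum_zero] at h2
  exact h2

lemma FixD.ker2_cvl {r' e : ℝ} (hr' : r' ≤ ρ / 2) (h0 : 0 ≤ r') (he : 0 < e) (k : K3)
    (j m : Fin 3) (t : ℝ) :
    (ker2 h0 he).cvl (F.U hr' t) (F.U hr' t) k j m = (Real.exp (r' * N1 k) : ℂ) * F.cc k j m t := by
  unfold Ker.cvl FixD.cc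
  rw [← tsum_mul_left]
  refine tsum_congr fun q => ?_
  rw [F.U_apply, F.U_apply]
  have e1 : (ker2 h0 he).R k q = (Real.exp (-(r' * (N1 (k - q) + N1 q - N1 k))) : ℂ) := rfl
  have e2 : Real.exp (-(r' * (N1 (k - q) + N1 q - N1 k))) * Real.exp (r' * N1 (k - q))
      * Real.exp (r' * N1 q) = Real.exp (r' * N1 k) := by
    rw [← Real.exp_add, ← Real.exp_add]
    congr 1
    ring
  have e3 : (Real.exp (-(r' * (N1 (k - q) + N1 q - N1 k))) : ℂ)
      * (Real.exp (r' * N1 (k - q)) : ℂ) * (Real.exp (r' * N1 q) : ℂ)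
      = (Real.exp (r' * N1 k) : ℂ) := by
    exact_mod_cast congrArg (fun r : ℝ => (r : ℂ)) e2
  rw [e1]
  linear_combination (F.uh (k - q, m) t * F.uh (q, j) t) * e3

lemma FixD.ker2_B {r e : ℝ} (hr' : r + e ≤ ρ / 2) (h0 : 0 ≤ r + e) (he : 0 < e) (x : K3 × Fin 3)
    (t : ℝ) :
    (ker2 h0 he).B (F.U hr' t) (F.U hr' t) x = (Real.exp (r * N1 x.1) : ℂ) * F.nh x t := by
  rw [Ker.B_apply]
  unfold Ker.fn FixD.nh
  rw [Finset.mul_sum]
  refine Finset.sum_congr rfl fun j _ => ?_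
  rw [Finset.mul_sum]
  refine Finset.sum_congr rfl fun m _ => ?_
  rw [F.ker2_cvl]
  have e1 : ∀ z, (ker2 h0 he).L x.1 x.2 j m z
      = (Complex.I * (x.1 m : ℂ) * (Pj x.1 x.2 j : ℂ) * (Real.exp (-(e * N1 x.1)) : ℂ)) * z :=
    fun _ => rfl
  have e2 : Real.exp (-(e * N1 x.1)) * Real.exp ((r + e) * N1 x.1) = Real.exp (r * N1 x.1) := by
    rw [← Real.exp_add]
    congr 1
    ring
  have e3 : (Real.exp (-(e * N1 x.1)) : ℂ) * (Real.exp ((r + e) * N1 x.1) : ℂ)
      = (Real.exp (r * N1 x.1) : ℂ) := by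
    exact_mod_cast congrArg (fun r : ℝ => (r : ℂ)) e2
  rw [e1]
  linear_combination (Complex.I * (x.1 m : ℂ) * (Pj x.1 x.2 j : ℂ) * F.cc x.1 j m t) * e3

/-- The right hand side. -/
noncomputable def FixD.G {r e C : ℝ} (hr' : r + e ≤ ρ / 2) (h0 : 0 ≤ r + e) (he : 0 < e)
    (hC : ∀ k, |d k * Real.exp (-(e * N1 k))| ≤ C) (t : ℝ) : XA ℂ :=
  -mulX (fun k => d k * Real.exp (-(e * N1 k))) hC (F.U hr' t)
    - (ker2 h0 he).B (F.U hr' t) (F.U hr' t)

lemma FixD.G_apply {r e C : ℝ} (hr' : r + e ≤ ρ / 2) (h0 : 0 ≤ r + e) (he : 0 < e)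
    (hC : ∀ k, |d k * Real.exp (-(e * N1 k))| ≤ C) (t : ℝ) (x : K3 × Fin 3) :
    F.G hr' h0 he hC t x = (Real.exp (r * N1 x.1) : ℂ) * (-(d x.1 : ℂ) * F.uh x t - F.nh x t) := by
  have e1 : F.G hr' h0 he hC t x
      = -(mulX (fun k => d k * Real.exp (-(e * N1 k))) hC (F.U hr' t) x)
        - (ker2 h0 he).B (F.U hr' t) (F.U hr' t) x := rfl
  rw [e1, F.ker2_B, mulX_apply, F.U_apply]
  have e2 : Real.exp (-(e * N1 x.1)) * Real.exp ((r + e) * N1 x.1) = Real.exp (r * N1 x.1) := by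
    rw [← Real.exp_add]
    congr 1
    ring
  have e3 : (Real.exp (-(e * N1 x.1)) : ℂ) * (Real.exp ((r + e) * N1 x.1) : ℂ)
      = (Real.exp (r * N1 x.1) : ℂ) := by
    exact_mod_cast congrArg (fun r : ℝ => (r : ℂ)) e2
  push_cast
  push_cast at e3
  linear_combination (-(d x.1 : ℂ) * F.uh x t) * e3

lemma FixD.G_continuous {r e C : ℝ} (hr' : r + e ≤ ρ / 2) (h0 : 0 ≤ r + e) (he : 0 < e)
    (hC : ∀ k, |d k * Real.exp (-(e * N1 k))| ≤ C) : Continuous (F.G hr' h0 he hC) := by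
  have h1 := F.U_continuous hr'
  unfold FixD.G
  exact ((mulX _ hC).continuous.comp h1).neg.sub
    (((ker2 h0 he).B.continuous.comp h1).clm_apply h1)

lemma FixD.U_integral {r e C : ℝ} (hr : r ≤ ρ / 2) (hr' : r + e ≤ ρ / 2) (h0 : 0 ≤ r + e)
    (he : 0 < e) (hC : ∀ k, |d k * Real.exp (-(e * N1 k))| ≤ C) {t : ℝ} (ht : t ∈ Icc 0 τ) :
    F.U hr t = F.U hr 0 + ∫ s in (0 : ℝ)..t, F.G hr' h0 he hC s := by
  ext x
  have e1 : (F.U hr 0 + ∫ s in (0 : ℝ)..t, F.G hr' h0 he hC s : XA ℂ) x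
      = F.U hr 0 x + coordX x (∫ s in (0 : ℝ)..t, F.G hr' h0 he hC s) := rfl
  have hi : IntervalIntegrable (F.G hr' h0 he hC) volume 0 t :=
    (F.G_continuous hr' h0 he hC).intervalIntegrable _ _
  rw [e1, ← ContinuousLinearMap.intervalIntegral_comp_comm _ hi]
  simp only [coordX_apply, F.G_apply]
  rw [intervalIntegral.integral_const_mul, ← F.uh_int x ht, F.U_apply, F.U_apply, F.uh_zero]
  ring

lemma FixD.U_hasDeriv {r e C : ℝ} (hr : r ≤ ρ / 2) (hr' : r + e ≤ ρ / 2) (h0 : 0 ≤ r + e)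
    (he : 0 < e) (hC : ∀ k, |d k * Real.exp (-(e * N1 k))| ≤ C) {t : ℝ} (ht : t ∈ Icc 0 τ) :
    HasDerivWithinAt (F.U hr) (F.G hr' h0 he hC t) (Icc 0 τ) t := by
  have hc := F.G_continuous hr' h0 he hC
  have h1 : HasDerivAt (fun t => F.U hr 0 + ∫ s in (0 : ℝ)..t, F.G hr' h0 he hC s)
      (F.G hr' h0 he hC t) t :=
    (intervalIntegral.integral_hasDerivAt_right (hc.intervalIntegrable _ _)
        hc.stronglyMeasurable.stronglyMeasurableAtFilter hc.continuousAt).const_add _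
  exact h1.hasDerivWithinAt.congr (fun s hs => F.U_integral hr hr' h0 he hC hs)
    (F.U_integral hr hr' h0 he hC ht)

/-- Subexponential growth of the symbol. -/
def Subexp (d : K3 → ℝ) : Prop := ∀ e > 0, ∃ C, ∀ k, |d k| ≤ C * Real.exp (e * N1 k)

lemma Subexp.bound (h : Subexp d) {e : ℝ} (he : 0 < e) :
    ∃ C, ∀ k, |d k * Real.exp (-(e * N1 k))| ≤ C := by
  obtain ⟨C, hC⟩ := h e he
  refine ⟨C, fun k => ?_⟩
  rw [abs_mul, abs_of_pos (Real.exp_pos _)]
  have h1 := mul_le_mul_of_nonneg_right (hC k) (Real.exp_pos (-(e * N1 k))).le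
  rw [mul_assoc, ← Real.exp_add] at h1
  simpa using h1

/-- Smoothness in time. -/
theorem FixD.U_contDiffOn (hτ0 : 0 < τ) (hs : Subexp d) (n : ℕ) : ∀ {r : ℝ} (_ : 0 ≤ r)
    (hr : r ≤ ρ / 2) (_ : r < ρ / 2), ContDiffOn ℝ n (F.U hr) (Icc 0 τ) := by
  induction n with
  | zero =>
    intro r _ hr _
    exact contDiffOn_zero.2 (F.U_continuous hr).continuousOn
  | succ n ih =>
    intro r hr0 hr hr1
    have he : 0 < (ρ / 2 - r) / 2 := by linarith
    obtain ⟨C, hC⟩ := hs.bound he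
    have hr' : r + (ρ / 2 - r) / 2 ≤ ρ / 2 := by linarith
    have h0 : 0 ≤ r + (ρ / 2 - r) / 2 := by linarith
    have hd : ∀ t ∈ Icc 0 τ, HasDerivWithinAt (F.U hr) (F.G hr' h0 he hC t) (Icc 0 τ) t :=
      fun t ht => F.U_hasDeriv hr hr' h0 he hC ht
    have hu : UniqueDiffOn ℝ (Icc 0 τ) := uniqueDiffOn_Icc hτ0
    have hih := ih h0 hr' (by linarith)
    push_cast
    rw [contDiffOn_succ_iff_derivWithin hu]
    refine ⟨fun t ht => (hd t ht).differentiableWithinAt, fun h => ?_, ?_⟩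
    · exact absurd h (by simp)
    · have h1 : ContDiffOn ℝ n (F.G hr' h0 he hC) (Icc 0 τ) := by
        unfold FixD.G
        refine ContDiffOn.sub ((mulX _ hC).contDiff.comp_contDiffOn hih).neg ?_
        exact ((ker2 h0 he).B.contDiff.comp_contDiffOn hih).clm_apply hih
      exact h1.congr fun t ht => (hd t ht).derivWithin (hu t ht)

end state

end Pool.Agent.R211.SV
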