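import Pool.Agent.R211.SV.Loc4
import Pool.Agent.R211.SV.Energy
import Pool.Agent.H459R3.NS.Ser

/-!
Local existence: fields given by exponentially convergent Fourier series.
-/

set_option autoImplicit false
set_option linter.unusedSectionVars false

open Set Filter Topology MeasureTheory
open scoped ENNReal Interval ComplexConjugate ContDiff

namespace Pool.Agent.R211.SV

open Pool.Agent.H708R2.EulerSign (V Periodic3 Dom divergence)
open Pool.Agent.H708R2.EulerModes
open Pool.Agent.Y302.Trunc (K3 resc norm_iter_sin norm_iter_cos sin_smul_contDiff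
  cos_smul_contDiff ph_resc)
open Pool.Agent.Y302.Tri

/-! ### Summability -/

lemma summable_exp_int {s : ℝ} (hs : 0 < s) : Summable fun n : ℤ => Real.exp (-(s * |(n : ℝ)|)) := by
  have h : Summable fun n : ℕ => Real.exp (-(s * n)) := by
    have := Real.summable_exp_nat_mul_of_ge (c := -s) (by linarith) (f := fun n => (n : ℝ))
      (fun i => le_rfl)
    refine this.congr fun n => ?_
    congr 1
    ring
  refine Summable.of_nat_of_neg ?_ ?_
  · refine h.congr fun n => ?_
    simp
  · refine h.congr fun n => ?_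
    simp

lemma summable_exp {s : ℝ} (hs : 0 < s) : Summable fun k : K3 => Real.exp (-(s * N1 k)) := by
  have h := summable_prod3 (summable_exp_int hs) (fun n => (Real.exp_pos _).le)
  refine h.congr fun k => ?_
  rw [← Real.exp_add, ← Real.exp_add]
  congr 1
  unfold N1
  rw [Fin.sum_univ_three]
  ring

lemma pow_mul_exp_le {s : ℝ} (hs : 0 < s) (n : ℕ) {y : ℝ} (hy : 0 ≤ y) :
    y ^ n * Real.exp (-(s * y)) ≤ n.factorial / (s / 2) ^ n * Real.exp (-(s / 2 * y)) := by
  have h1 := Real.pow_div_factorial_le_exp (s / 2 * y) (by positivity) n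
  have h2 : y ^ n ≤ n.factorial / (s / 2) ^ n * Real.exp (s / 2 * y) := by
    rw [div_le_iff₀ (by positivity), mul_pow] at h1
    rw [div_mul_eq_mul_div, le_div_iff₀ (by positivity)]
    linarith
  have h3 : Real.exp (s / 2 * y) * Real.exp (-(s * y)) = Real.exp (-(s / 2 * y)) := by
    rw [← Real.exp_add]
    congr 1
    ring
  calc y ^ n * Real.exp (-(s * y))
      ≤ (n.factorial / (s / 2) ^ n * Real.exp (s / 2 * y)) * Real.exp (-(s * y)) :=
        mul_le_mul_of_nonneg_right h2 (Real.exp_pos _).le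
    _ = _ := by rw [mul_assoc, h3]

lemma summable_pow_exp {s : ℝ} (hs : 0 < s) (n : ℕ) :
    Summable fun k : K3 => N1 k ^ n * Real.exp (-(s * N1 k)) :=
  Summable.of_nonneg_of_le (fun k => mul_nonneg (pow_nonneg (N1_nonneg k) n) (Real.exp_pos _).le)
    (fun k => pow_mul_exp_le hs n (N1_nonneg k)) ((summable_exp (half_pos hs)).mul_left _)

/-! ### Synthesis -/

/-- The real and imaginary parts of the coordinates. -/
noncomputable def rX (x : K3 × Fin 3) : XA ℂ →L[ℝ] ℝ := Complex.reCLM.comp (coordX x)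

/-- The real and imaginary parts of the coordinates. -/
noncomputable def iX (x : K3 × Fin 3) : XA ℂ →L[ℝ] ℝ := Complex.imCLM.comp (coordX x)

lemma norm_rX_le (x : K3 × Fin 3) : ‖rX x‖ ≤ 1 := by
  refine (ContinuousLinearMap.opNorm_comp_le _ _).trans ?_
  rw [Complex.reCLM_norm, one_mul]
  exact norm_coordX_le x

lemma norm_iX_le (x : K3 × Fin 3) : ‖iX x‖ ≤ 1 := by
  refine (ContinuousLinearMap.opNorm_comp_le _ _).trans ?_
  rw [Complex.imCLM_norm, one_mul]
  exact norm_coordX_le x

variable {r : ℝ}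

/-- The contribution of a frequency to the evaluation at a point. -/
noncomputable def emode (r : ℝ) (i : Fin 3) (k : K3) (x : V) : XA ℂ →L[ℝ] ℝ :=
  Real.cos (ph k x) • (Real.exp (-(r * N1 k)) • rX (k, i))
    - Real.sin (ph k x) • (Real.exp (-(r * N1 k)) • iX (k, i))

lemma emode_contDiff (i : Fin 3) (k : K3) : ContDiff ℝ ∞ (emode r i k) :=
  (cos_smul_contDiff k _).sub (sin_smul_contDiff k _)

lemma norm_emode_le (i : Fin 3) (k : K3) (n : ℕ) (x : V) :
    ‖iteratedFDeriv ℝ n (emode r i k) x‖ ≤ 2 * (N1 k ^ n * Real.exp (-(r * N1 k))) := by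
  have e : emode r i k = (fun x => Real.cos (ph k x) • (Real.exp (-(r * N1 k)) • rX (k, i)))
      - fun x => Real.sin (ph k x) • (Real.exp (-(r * N1 k)) • iX (k, i)) := rfl
  have h1 : ContDiff ℝ n
      (fun x : V => Real.cos (ph k x) • (Real.exp (-(r * N1 k)) • rX (k, i))) :=
    (cos_smul_contDiff k _).of_le (by exact_mod_cast le_top)
  have h2 : ContDiff ℝ n
      (fun x : V => Real.sin (ph k x) • (Real.exp (-(r * N1 k)) • iX (k, i))) :=
    (sin_smul_contDiff k _).of_le (by exact_mod_cast le_top)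
  rw [e, iteratedFDeriv_sub_apply h1.contDiffAt h2.contDiffAt]
  refine (norm_sub_le _ _).trans ?_
  have h3 := norm_iter_cos k (Real.exp (-(r * N1 k)) • rX (k, i)) n x
  have h4 := norm_iter_sin k (Real.exp (-(r * N1 k)) • iX (k, i)) n x
  have h5 : ‖Real.exp (-(r * N1 k)) • rX (k, i)‖ ≤ Real.exp (-(r * N1 k)) := by
    rw [norm_smul, Real.norm_eq_abs, abs_of_pos (Real.exp_pos _)]
    calc _ ≤ Real.exp (-(r * N1 k)) * 1 :=
          mul_le_mul_of_nonneg_left (norm_rX_le _) (Real.exp_pos _).le
      _ = _ := mul_one _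
  have h6 : ‖Real.exp (-(r * N1 k)) • iX (k, i)‖ ≤ Real.exp (-(r * N1 k)) := by
    rw [norm_smul, Real.norm_eq_abs, abs_of_pos (Real.exp_pos _)]
    calc _ ≤ Real.exp (-(r * N1 k)) * 1 :=
          mul_le_mul_of_nonneg_left (norm_iX_le _) (Real.exp_pos _).le
      _ = _ := mul_one _
  have hN : 0 ≤ (∑ j, |(k j : ℝ)|) ^ n := pow_nonneg (N1_nonneg k) n
  have h7 := mul_le_mul_of_nonneg_left h5 hN
  have h8 := mul_le_mul_of_nonneg_left h6 hN
  unfold N1 at *
  linarith

lemma norm_emode_le0 (i : Fin 3) (k : K3) (x : V) :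
    ‖emode r i k x‖ ≤ 2 * Real.exp (-(r * N1 k)) := by
  have := norm_emode_le (r := r) i k 0 x
  rwa [norm_iteratedFDeriv_zero, pow_zero, one_mul] at this

/-- The evaluation of a component of the field at a point. -/
noncomputable def eX (r : ℝ) (i : Fin 3) (x : V) : XA ℂ →L[ℝ] ℝ := ∑' k, emode r i k x

lemma eX_contDiff (hr : 0 < r) (i : Fin 3) : ContDiff ℝ ∞ (eX r i) := by
  unfold eX
  refine contDiff_tsum (v := fun n k => 2 * (N1 k ^ n * Real.exp (-(r * N1 k))))
    (fun k => emode_contDiff i k) (fun n _ => (summable_pow_exp hr n).mul_left 2)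
    (fun n k x _ => norm_emode_le i k n x)

lemma summable_emode (hr : 0 < r) (i : Fin 3) (x : V) : Summable fun k => emode r i k x := by
  refine Summable.of_norm (Summable.of_nonneg_of_le (fun _ => norm_nonneg _)
    (fun k => norm_emode_le0 i k x) ?_)
  exact (summable_exp hr).mul_left 2

lemma emode_apply (i : Fin 3) (k : K3) (x : V) (W : XA ℂ) :
    emode r i k x W = ((Real.exp (-(r * N1 k)) : ℂ) * W (k, i)
      * Complex.exp ((ph k x : ℂ) * Complex.I)).re := by
  have e : emode r i k x W = Real.cos (ph k x) * (Real.exp (-(r * N1 k)) * (W (k, i)).re)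
      - Real.sin (ph k x) * (Real.exp (-(r * N1 k)) * (W (k, i)).im) := rfl
  rw [e, Complex.mul_re, Complex.exp_ofReal_mul_I_re, Complex.exp_ofReal_mul_I_im,
    Complex.re_ofReal_mul, Complex.im_ofReal_mul]
  ring

/-- The unweighted coefficients. -/
noncomputable def bX (r : ℝ) (i : Fin 3) (W : XA ℂ) (k : K3) : ℂ :=
  (Real.exp (-(r * N1 k)) : ℂ) * W (k, i)

lemma summable_bX (hr : 0 < r) (i : Fin 3) (W : XA ℂ) : Summable (bX r i W) := by
  refine Summable.of_norm (Summable.of_nonneg_of_le (fun _ => norm_nonneg _) (fun k => ?_)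
    ((summable_exp hr).mul_right ‖W‖))
  unfold bX
  rw [norm_mul, Complex.norm_real, Real.norm_eq_abs, abs_of_pos (Real.exp_pos _)]
  exact mul_le_mul_of_nonneg_left (lp.norm_apply_le_norm one_ne_zero W (k, i)) (Real.exp_pos _).le

lemma hasSum_eX (hr : 0 < r) (i : Fin 3) (x : V) (W : XA ℂ) :
    HasSum (fun k => (bX r i W k * Complex.exp ((ph k x : ℂ) * Complex.I)).re) (eX r i x W) := by
  have h := (ContinuousLinearMap.apply ℝ ℝ W).hasSum (summable_emode hr i x).hasSum
  refine h.congr_fun fun k => ?_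
  exact (emode_apply i k x W).symm

lemma ee_eq (k : K3) (y : V) : H459R3.NS.ee k y
    = Complex.exp ((ph k ((2 * Real.pi) • y) : ℂ) * Complex.I) := by
  rw [ph_resc]
  unfold H459R3.NS.ee
  congr 1
  push_cast
  ring

/-- Symmetric coefficients. -/
def ConjSym (W : XA ℂ) : Prop := ∀ x, conj (W (-x.1, x.2)) = W x

/-- The coefficients of the field. -/
lemma cf_eX (hr : 0 < r) (i : Fin 3) {W : XA ℂ} (hW : ConjSym W) (k : K3) :
    cf (fun x => eX r i x W) k = bX r i W k := by
  have hb := summable_bX hr i W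
  have h1 : ∀ y, resc (fun x => eX r i x W) y = H459R3.NS.S (bX r i W) y := by
    intro y
    have h2 := H459R3.NS.summable_term hb y
    have h3 := hasSum_eX hr i ((2 * Real.pi) • y) W
    have h4 : HasSum (fun k => (bX r i W k * H459R3.NS.ee k y).re)
        (H459R3.NS.S (bX r i W) y).re := Complex.hasSum_re h2.hasSum
    simp only [ee_eq] at h4
    have h5 := h3.unique h4
    have h6 : conj (H459R3.NS.S (bX r i W) y) = H459R3.NS.S (bX r i W) y := by
      unfold H459R3.NS.S
      rw [Complex.conj_tsum, ← (Equiv.neg K3).tsum_eq]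
      refine tsum_congr fun q => ?_
      simp only [Equiv.neg_apply]
      rw [map_mul, ← H459R3.NS.ee_neg, neg_neg]
      congr 1
      unfold bX
      have h7 := hW (q, i)
      simp only at h7
      rw [map_mul, Complex.conj_ofReal, h7, N1_neg]
    have h8 := Complex.conj_eq_iff_re.1 h6
    rw [← h8, ← h5]
    rfl
  unfold cf H459R3.NS.fc
  simp only [h1]
  have := H459R3.NS.integral_ee_S (-k) hb
  rw [neg_neg] at this
  exact this

lemma eX_periodic (hr : 0 < r) (i : Fin 3) (W : XA ℂ) : Periodic3 (fun x => eX r i x W) := by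
  intro j x
  have h : ∀ k, emode r i k (x + Pi.single j (2 * Real.pi)) = emode r i k x := by
    intro k
    have h1 := cos_periodic k j x
    have h2 := sin_periodic k j x
    simp only at h1 h2
    unfold emode
    rw [h1, h2]
  simp only [eX]
  simp only [h]

end Pool.Agent.R211.SV
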