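import Pool.Agent.R211.SV.Sym2

/-!
The Fourier coefficients of invariant fields at the frequencies of the chain.
-/

set_option autoImplicit false

open Set Filter Topology MeasureTheory
open scoped ComplexConjugate

namespace Pool.Agent.R211.SV

open Pool.Agent.H708R2.EulerSign (V Periodic3 Dom divergence)
open Pool.Agent.H708R2.EulerModes
open Pool.Agent.Y302.Trunc
open Pool.Agent.Y302.Tri

/-- The base frequencies. -/
def v0 : ℕ → Z3
  | 0 => (1, 1, 3)
  | 1 => (2, 0, 6)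
  | 2 => (4, 6, 6)
  | 3 => (8, 12, 0)
  | _ => (0, 0, 0)

lemma v0_mem {i : ℕ} (hi : i < 4) : v0 i ∈ L i := by
  interval_cases i <;> decide

lemma orbit0 : ∀ i < 4, ∀ v ∈ L i, ∃ σ : Equiv.Perm (Fin 3), ∃ s : Fin 3 → Bool,
    ∀ p : Fin 3, co p v = (if s p then 1 else -1) * co (σ p) (v0 i) := by
  decide +kernel

lemma orbit {i : ℕ} (hi : i < 4) {v : Z3} (hv : v ∈ L i) :
    ∃ (e : Fin 3 → ℤ) (σ : Equiv.Perm (Fin 3)), IsSign e ∧ toK v = actK e σ (toK (v0 i)) := by
  obtain ⟨σ, s, h⟩ := orbit0 i hi v hv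
  refine ⟨fun p => if s p then 1 else -1, σ, fun p => ?_, funext fun p => h p⟩
  by_cases hp : s p <;> simp [hp]

lemma actK_smul (e : Fin 3 → ℤ) (σ : Equiv.Perm (Fin 3)) (s : ℤ) (k : K3) :
    actK e σ (s • k) = s • actK e σ k := by
  funext i
  simp only [actK, Pi.smul_apply, smul_eq_mul]
  ring

/-- The base frequency of level `n`. -/
def l0 (M n : ℕ) : K3 := sg M n • toK (v0 (n % 4))

variable {M : ℕ}

lemma l0_mem (hM : 0 < M) (n : ℕ) : l0 M n ∈ Lev M n :=
  (mem_Lev hM).2 (v0_mem (Nat.mod_lt _ (by norm_num)))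

lemma am_l0 (hM : 0 < M) (n : ℕ) (p : Fin 3) : am M n (l0 M n) p = f (n % 4) (co p (v0 (n % 4))) :=
  am_smul hM n _ p

lemma orbitLev (hM : 0 < M) {n : ℕ} {l : K3} (hl : l ∈ Lev M n) :
    ∃ (e : Fin 3 → ℤ) (σ : Equiv.Perm (Fin 3)), IsSign e ∧ l = actK e σ (l0 M n) ∧
      ∀ p, am M n l p = e p * am M n (l0 M n) (σ p) := by
  obtain ⟨v, hv, rfl⟩ := exists_of_mem_Lev hl
  have hi : n % 4 < 4 := Nat.mod_lt _ (by norm_num)
  obtain ⟨e, σ, he, h⟩ := orbit hi hv
  refine ⟨e, σ, he, by rw [l0, actK_smul, ← h], fun p => ?_⟩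
  rw [am_smul hM, am_l0 hM]
  have h1 : co p v = e p * co (σ p) (v0 (n % 4)) := congrFun h p
  rw [h1]
  rcases he p with h2 | h2
  · rw [h2, one_mul, one_mul]
  · rw [h2, neg_one_mul, neg_one_mul, f_neg]

/-- The amplitude on level `n`. -/
noncomputable def xn (M : ℕ) (v : V → V) (n : ℕ) : ℝ :=
  -(cv v 0 (l0 M n)).im / (am M n (l0 M n) 0 : ℝ)

section inv

variable {v : V → V}

lemma cv_neg_inv (hc : Continuous v) (hp : Periodic3 v) (hv : InvField v) (k : K3) (i : Fin 3) :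
    cv v i (-k) = -cv v i k := by
  have he : IsSign (fun _ => -1) := fun _ => Or.inr rfl
  have h := cv_act (σ := 1) hc hp hv he k i
  have e1 : actK (fun _ => -1) 1 k = -k := by
    funext p
    simp [actK]
  rw [e1] at h
  rw [h]
  simp

lemma cv_zero_inv (hc : Continuous v) (hp : Periodic3 v) (hv : InvField v) (i : Fin 3) :
    cv v i 0 = 0 := by
  have h := cv_neg_inv hc hp hv 0 i
  rw [neg_zero] at h
  have h2 : (2 : ℂ) * cv v i 0 = 0 := by linear_combination h
  exact (mul_eq_zero.1 h2).resolve_left two_ne_zero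

lemma cv_re_inv (hc : Continuous v) (hp : Periodic3 v) (hv : InvField v) (k : K3) (i : Fin 3) :
    (cv v i k).re = 0 := by
  have h1 := cv_neg_inv hc hp hv k i
  have h2 := cv_conj v i k
  rw [h1] at h2
  have h3 := congrArg Complex.re h2
  rw [Complex.conj_re, Complex.neg_re] at h3
  linarith

/-- The coefficients at the base frequency. -/
lemma cv_l0 (hM : 0 < M) (hv1 : ContDiff ℝ 1 v) (hp : Periodic3 v)
    (hd : ∀ x, divergence v x = 0) (hv : InvField v) (n : ℕ) (i : Fin 3) :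
    cv v i (l0 M n) = -Complex.I * (xn M v n : ℂ) * (am M n (l0 M n) i : ℂ) := by
  have hc := hv1.continuous
  have hdiv := cv_div hv1 hp hd (l0 M n)
  unfold dt at hdiv
  rw [Fin.sum_univ_three] at hdiv
  have hs := sg_pos hM n
  have hs' : (sg M n : ℂ) ≠ 0 := by exact_mod_cast hs.ne'
  have hre := cv_re_inv hc hp hv (l0 M n) 0
  have hx : cv v 0 (l0 M n) = -Complex.I * (xn M v n : ℂ) * (am M n (l0 M n) 0 : ℂ) := by
    have ha : (am M n (l0 M n) 0 : ℝ) ≠ 0 := by
      rw [am_l0 hM]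
      have h4 : n % 4 < 4 := Nat.mod_lt _ (by norm_num)
      generalize n % 4 = k at *
      interval_cases k <;> norm_num [f, v0, co]
    apply Complex.ext
    · rw [hre]
      simp
    · unfold xn
      push_cast
      have ha' : (am M n (l0 M n) 0 : ℂ) ≠ 0 := by exact_mod_cast ha
      have e1 : -Complex.I * (-((cv v 0 (l0 M n)).im : ℂ) / (am M n (l0 M n) 0 : ℂ))
          * (am M n (l0 M n) 0 : ℂ) = ((cv v 0 (l0 M n)).im : ℂ) * Complex.I := by
        field_simp
      rw [e1]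
      simp
  have hsw : ∀ (e : Fin 3 → ℤ) (σ : Equiv.Perm (Fin 3)), IsSign e → actK e σ (l0 M n) = l0 M n →
      ∀ i, cv v i (l0 M n) = (e i : ℂ) * cv v (σ i) (l0 M n) := by
    intro e σ he h i
    have := cv_act (σ := σ) hc hp hv he (l0 M n) i
    rwa [h] at this
  have hk : ∀ p : Fin 3, l0 M n p = sg M n * co p (v0 (n % 4)) := fun p => rfl
  rw [hk, hk, hk] at hdiv
  have hfix : ∀ (e : Fin 3 → ℤ) (σ : Equiv.Perm (Fin 3)),
      (∀ p : Fin 3, e p * co (σ p) (v0 (n % 4)) = co p (v0 (n % 4))) →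
      actK e σ (l0 M n) = l0 M n := by
    intro e σ h
    funext p
    rw [actK, hk, hk, ← h p]
    ring
  have h4 : n % 4 = 0 ∨ n % 4 = 1 ∨ n % 4 = 2 ∨ n % 4 = 3 := by omega
  rw [am_l0 hM] at hx ⊢
  rcases h4 with h4 | h4 | h4 | h4
  · rw [h4] at hdiv hfix hx ⊢
    have h01 := hsw (fun _ => 1) (Equiv.swap 0 1) (fun _ => Or.inl rfl) (hfix _ _ (by decide)) 1
    have e1 : (Equiv.swap (0 : Fin 3) 1) 1 = 0 := by decide
    rw [e1] at h01
    have d0 : co ((0 : Fin 3) : ℕ) (v0 0) = 1 := rfl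
    have d1 : co ((1 : Fin 3) : ℕ) (v0 0) = 1 := rfl
    have d2 : co ((2 : Fin 3) : ℕ) (v0 0) = 3 := rfl
    rw [d0, d1, d2] at hdiv
    rw [d0] at hx
    have f1 : f 0 1 = 3 := rfl
    have f3 : f 0 3 = -2 := rfl
    rw [f1] at hx
    push_cast at hdiv hx h01
    have hz : (sg M n : ℂ) * (cv v 0 (l0 M n) + cv v 1 (l0 M n) + 3 * cv v 2 (l0 M n)) = 0 := by
      linear_combination hdiv
    have hz' := (mul_eq_zero.1 hz).resolve_left hs'
    fin_cases i
    · show cv v 0 (l0 M n) = _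
      have e : co (((⟨0, by omega⟩ : Fin 3) : Fin 3) : ℕ) (v0 0) = 1 := rfl
      rw [e, f1]
      push_cast
      exact hx
    · show cv v 1 (l0 M n) = _
      have e : co (((⟨1, by omega⟩ : Fin 3) : Fin 3) : ℕ) (v0 0) = 1 := rfl
      rw [e, f1]
      push_cast
      linear_combination h01 + hx
    · show cv v 2 (l0 M n) = _
      have e : co (((⟨2, by omega⟩ : Fin 3) : Fin 3) : ℕ) (v0 0) = 3 := rfl
      rw [e, f3]
      push_cast
      linear_combination (1 / 3 : ℂ) * hz' - (1 / 3 : ℂ) * h01 - (2 / 3 : ℂ) * hx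
  · rw [h4] at hdiv hfix hx ⊢
    have h01 := hsw (fun p => if p = 1 then -1 else 1) 1 (fun p => by by_cases hp : p = 1 <;> simp [hp])
      (hfix _ _ (by decide)) 1
    have d0 : co ((0 : Fin 3) : ℕ) (v0 1) = 2 := rfl
    have d1 : co ((1 : Fin 3) : ℕ) (v0 1) = 0 := rfl
    have d2 : co ((2 : Fin 3) : ℕ) (v0 1) = 6 := rfl
    rw [d0, d1, d2] at hdiv
    rw [d0] at hx
    have f1 : f 1 2 = 3 := rfl
    have f2 : f 1 0 = 0 := rfl
    have f3 : f 1 6 = -1 := rfl
    rw [f1] at hx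
    have h01' : cv v 1 (l0 M n) = 0 := by
      simp only [if_true, Equiv.Perm.coe_one, id_eq] at h01
      push_cast at h01
      have h2 : (2 : ℂ) * cv v 1 (l0 M n) = 0 := by linear_combination h01
      exact (mul_eq_zero.1 h2).resolve_left two_ne_zero
    push_cast at hdiv hx
    have hz : (sg M n : ℂ) * (2 * cv v 0 (l0 M n) + 6 * cv v 2 (l0 M n)) = 0 := by
      linear_combination hdiv
    have hz' := (mul_eq_zero.1 hz).resolve_left hs'
    fin_cases i
    · show cv v 0 (l0 M n) = _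
      have e : co (((⟨0, by omega⟩ : Fin 3) : Fin 3) : ℕ) (v0 1) = 2 := rfl
      rw [e, f1]
      push_cast
      exact hx
    · show cv v 1 (l0 M n) = _
      have e : co (((⟨1, by omega⟩ : Fin 3) : Fin 3) : ℕ) (v0 1) = 0 := rfl
      rw [e, f2, h01']
      push_cast
      ring
    · show cv v 2 (l0 M n) = _
      have e : co (((⟨2, by omega⟩ : Fin 3) : Fin 3) : ℕ) (v0 1) = 6 := rfl
      rw [e, f3]
      push_cast
      linear_combination (1 / 6 : ℂ) * hz' - (1 / 3 : ℂ) * hx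
  · rw [h4] at hdiv hfix hx ⊢
    have h01 := hsw (fun _ => 1) (Equiv.swap 1 2) (fun _ => Or.inl rfl) (hfix _ _ (by decide)) 1
    have e1 : (Equiv.swap (1 : Fin 3) 2) 1 = 2 := by decide
    rw [e1] at h01
    have d0 : co ((0 : Fin 3) : ℕ) (v0 2) = 4 := rfl
    have d1 : co ((1 : Fin 3) : ℕ) (v0 2) = 6 := rfl
    have d2 : co ((2 : Fin 3) : ℕ) (v0 2) = 6 := rfl
    rw [d0, d1, d2] at hdiv
    rw [d0] at hx
    have f1 : f 2 4 = -3 := rfl
    have f3 : f 2 6 = 1 := rfl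
    rw [f1] at hx
    push_cast at hdiv hx h01
    have hz : (sg M n : ℂ) * (4 * cv v 0 (l0 M n) + 6 * cv v 1 (l0 M n)
        + 6 * cv v 2 (l0 M n)) = 0 := by
      linear_combination hdiv
    have hz' := (mul_eq_zero.1 hz).resolve_left hs'
    fin_cases i
    · show cv v 0 (l0 M n) = _
      have e : co (((⟨0, by omega⟩ : Fin 3) : Fin 3) : ℕ) (v0 2) = 4 := rfl
      rw [e, f1]
      push_cast
      exact hx
    · show cv v 1 (l0 M n) = _
      have e : co (((⟨1, by omega⟩ : Fin 3) : Fin 3) : ℕ) (v0 2) = 6 := rfl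
      rw [e, f3]
      push_cast
      linear_combination (1 / 12 : ℂ) * hz' + (1 / 2 : ℂ) * h01 - (1 / 3 : ℂ) * hx
    · show cv v 2 (l0 M n) = _
      have e : co (((⟨2, by omega⟩ : Fin 3) : Fin 3) : ℕ) (v0 2) = 6 := rfl
      rw [e, f3]
      push_cast
      linear_combination (1 / 12 : ℂ) * hz' - (1 / 2 : ℂ) * h01 - (1 / 3 : ℂ) * hx
  · rw [h4] at hdiv hfix hx ⊢
    have h01 := hsw (fun p => if p = 2 then -1 else 1) 1 (fun p => by by_cases hp : p = 2 <;> simp [hp])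
      (hfix _ _ (by decide)) 2
    have d0 : co ((0 : Fin 3) : ℕ) (v0 3) = 8 := rfl
    have d1 : co ((1 : Fin 3) : ℕ) (v0 3) = 12 := rfl
    have d2 : co ((2 : Fin 3) : ℕ) (v0 3) = 0 := rfl
    rw [d0, d1, d2] at hdiv
    rw [d0] at hx
    have f1 : f 3 8 = -3 := rfl
    have f2 : f 3 0 = 0 := rfl
    have f3 : f 3 12 = 2 := rfl
    rw [f1] at hx
    have h01' : cv v 2 (l0 M n) = 0 := by
      simp only [if_true, Equiv.Perm.coe_one, id_eq] at h01
      push_cast at h01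
      have h2 : (2 : ℂ) * cv v 2 (l0 M n) = 0 := by linear_combination h01
      exact (mul_eq_zero.1 h2).resolve_left two_ne_zero
    push_cast at hdiv hx
    have hz : (sg M n : ℂ) * (8 * cv v 0 (l0 M n) + 12 * cv v 1 (l0 M n)) = 0 := by
      linear_combination hdiv
    have hz' := (mul_eq_zero.1 hz).resolve_left hs'
    fin_cases i
    · show cv v 0 (l0 M n) = _
      have e : co (((⟨0, by omega⟩ : Fin 3) : Fin 3) : ℕ) (v0 3) = 8 := rfl
      rw [e, f1]
      push_cast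
      exact hx
    · show cv v 1 (l0 M n) = _
      have e : co (((⟨1, by omega⟩ : Fin 3) : Fin 3) : ℕ) (v0 3) = 12 := rfl
      rw [e, f3]
      push_cast
      linear_combination (1 / 12 : ℂ) * hz' - (2 / 3 : ℂ) * hx
    · show cv v 2 (l0 M n) = _
      have e : co (((⟨2, by omega⟩ : Fin 3) : Fin 3) : ℕ) (v0 3) = 0 := rfl
      rw [e, f2, h01']
      push_cast
      ring

/-- The coefficients at all frequencies of the chain. -/
theorem cv_Lev (hM : 0 < M) (hv1 : ContDiff ℝ 1 v) (hp : Periodic3 v)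
    (hd : ∀ x, divergence v x = 0) (hv : InvField v) {n : ℕ} {l : K3} (hl : l ∈ Lev M n)
    (i : Fin 3) : cv v i l = -Complex.I * (xn M v n : ℂ) * (am M n l i : ℂ) := by
  obtain ⟨e, σ, he, rfl, h⟩ := orbitLev hM hl
  rw [cv_act hv1.continuous hp hv he, cv_l0 hM hv1 hp hd hv, h]
  push_cast
  ring

end inv

end Pool.Agent.R211.SV
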