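import Pool.Agent.R211.SV.Der

/-!
The differential equations of the amplitudes.
-/

set_option autoImplicit false

open Set Filter Topology MeasureTheory
open scoped ComplexConjugate

namespace Pool.Agent.R211.SV

open Pool.Agent.H708R2.EulerSign (V Periodic3 Dom divergence contDiff_slice dom_bdd dom_meas
  dom_lt_top)
open Pool.Agent.H708R2.EulerModes
open Pool.Agent.Y302.Trunc
open Pool.Agent.Y302.Tri
open Pool.Agent.Y302.KP (Fc gc sr)

variable {M : ℕ} {d : K3 → ℝ} {T : ℝ} {u : ℝ → V → V} {p : ℝ → V → ℝ}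

lemma am_l0_zero_sq (hM : 0 < M) (n : ℕ) : (am M n (l0 M n) 0 : ℝ) ^ 2 = 9 := by
  rw [am_l0 hM]
  have h4 : n % 4 < 4 := Nat.mod_lt _ (by norm_num)
  generalize n % 4 = k at *
  interval_cases k <;> norm_num [f, v0, co]

lemma am_l0_zero_ne (hM : 0 < M) (n : ℕ) : (am M n (l0 M n) 0 : ℝ) ≠ 0 := by
  intro h
  have := am_l0_zero_sq hM n
  rw [h] at this
  norm_num at this

/-- Splitting of the Fourier coefficient of the convection term. -/
lemma cvt_split {v : V → V} (hM : 0 < M) (hv1 : ContDiff ℝ 1 v) (hp : Periodic3 v)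
    (hd : ∀ x, divergence v x = 0) (hv : InvField v) {l : K3} {j : ℕ} (hl : l ∈ Lev M j)
    (i : Fin 3) : cf (cvt v i) l = (-Complex.I * (((-Fc M j * xn M v (j - 1) ^ 2
        + gc M j * xn M v j * xn M v (j + 1)) * (am M j l i : ℝ)
        + pc j * xn M v (j - 1) ^ 2 * (l i : ℝ) : ℝ) : ℂ)) + ∑' q, Rt M v l i q := by
  have h1 := cvt_hasSum hv1 hp i l
  have h2 := St_sum hM hv1 hp hd hv hl i
  have hz : sz (cv v) 0 = 0 := by
    unfold sz
    exact Finset.sum_eq_zero fun i _ => by rw [cv_zero_inv hv1.continuous hp hv, norm_zero]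
  have h3 := ((Rt_bound hM hv1 hp hd hz hl).1 i).hasSum
  refine h1.unique ((h2.add h3).congr_fun fun q => ?_)
  unfold St Rt
  split_ifs <;> ring

/-- The equation for the amplitude on level `n`. -/
theorem xn_ode (hM : 0 < M) (hd0 : ∀ k, 0 ≤ d k) (hdi : InvSymbol d) (hu : IsSol d T u p)
    (h0 : InvField (u 0)) {t : ℝ} (ht : t ∈ Ioo 0 T) (n : ℕ) :
    ∃ x' g : ℝ, HasDerivAt (fun s => xn M (u s) n) x' t ∧
      x' = -d (l0 M n) * xn M (u t) n + Fc M n * xn M (u t) (n - 1) ^ 2
        - gc M n * xn M (u t) n * xn M (u t) (n + 1) + g ∧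
      |g| ≤ 1536 * (√(∑' k, Wf M (u t) k ^ 2) * √(∑' k, sz (cv (u t)) k ^ 2)) ∧
      |x'| ≤ ‖cf (fun x => derivWithin (fun s => u s x 0) (Ico 0 T) t) (l0 M n)‖ := by
  have htI : t ∈ Ico 0 T := ⟨ht.1.le, ht.2⟩
  have hut : ContDiff ℝ 1 (u t) := contDiff_slice hu.base.contDiffOn_u htI
  have hup := hu.base.periodic_u t htI
  have hud := hu.base.div_free t htI
  have hui := inv_preserved hd0 hdi hu h0 htI
  have hpt : ContDiff ℝ 1 (p t) := contDiff_slice hu.base.contDiffOn_p htI
  set l := l0 M n with hl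
  have hlm : l ∈ Lev M n := l0_mem hM n
  set a : Fin 3 → ℝ := fun i => (am M n l i : ℝ) with ha
  set D : Fin 3 → ℂ := fun i => cf (fun x => derivWithin (fun s => u s x i) (Ico 0 T) t) l with hD
  have hder : ∀ i, HasDerivAt (fun s => cv (u s) i l) (D i) t := fun i => hasDerivAt_cv hu.base ht l i
  have ha0 : a 0 ≠ 0 := am_l0_zero_ne hM n
  have ha02 : a 0 ^ 2 = 9 := am_l0_zero_sq hM n
  set x' : ℝ := -(D 0).im / a 0 with hx'
  have hxd : HasDerivAt (fun s => xn M (u s) n) x' t := by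
    have h1 : HasDerivAt (fun s => (cv (u s) 0 l).im) (D 0).im t :=
      Complex.imCLM.hasFDerivAt.comp_hasDerivAt t (hder 0)
    exact h1.neg.div_const (a 0)
  have hDx : ∀ i, D i = -Complex.I * (x' : ℂ) * (a i : ℂ) := by
    intro i
    have h1 : HasDerivAt (fun s => -Complex.I * (xn M (u s) n : ℂ) * (a i : ℂ))
        (-Complex.I * (x' : ℂ) * (a i : ℂ)) t :=
      ((hxd.ofReal_comp).const_mul (-Complex.I)).mul_const _
    refine (hder i).unique (h1.congr_of_eventuallyEq ?_)
    filter_upwards [Ioo_mem_nhds ht.1 ht.2] with s hs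
    have hsI : s ∈ Ico 0 T := ⟨hs.1.le, hs.2⟩
    have := cv_l0 hM (contDiff_slice hu.base.contDiffOn_u hsI) (hu.base.periodic_u s hsI)
      (hu.base.div_free s hsI) (inv_preserved hd0 hdi hu h0 hsI) n i
    rw [this]
    simp [ha, hl]
  set A2 : ℝ := ∑ i, a i ^ 2 with hA2
  have hA2g : 9 ≤ A2 := by
    rw [hA2, ← ha02]
    exact Finset.single_le_sum (f := fun i => a i ^ 2) (fun i _ => sq_nonneg _) (Finset.mem_univ 0)
  have horth : ∑ i, a i * (l i : ℝ) = 0 := by
    have h1 := am_orth hM hlm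
    have h2 : ((∑ p, am M n l p * l p : ℤ) : ℝ) = 0 := by rw [h1]; norm_num
    push_cast at h2
    exact h2
  -- the momentum equation
  have hmom : ∀ i, D i + Complex.I * (l i : ℂ) * cf (p t) l + cf (cvt (u t) i) l
      = -(d l : ℂ) * cv (u t) i l := by
    intro i
    have h1 := hu.momentum t htI l i
    have c1 := dtu_continuous hu.base htI i
    have c2 : Continuous (fun x => fderiv ℝ (p t) x (Pi.single i 1)) :=
      (hpt.continuous_fderiv one_ne_zero).clm_apply continuous_const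
    rw [cf_add (lin_continuous' hu.base htI i) (cvt_continuous hut i)] at h1
    have h2 : cf (lin (Ico 0 T) u p t i) l = D i + Complex.I * (l i : ℂ) * cf (p t) l := by
      have e : lin (Ico 0 T) u p t i = fun x => derivWithin (fun s => u s x i) (Ico 0 T) t
          + fderiv ℝ (p t) x (Pi.single i 1) := rfl
      rw [e, cf_add c1 c2, cf_pd (hu.base.periodic_p t htI) hpt]
    rw [← h1, ← h2]
  set X : ℕ → ℝ := fun m => xn M (u t) m with hX
  set g : ℝ := x' - (-d l * X n + Fc M n * X (n - 1) ^ 2 - gc M n * X n * X (n + 1)) with hg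
  have hgI : (g : ℂ) * (A2 : ℂ) * Complex.I = ∑ i, (a i : ℂ) * ∑' q, Rt M (u t) l i q := by
    have h1 : ∀ i, (a i : ℂ) * ∑' q, Rt M (u t) l i q
        = (a i : ℂ) * (-(d l : ℂ) * cv (u t) i l - D i) - (a i : ℂ) * ((l i : ℂ) *
          (Complex.I * cf (p t) l)) - (a i : ℂ) * (-Complex.I * (((-Fc M n * X (n - 1) ^ 2
        + gc M n * X n * X (n + 1)) * (a i)
        + pc n * X (n - 1) ^ 2 * (l i : ℝ) : ℝ) : ℂ)) := by
      intro i
      have h2 := cvt_split hM hut hup hud hui hlm i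
      have h3 := hmom i
      rw [h2] at h3
      simp only [hX, ha]
      linear_combination (am M n l i : ℂ) * h3
    have h5 : ∀ i, cv (u t) i l = -Complex.I * (X n : ℂ) * (a i : ℂ) := by
      intro i
      have := cv_l0 hM hut hup hud hui n i
      rw [← hl] at this
      rw [this]
      simp [ha, hX]
    simp only [h1, h5, hDx]
    have e1 : ((A2 : ℝ) : ℂ) = ∑ i, (a i : ℂ) ^ 2 := by
      rw [hA2]
      push_cast
      rfl
    have e2 : ∑ i, (a i : ℂ) * (l i : ℂ) = 0 := by
      exact_mod_cast congrArg (fun r : ℝ => (r : ℂ)) horth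
    rw [Fin.sum_univ_three] at e1 e2 ⊢
    rw [e1, hg]
    push_cast
    have hI := Complex.I_sq
    linear_combination (Complex.I * cf (p t) l - Complex.I * (pc n : ℂ) * (X (n - 1) : ℂ) ^ 2) * e2
  have hgb : |g| * A2 ≤ 3 * ∑ i, ‖∑' q, Rt M (u t) l i q‖ := by
    have h1 : ‖(g : ℂ) * (A2 : ℂ) * Complex.I‖ = |g| * A2 := by
      rw [norm_mul, norm_mul, Complex.norm_I, mul_one, Complex.norm_real, Complex.norm_real,
        Real.norm_eq_abs, Real.norm_eq_abs, abs_of_nonneg (by linarith : (0 : ℝ) ≤ A2)]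
    rw [← h1, hgI, Finset.mul_sum]
    refine (norm_sum_le _ _).trans (Finset.sum_le_sum fun i _ => ?_)
    rw [norm_mul, Complex.norm_real, Real.norm_eq_abs]
    refine mul_le_mul_of_nonneg_right ?_ (norm_nonneg _)
    have h2 := am_bd M n l i
    show |((am M n l i : ℤ) : ℝ)| ≤ 3
    exact_mod_cast h2
  have hz : sz (cv (u t)) 0 = 0 := by
    unfold sz
    exact Finset.sum_eq_zero fun i _ => by rw [cv_zero_inv hut.continuous hup hui, norm_zero]
  have hR := (Rt_bound hM hut hup hud hz hlm).2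
  refine ⟨x', g, hxd, by rw [hg]; ring, ?_, ?_⟩
  · have h1 : |g| * 9 ≤ |g| * A2 := mul_le_mul_of_nonneg_left hA2g (abs_nonneg _)
    linarith
  · rw [hx', abs_div, abs_neg]
    have h1 : |a 0| = 3 := by
      have : |a 0| ^ 2 = 3 ^ 2 := by rw [sq_abs, ha02]; norm_num
      exact (sq_eq_sq₀ (abs_nonneg _) (by norm_num)).1 this
    rw [h1]
    have h2 := Complex.abs_im_le_norm (D 0)
    have h3 := abs_nonneg (D 0).im
    have h4 : |(D 0).im| / 3 ≤ |(D 0).im| := by linarith
    exact h4.trans h2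

/-- Continuity of the amplitudes. -/
theorem xn_continuousOn (hu : Base (Ico 0 T) u p) (n : ℕ) :
    ContinuousOn (fun s => xn M (u s) n) (Ico 0 T) := by
  unfold xn
  exact ((Complex.continuous_im.comp_continuousOn (continuousOn_cv hu (l0 M n) 0)).neg).div_const _

end Pool.Agent.R211.SV
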