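import Pool.Agent.R211.SV.Quad

/-!
The quadratic term at the frequencies of the chain: interactions within the chain.
-/

set_option autoImplicit false

open Set Filter Topology MeasureTheory
open scoped ComplexConjugate

namespace Pool.Agent.R211.SV

open Pool.Agent.H708R2.EulerSign (V Periodic3 Dom divergence)
open Pool.Agent.H708R2.EulerModes
open Pool.Agent.Y302.Trunc
open Pool.Agent.Y302.Tri
open Pool.Agent.Y302.KP (Fc gc sr)

variable {M : ℕ} {v : V → V}

/-- Auxiliary sum over the levels. -/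
noncomputable def chS (M : ℕ) (v : V → V) (l w : K3) (N : ℕ) : ℝ :=
  ∑ n ∈ Finset.range N, if l - w ∈ Lev M n then
    xn M v n * ∑ q, (am M n (l - w) q : ℝ) * (w q : ℝ) else 0

lemma qs_eq' (n m : ℕ) (l : K3) (i : Fin 3) : qs M n m l i
    = ∑ w ∈ Lev M m, (if l - w ∈ Lev M n then ∑ q, (am M n (l - w) q : ℝ) * (w q : ℝ) else 0)
      * (am M m w i : ℝ) := by
  unfold qs
  rw [Finset.sum_comm]
  refine Finset.sum_congr rfl fun w _ => ?_
  have e : ∀ v' : K3, (v' + w = l) ↔ v' = l - w := fun v' => by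
    constructor
    · intro h; rw [← h]; abel
    · intro h; rw [h]; abel
  simp only [e]
  rw [Finset.sum_ite_eq']
  split_ifs <;> ring

lemma qs_form (l : K3) (i : Fin 3) (N m : ℕ) :
    ∑ n ∈ Finset.range N, (xn M v m * xn M v n) * qs M n m l i
      = ∑ w ∈ Lev M m, xn M v m * (am M m w i : ℝ) * chS M v l w N := by
  have h1 : ∀ n ∈ Finset.range N, (xn M v m * xn M v n) * qs M n m l i
      = ∑ w ∈ Lev M m, (xn M v m * xn M v n) * ((if l - w ∈ Lev M n then
        ∑ q, (am M n (l - w) q : ℝ) * (w q : ℝ) else 0) * (am M m w i : ℝ)) := by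
    intro n _
    rw [qs_eq', Finset.mul_sum]
  rw [Finset.sum_congr rfl h1, Finset.sum_comm]
  refine Finset.sum_congr rfl fun w _ => ?_
  unfold chS
  rw [Finset.mul_sum]
  refine Finset.sum_congr rfl fun n _ => ?_
  split_ifs <;> ring

section inv

variable (hM : 0 < M) (hv1 : ContDiff ℝ 1 v) (hp : Periodic3 v)
  (hd : ∀ x, divergence v x = 0) (hv : InvField v)

include hM hv1 hp hd hv

lemma chS_eq {l w : K3} {n N : ℕ} (h : l - w ∈ Lev M n) (hn : n < N) :
    dt (cv v) (l - w) w = -Complex.I * (chS M v l w N : ℂ) := by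
  unfold chS
  rw [Finset.sum_eq_single_of_mem n (Finset.mem_range.2 hn)]
  · rw [if_pos h]
    unfold dt
    push_cast
    rw [Finset.mul_sum, Finset.mul_sum]
    refine Finset.sum_congr rfl fun q _ => ?_
    rw [cv_Lev hM hv1 hp hd hv h]
    ring
  · intro m _ hm
    rw [if_neg fun h' => hm (Lev_disjoint hM h' h)]

omit hM hv1 hp hd hv in
lemma chS_zero {l w : K3} {N : ℕ} (h : l - w ∉ Cset M) : chS M v l w N = 0 := by
  unfold chS
  exact Finset.sum_eq_zero fun n _ => if_neg fun h' => h ⟨n, h'⟩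

/-- The summand as a real number. -/
lemma St_eq {l w : K3} {n m N : ℕ} (hl : l ∈ Lev M n) (hw : w ∈ Lev M m) (hN : n + 2 ≤ N)
    (i : Fin 3) : St M v l i w
      = -Complex.I * ((xn M v m * (am M m w i : ℝ) * chS M v l w N : ℝ) : ℂ) := by
  unfold St
  by_cases h : l - w ∈ Cset M
  · rw [if_pos ⟨⟨m, hw⟩, h⟩]
    obtain ⟨k, hk⟩ := h
    have hcl := classify hM hk hw (by rwa [sub_add_cancel])
    rw [chS_eq hM hv1 hp hd hv hk (N := N) (by omega), cv_Lev hM hv1 hp hd hv hw]
    push_cast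
    have := Complex.I_sq
    linear_combination (Complex.I * (chS M v l w N : ℂ) * (xn M v m : ℂ) * (am M m w i : ℂ)) * this
  · rw [if_neg fun h' => h h'.2, chS_zero h]
    simp

/-- The sum over the interactions within the chain. -/
theorem St_sum {l : K3} {j : ℕ} (hl : l ∈ Lev M j) (i : Fin 3) :
    HasSum (St M v l i) (-Complex.I * (((-Fc M j * xn M v (j - 1) ^ 2
        + gc M j * xn M v j * xn M v (j + 1)) * (am M j l i : ℝ)
        + pc j * xn M v (j - 1) ^ 2 * (l i : ℝ) : ℝ) : ℂ)) := by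
  classical
  set N := j + 2 with hN
  have h1 := sum_qs hM (N := N) (by omega) hl (xn M v) i
  rw [← h1]
  have h2 : ∑ m ∈ Finset.range N, ∑ n ∈ Finset.range N, (xn M v m * xn M v n) * qs M n m l i
      = ∑ m ∈ Finset.range N, ∑ w ∈ Lev M m, xn M v m * (am M m w i : ℝ) * chS M v l w N :=
    Finset.sum_congr rfl fun m _ => qs_form l i N m
  rw [h2]
  have hdisj : Set.PairwiseDisjoint (↑(Finset.range N)) (Lev M) := by
    intro n _ m _ hnm
    rw [Function.onFun, Finset.disjoint_left]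
    intro k hk1 hk2
    exact hnm (Lev_disjoint hM hk1 hk2)
  have h3 : (-Complex.I * ((∑ m ∈ Finset.range N, ∑ w ∈ Lev M m,
      xn M v m * (am M m w i : ℝ) * chS M v l w N : ℝ) : ℂ))
      = ∑ w ∈ (Finset.range N).biUnion (Lev M), St M v l i w := by
    rw [Finset.sum_biUnion hdisj]
    push_cast
    rw [Finset.mul_sum]
    refine Finset.sum_congr rfl fun m _ => ?_
    rw [Finset.mul_sum]
    refine Finset.sum_congr rfl fun w hw => ?_
    rw [St_eq hM hv1 hp hd hv hl hw le_rfl]
    push_cast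
    rfl
  rw [h3]
  refine hasSum_sum_of_ne_finset_zero fun w hw => ?_
  unfold St
  refine if_neg fun h => hw ?_
  obtain ⟨⟨m, hm⟩, ⟨k, hk⟩⟩ := h
  have hcl := classify hM hk hm (by rwa [sub_add_cancel])
  exact Finset.mem_biUnion.2 ⟨m, Finset.mem_range.2 (by omega), hm⟩

end inv

end Pool.Agent.R211.SV
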