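import Pool.Agent.R211.SV.Uniq

/-!
Invariance under signed permutations of the coordinates.
-/

set_option autoImplicit false

open Set Filter Topology MeasureTheory
open scoped ComplexConjugate

namespace Pool.Agent.R211.SV

open Pool.Agent.H708R2.EulerSign (V Periodic3 Dom divergence grad sum_mul_clm sum_mul_clm'
  divergence_eq_sum contDiff_slice sq3 dom_bdd dom_meas dom_lt_top)
open Pool.Agent.H708R2.EulerModes
open Pool.Agent.Y302.Trunc (K3)
open Pool.Agent.Y302.Tri

/-- Signs. -/
def IsSign (e : Fin 3 → ℤ) : Prop := ∀ i, e i = 1 ∨ e i = -1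

/-- The signed permutation `x ↦ (eᵢ x_{σ i})ᵢ` of `ℝ³`. -/
def actV (e : Fin 3 → ℤ) (σ : Equiv.Perm (Fin 3)) (x : V) : V := fun i => (e i : ℝ) * x (σ i)

/-- The signed permutation `k ↦ (eᵢ k_{σ i})ᵢ` of `ℤ³`. -/
def actK (e : Fin 3 → ℤ) (σ : Equiv.Perm (Fin 3)) (k : K3) : K3 := fun i => e i * k (σ i)

/-- The field `v` commutes with all signed permutations. -/
def InvField (v : V → V) : Prop :=
  ∀ e σ, IsSign e → ∀ x, v (actV e σ x) = actV e σ (v x)

/-- The symbol `d` is invariant under all signed permutations. -/
def InvSymbol (d : K3 → ℝ) : Prop := ∀ e σ, IsSign e → ∀ k, d (actK e σ k) = d k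

variable {e : Fin 3 → ℤ} {σ : Equiv.Perm (Fin 3)}

lemma IsSign.sq (he : IsSign e) (i : Fin 3) : (e i : ℝ) * (e i : ℝ) = 1 := by
  rcases he i with h | h <;> rw [h] <;> norm_num

lemma IsSign.sq' (he : IsSign e) (i : Fin 3) : e i * e i = 1 := by
  rcases he i with h | h <;> rw [h] <;> norm_num

/-- Signed permutations as linear maps. -/
noncomputable def actL (e : Fin 3 → ℤ) (σ : Equiv.Perm (Fin 3)) : V →L[ℝ] V :=
  ContinuousLinearMap.pi fun i => (e i : ℝ) • ContinuousLinearMap.proj (σ i)

lemma actL_apply (x : V) : actL e σ x = actV e σ x := by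
  funext i
  simp [actL, actV]

/-- The inverse of a signed permutation. -/
noncomputable def invL (e : Fin 3 → ℤ) (σ : Equiv.Perm (Fin 3)) : V →L[ℝ] V :=
  ContinuousLinearMap.pi fun j => (e (σ.symm j) : ℝ) • ContinuousLinearMap.proj (σ.symm j)

lemma invL_apply (x : V) (j : Fin 3) : invL e σ x j = (e (σ.symm j) : ℝ) * x (σ.symm j) := by
  simp [invL]

lemma act_inv (he : IsSign e) (x : V) : actV e σ (invL e σ x) = x := by
  funext i
  unfold actV
  rw [invL_apply, Equiv.symm_apply_apply, ← mul_assoc, he.sq, one_mul]

lemma inv_act (he : IsSign e) (x : V) : invL e σ (actV e σ x) = x := by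
  funext j
  rw [invL_apply]
  unfold actV
  rw [Equiv.apply_symm_apply, ← mul_assoc, he.sq, one_mul]

lemma actV_single (j : Fin 3) (c : ℝ) :
    actV e σ (Pi.single j c) = Pi.single (σ.symm j) ((e (σ.symm j) : ℝ) * c) := by
  funext i
  unfold actV
  by_cases h : i = σ.symm j
  · subst h
    simp
  · have h' : σ i ≠ j := fun h2 => h (by rw [← h2]; simp)
    simp [h, h']

lemma ph_act (he : IsSign e) (k : K3) (x : V) : ph (actK e σ k) (actV e σ x) = ph k x := by
  unfold ph actK actV
  have h : ∀ i, (((e i * k (σ i) : ℤ)) : ℝ) * ((e i : ℝ) * x (σ i)) = (k (σ i) : ℝ) * x (σ i) := by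
    intro i
    push_cast
    have := he.sq i
    linear_combination (k (σ i) : ℝ) * x (σ i) * this
  simp only [h]
  exact Equiv.sum_comp σ fun i => (k i : ℝ) * x i

lemma periodic_sign {F : Type*} {f : V → F} (hf : Periodic3 f) (he : IsSign e) (i : Fin 3)
    (x : V) : f (x + Pi.single i ((e i : ℝ) * (2 * Real.pi))) = f x := by
  rcases he i with h | h
  · rw [h]
    simpa using hf i x
  · rw [h]
    have e1 : (Pi.single i (((-1 : ℤ) : ℝ) * (2 * Real.pi)) : V)
        = -Pi.single i (2 * Real.pi) := by
      rw [← Pi.single_neg]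
      congr 1
      push_cast
      ring
    rw [e1]
    have h2 := hf i (x + -Pi.single i (2 * Real.pi))
    rw [neg_add_cancel_right] at h2
    exact h2.symm

lemma periodic_act {F : Type*} {f : V → F} (hf : Periodic3 f) (he : IsSign e) :
    Periodic3 (fun x => f (actV e σ x)) := by
  intro j x
  simp only
  have h1 : actV e σ (x + Pi.single j (2 * Real.pi))
      = actV e σ x + actV e σ (Pi.single j (2 * Real.pi)) := by
    rw [← actL_apply, ← actL_apply, ← actL_apply, map_add]
  rw [h1, actV_single]
  exact periodic_sign hf he (σ.symm j) _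

lemma measurePreserving_act (he : IsSign e) :
    MeasurePreserving (actV e σ) (volume : Measure V) volume := by
  have h1 : MeasurePreserving (fun (x : V) (i : Fin 3) => (e i : ℝ) * x i) volume volume := by
    refine volume_preserving_pi (f := fun i (y : ℝ) => (e i : ℝ) * y) fun i => ?_
    rcases he i with h | h
    · have : (fun y : ℝ => (e i : ℝ) * y) = id := by
        funext y
        rw [h]
        push_cast
        simp
      rw [this]
      exact MeasurePreserving.id _
    · have : (fun y : ℝ => (e i : ℝ) * y) = Neg.neg := by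
        funext y
        rw [h]
        push_cast
        ring
      rw [this]
      exact Measure.measurePreserving_neg _
  have h2 := volume_measurePreserving_piCongrLeft (fun _ : Fin 3 => ℝ) σ.symm
  have h3 := h1.comp h2
  have h4 : (fun (x : V) (i : Fin 3) => (e i : ℝ) * x i) ∘
      (MeasurableEquiv.piCongrLeft (fun _ : Fin 3 => ℝ) σ.symm) = actV e σ := by
    funext x i
    simp only [Function.comp_apply, actV]
    congr 1
    have h5 := Equiv.piCongrLeft_apply_apply (P := fun _ : Fin 3 => ℝ) (e := σ.symm) x (σ i)
    rw [Equiv.symm_apply_apply] at h5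
    exact h5
  rwa [h4] at h3

lemma actV_injective (he : IsSign e) : Function.Injective (actV e σ) := by
  intro x y h
  rw [← inv_act (σ := σ) he x, ← inv_act (σ := σ) he y, h]

lemma actV_embedding (he : IsSign e) : MeasurableEmbedding (actV e σ) := by
  have hc : Continuous (actV e σ) := by
    have : actV e σ = actL e σ := by
      funext x
      rw [actL_apply]
    rw [this]
    exact (actL e σ).continuous
  exact hc.measurableEmbedding (actV_injective he)

lemma preimage_cube (he : IsSign e) : actV e σ ⁻¹' cube = cube := by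
  ext x
  simp only [mem_preimage, cube, mem_Icc, Pi.le_def, actV]
  have key : ∀ i, (-Real.pi ≤ (e i : ℝ) * x (σ i) ∧ (e i : ℝ) * x (σ i) ≤ Real.pi)
      ↔ (-Real.pi ≤ x (σ i) ∧ x (σ i) ≤ Real.pi) := by
    intro i
    rcases he i with h | h
    · rw [h]
      push_cast
      rw [one_mul]
    · rw [h]
      push_cast
      constructor
      · rintro ⟨h1, h2⟩
        constructor <;> linarith
      · rintro ⟨h1, h2⟩
        constructor <;> linarith
  rw [← forall_and, ← forall_and]
  constructor
  · intro h j
    have := (key (σ.symm j)).1 (h (σ.symm j))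
    rwa [Equiv.apply_symm_apply] at this
  · intro h i
    exact (key i).2 (h (σ i))

lemma integral_act {f : V → ℝ} (hf : Periodic3 f) (he : IsSign e) :
    ∫ x in Dom, f (actV e σ x) = ∫ x in Dom, f x := by
  rw [← integral_cube hf, ← integral_cube (periodic_act hf he)]
  have h := (measurePreserving_act (σ := σ) he).setIntegral_preimage_emb (actV_embedding he) f cube
  rw [preimage_cube he] at h
  exact h

/-- The Fourier coefficients of a transformed function. -/
lemma cf_act {f : V → ℝ} (hf : Periodic3 f) (hc : Continuous f) (he : IsSign e) (k : K3) :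
    cf (fun x => f (actV e σ x)) k = cf f (actK e σ k) := by
  have hc' : Continuous (fun x => f (actV e σ x)) := by
    have : ∀ x, actV e σ x = actL e σ x := fun x => (actL_apply x).symm
    simp only [this]
    exact hc.comp (actL e σ).continuous
  rw [cf_eq (periodic_act hf he) hc', cf_eq hf hc]
  have h1 : ∫ x in Dom, f (actV e σ x) * Real.cos (ph k x)
      = ∫ x in Dom, f x * Real.cos (ph (actK e σ k) x) := by
    have hp : Periodic3 (fun x => f x * Real.cos (ph (actK e σ k) x)) := by
      intro j x
      have := cos_periodic (actK e σ k) j x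
      simp only at this ⊢
      rw [this, hf j x]
    rw [← integral_act (σ := σ) hp he]
    simp only [ph_act he]
  have h2 : ∫ x in Dom, f (actV e σ x) * Real.sin (ph k x)
      = ∫ x in Dom, f x * Real.sin (ph (actK e σ k) x) := by
    have hp : Periodic3 (fun x => f x * Real.sin (ph (actK e σ k) x)) := by
      intro j x
      have := sin_periodic (actK e σ k) j x
      simp only at this ⊢
      rw [this, hf j x]
    rw [← integral_act (σ := σ) hp he]
    simp only [ph_act he]
  rw [h1, h2]

end Pool.Agent.R211.SV
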