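import Pool.Agent.R211.SV.Sym

/-!
Invariance of the solutions under signed permutations of the coordinates.
-/

set_option autoImplicit false

open Set Filter Topology MeasureTheory
open scoped ComplexConjugate

namespace Pool.Agent.R211.SV

open Pool.Agent.H708R2.EulerSign (V Periodic3 Dom divergence grad sum_mul_clm sum_mul_clm'
  divergence_eq_sum contDiff_slice sq3 dom_bdd dom_meas dom_lt_top)
open Pool.Agent.H708R2.EulerModes
open Pool.Agent.Y302.Trunc (K3)
open Pool.Agent.Y302.Tri

variable {e : Fin 3 → ℤ} {σ : Equiv.Perm (Fin 3)} {d : K3 → ℝ} {T : ℝ} {u : ℝ → V → V}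
  {p : ℝ → V → ℝ}

/-- The transformed velocity. -/
noncomputable def trU (e : Fin 3 → ℤ) (σ : Equiv.Perm (Fin 3)) (u : ℝ → V → V) (t : ℝ) (x : V) :
    V := invL e σ (u t (actL e σ x))

/-- The transformed pressure. -/
noncomputable def trP (e : Fin 3 → ℤ) (σ : Equiv.Perm (Fin 3)) (p : ℝ → V → ℝ) (t : ℝ) (x : V) :
    ℝ := p t (actL e σ x)

lemma actL_single (j : Fin 3) : actL e σ (Pi.single j 1)
    = (e (σ.symm j) : ℝ) • (Pi.single (σ.symm j) (1 : ℝ) : V) := by
  rw [actL_apply, actV_single, ← Pi.single_smul, smul_eq_mul]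

section base

variable (hu : Base (Ico 0 T) u p)

include hu

lemma fderiv_trU {t : ℝ} (ht : t ∈ Ico 0 T) (x : V) :
    fderiv ℝ (trU e σ u t) x = (invL e σ).comp ((fderiv ℝ (u t) (actL e σ x)).comp (actL e σ)) := by
  have hut : ContDiff ℝ 1 (u t) := contDiff_slice hu.contDiffOn_u ht
  have h1 := ((hut.differentiable one_ne_zero) (actL e σ x)).hasFDerivAt.comp x
    (actL e σ).hasFDerivAt
  exact ((invL e σ).hasFDerivAt.comp x h1).fderiv

lemma fderiv_trP {t : ℝ} (ht : t ∈ Ico 0 T) (x : V) :
    fderiv ℝ (trP e σ p t) x = (fderiv ℝ (p t) (actL e σ x)).comp (actL e σ) := by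
  have hpt : ContDiff ℝ 1 (p t) := contDiff_slice hu.contDiffOn_p ht
  have h1 := ((hpt.differentiable one_ne_zero) (actL e σ x)).hasFDerivAt.comp x
    (actL e σ).hasFDerivAt
  exact h1.fderiv

lemma lin_tr {t : ℝ} (ht : t ∈ Ico 0 T) (j : Fin 3) (x : V) :
    lin (Ico 0 T) (trU e σ u) (trP e σ p) t j x
      = (e (σ.symm j) : ℝ) * lin (Ico 0 T) u p t (σ.symm j) (actL e σ x) := by
  unfold lin
  rw [fderiv_trP hu ht, ContinuousLinearMap.comp_apply, actL_single, map_smul, smul_eq_mul,
    mul_add]
  congr 1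
  have h1 : (fun s => trU e σ u s x j) = fun s => (e (σ.symm j) : ℝ) *
      u s (actL e σ x) (σ.symm j) := by
    funext s
    unfold trU
    rw [invL_apply]
  rw [h1]
  exact derivWithin_const_mul_field _

lemma cvt_tr (he : IsSign e) {t : ℝ} (ht : t ∈ Ico 0 T) (j : Fin 3) (x : V) :
    cvt (trU e σ u t) j x = (e (σ.symm j) : ℝ) * cvt (u t) (σ.symm j) (actL e σ x) := by
  rw [cvt_eq, cvt_eq, fderiv_trU hu ht, ContinuousLinearMap.comp_apply,
    ContinuousLinearMap.comp_apply, invL_apply]
  have h : actL e σ (trU e σ u t x) = u t (actL e σ x) := by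
    unfold trU
    rw [actL_apply (invL e σ _), act_inv he]
  rw [h]

lemma base_tr (he : IsSign e) : Base (Ico 0 T) (trU e σ u) (trP e σ p) where
  contDiffOn_u := by
    have h1 : ContDiffOn ℝ 1 (fun z : ℝ × V => u z.1 (actL e σ z.2)) (Ico 0 T ×ˢ univ) :=
      hu.contDiffOn_u.comp (f := fun z : ℝ × V => ((z.1, actL e σ z.2) : ℝ × V))
        (contDiff_fst.prodMk ((actL e σ).contDiff.comp contDiff_snd)).contDiffOn
        (fun z hz => ⟨hz.1, mem_univ _⟩)
    exact (invL e σ).contDiff.comp_contDiffOn h1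
  contDiffOn_p := hu.contDiffOn_p.comp (f := fun z : ℝ × V => ((z.1, actL e σ z.2) : ℝ × V))
        (contDiff_fst.prodMk ((actL e σ).contDiff.comp contDiff_snd)).contDiffOn
        (fun z hz => ⟨hz.1, mem_univ _⟩)
  periodic_u t ht := by
    intro j x
    unfold trU
    have := periodic_act (σ := σ) (hu.periodic_u t ht) he j x
    simp only at this
    rw [actL_apply, actL_apply, this]
  periodic_p t ht := by
    intro j x
    unfold trP
    have := periodic_act (σ := σ) (hu.periodic_p t ht) he j x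
    simp only at this
    rw [actL_apply, actL_apply, this]
  div_free t ht x := by
    have h1 := hu.div_free t ht (actL e σ x)
    rw [divergence_eq_sum] at h1 ⊢
    rw [← h1, ← Equiv.sum_comp σ.symm
      (fun i => (fderiv ℝ (u t) (actL e σ x)) (Pi.single i 1) i)]
    refine Finset.sum_congr rfl fun j _ => ?_
    rw [fderiv_trU hu ht, ContinuousLinearMap.comp_apply, ContinuousLinearMap.comp_apply,
      invL_apply, actL_single, map_smul, Pi.smul_apply, smul_eq_mul, ← mul_assoc, he.sq, one_mul]

end base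

lemma cf_const_mul {f : V → ℝ} (c : ℝ) (k : K3) :
    cf (fun x => c * f x) k = (c : ℂ) * cf f k := by
  unfold cf H459R3.NS.fc
  rw [← integral_const_mul]
  congr 1
  funext y
  unfold Pool.Agent.Y302.Trunc.resc
  push_cast
  ring

lemma isSol_tr (hd : InvSymbol d) (hu : IsSol d T u p) (he : IsSign e) :
    IsSol d T (trU e σ u) (trP e σ p) := by
  refine ⟨base_tr hu.base he, fun t ht k j => ?_⟩
  have hut : ContDiff ℝ 1 (u t) := contDiff_slice hu.base.contDiffOn_u ht
  have h1 : (fun x => lin (Ico 0 T) (trU e σ u) (trP e σ p) t j x + cvt (trU e σ u t) j x)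
      = fun x => (e (σ.symm j) : ℝ) * (fun y => lin (Ico 0 T) u p t (σ.symm j) y
        + cvt (u t) (σ.symm j) y) (actV e σ x) := by
    funext x
    rw [lin_tr hu.base ht, cvt_tr hu.base he ht, actL_apply, ← mul_add]
  have h2 : cv (trU e σ u t) j k = (e (σ.symm j) : ℝ) * cv (u t) (σ.symm j) (actK e σ k) := by
    have h3 : (fun x => trU e σ u t x j)
        = fun x => (e (σ.symm j) : ℝ) * (fun y => u t y (σ.symm j)) (actV e σ x) := by
      funext x
      unfold trU
      rw [invL_apply, actL_apply]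
    unfold cv
    rw [h3, cf_const_mul, cf_act (comp_periodic (hu.base.periodic_u t ht) _)
      ((continuous_apply _).comp hut.continuous) he]
  rw [h1, cf_const_mul, cf_act (mt_periodic hu.base ht _) (mt_continuous hu.base ht _) he,
    hu.momentum t ht, h2, hd e σ he]
  ring

/-- The symmetry of the initial value is preserved. -/
theorem inv_preserved (hd0 : ∀ k, 0 ≤ d k) (hd : InvSymbol d) (hu : IsSol d T u p)
    (h0 : InvField (u 0)) {t : ℝ} (ht : t ∈ Ico 0 T) : InvField (u t) := by
  intro e σ he x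
  have h1 := unique hd0 (isSol_tr (σ := σ) hd hu he) hu (by
    funext y
    unfold trU
    rw [actL_apply, h0 e σ he, inv_act he]) t ht
  have h2 := congrFun h1 x
  unfold trU at h2
  rw [actL_apply] at h2
  rw [← act_inv (σ := σ) he (u t (actV e σ x)), h2]

/-- The Fourier coefficients of invariant fields. -/
lemma cv_act {v : V → V} (hc : Continuous v) (hp : Periodic3 v) (hv : InvField v) (he : IsSign e)
    (k : K3) (i : Fin 3) : cv v i (actK e σ k) = (e i : ℂ) * cv v (σ i) k := by
  have h1 := cf_act (σ := σ) (comp_periodic hp i) ((continuous_apply i).comp hc) he k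
  have h2 : (fun x => (fun y => v y i) (actV e σ x)) = fun x => (e i : ℝ) * v x (σ i) := by
    funext x
    simp only
    rw [hv e σ he]
    rfl
  unfold cv
  rw [← h1]
  have h3 : (fun x => v (actV e σ x) i) = fun x => (e i : ℝ) * v x (σ i) := h2
  rw [h3, cf_const_mul]
  push_cast
  rfl

end Pool.Agent.R211.SV
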