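import Pool.Agent.R211.SV.Ode

/-!
The weights of the functional.
-/

set_option autoImplicit false

open Set Filter Topology

namespace Pool.Agent.R211.SV

open Pool.Agent.Y302.Trunc
open Pool.Agent.Y302.KP (Fc gc sr)

/-- Base weights. -/
noncomputable def bst (s : ℝ) : ℕ → ℝ
  | 0 => 1
  | 1 => 160 / 13 * s ^ 4
  | 2 => s
  | _ => 2 * s ^ 2

/-- The weights. -/
noncomputable def bt (s q : ℝ) (n : ℕ) : ℝ := bst s (n % 4) * (1 / 2) ^ (n / 4) * q ^ n

variable {s q : ℝ}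

lemma bst_pos (hs : 0 < s) (n : ℕ) : 0 < bst s n := by
  unfold bst
  split <;> positivity

lemma bt_pos (hs : 0 < s) (hq : 0 < q) (n : ℕ) : 0 < bt s q n := by
  unfold bt
  have := bst_pos hs (n % 4)
  positivity

lemma bt_zero : bt s q 0 = 1 := by simp [bt, bst]

/-- The condition on the weights. -/
lemma bt_cond (hs5 : s ^ 5 = 13 / 640) {M : ℕ} (n : ℕ) :
    q ^ 3 * (bt s q n * gc M n) ^ 2
      = (bt s q (n + 1) * Fc M (n + 1)) * (bt s q (n + 2) * Fc M (n + 2)) := by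
  obtain ⟨j, i, hi, rfl, -, -⟩ := Pool.Agent.Y302.KP.mod_cases n
  unfold bt gc Fc sr
  interval_cases i
  · have e1 : (4 * j + 0) % 4 = 0 := by omega
    have e2 : (4 * j + 0) / 4 = j := by omega
    have e3 : (4 * j + 0 + 1) % 4 = 1 := by omega
    have e4 : (4 * j + 0 + 1) / 4 = j := by omega
    have e5 : (4 * j + 0 + 2) % 4 = 2 := by omega
    have e6 : (4 * j + 0 + 2) / 4 = j := by omega
    simp only [e1, e2, e3, e4, e5, e6]
    norm_num [bst, bac, num, den]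
    linear_combination (-(q ^ 3 * ((1 / 2) ^ j) ^ 2 * (q ^ (4 * j)) ^ 2 * ((M : ℝ) * 8 ^ j) ^ 2
      * (160 / 13 * 144))) * hs5
  · have e1 : (4 * j + 1) % 4 = 1 := by omega
    have e2 : (4 * j + 1) / 4 = j := by omega
    have e3 : (4 * j + 1 + 1) % 4 = 2 := by omega
    have e4 : (4 * j + 1 + 1) / 4 = j := by omega
    have e5 : (4 * j + 1 + 2) % 4 = 3 := by omega
    have e6 : (4 * j + 1 + 2) / 4 = j := by omega
    simp only [e1, e2, e3, e4, e5, e6]
    norm_num [bst, bac, num, den]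
    linear_combination (q ^ 3 * ((1 / 2) ^ j) ^ 2 * (q ^ (4 * j + 1)) ^ 2 * ((M : ℝ) * 8 ^ j) ^ 2
      * s ^ 3 * ((160 / 13) ^ 2 * 144)) * hs5
  · have e1 : (4 * j + 2) % 4 = 2 := by omega
    have e2 : (4 * j + 2) / 4 = j := by omega
    have e3 : (4 * j + 2 + 1) % 4 = 3 := by omega
    have e4 : (4 * j + 2 + 1) / 4 = j := by omega
    have e5 : (4 * j + 2 + 2) % 4 = 0 := by omega
    have e6 : (4 * j + 2 + 2) / 4 = j + 1 := by omega
    simp only [e1, e2, e3, e4, e5, e6]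
    norm_num [bst, bac, num, den]
    ring
  · have e1 : (4 * j + 3) % 4 = 3 := by omega
    have e2 : (4 * j + 3) / 4 = j := by omega
    have e3 : (4 * j + 3 + 1) % 4 = 0 := by omega
    have e4 : (4 * j + 3 + 1) / 4 = j + 1 := by omega
    have e5 : (4 * j + 3 + 2) % 4 = 1 := by omega
    have e6 : (4 * j + 3 + 2) / 4 = j + 1 := by omega
    simp only [e1, e2, e3, e4, e5, e6]
    norm_num [bst, bac, num, den]
    ring

lemma exists_s : ∃ s : ℝ, 0 < s ∧ s ^ 5 = 13 / 640 := by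
  refine ⟨(13 / 640 : ℝ) ^ (1 / 5 : ℝ), by positivity, ?_⟩
  rw [← Real.rpow_natCast, ← Real.rpow_mul (by norm_num)]
  norm_num

/-- Powers with the exponent `n / 4`. -/
lemma summable_div4 {x : ℝ} (hx0 : 0 < x) (hx1 : x < 1) : Summable fun n : ℕ => x ^ (n / 4) := by
  set y : ℝ := x ^ (1 / 4 : ℝ) with hy
  have hy0 : 0 < y := by positivity
  have hy4 : y ^ 4 = x := by
    rw [hy, ← Real.rpow_natCast, ← Real.rpow_mul hx0.le]
    norm_num
  have hy1 : y < 1 := Real.rpow_lt_one hx0.le hx1 (by norm_num)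
  refine Summable.of_nonneg_of_le (fun n => by positivity) (fun n => ?_)
    ((summable_geometric_of_lt_one hy0.le hy1).mul_left (y ^ 3)⁻¹)
  rw [← hy4, ← pow_mul]
  have h1 : y ^ (4 * (n / 4) + 3) ≤ y ^ n := pow_le_pow_of_le_one hy0.le hy1.le (by omega)
  rw [pow_add] at h1
  rw [le_inv_mul_iff₀ (by positivity)]
  linarith

/-- Two-sided bounds for the weights. -/
lemma bt_bounds (hs : 0 < s) (hq : 1 ≤ q) : ∃ c C : ℝ, 0 < c ∧ 0 < C ∧
    ∀ n, c * (q ^ 4 / 2) ^ (n / 4) ≤ bt s q n ∧ bt s q n ≤ C * (q ^ 4 / 2) ^ (n / 4) := by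
  have hb : ∀ i, 0 < bst s i := bst_pos hs
  set c := min (min (bst s 0) (bst s 1)) (min (bst s 2) (bst s 3)) with hc
  set C := max (max (bst s 0) (bst s 1)) (max (bst s 2) (bst s 3)) with hC
  have hc0 : 0 < c := lt_min (lt_min (hb _) (hb _)) (lt_min (hb _) (hb _))
  have hC0 : 0 < C := (hb 0).trans_le ((le_max_left _ _).trans (le_max_left _ _))
  refine ⟨c, C * q ^ 3, hc0, by positivity, fun n => ?_⟩
  have hq0 : 0 < q := by linarith
  have e : bt s q n = (bst s (n % 4) * q ^ (n % 4)) * (q ^ 4 / 2) ^ (n / 4) := by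
    unfold bt
    have h1 : q ^ n = q ^ (4 * (n / 4)) * q ^ (n % 4) := by
      rw [← pow_add, Nat.div_add_mod]
    rw [h1, pow_mul, div_pow, one_pow, div_pow]
    ring
  have h4 : n % 4 < 4 := Nat.mod_lt _ (by norm_num)
  have hlo : c ≤ bst s (n % 4) := by
    generalize n % 4 = k at *
    interval_cases k
    · exact (min_le_left _ _).trans (min_le_left _ _)
    · exact (min_le_left _ _).trans (min_le_right _ _)
    · exact (min_le_right _ _).trans (min_le_left _ _)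
    · exact (min_le_right _ _).trans (min_le_right _ _)
  have hup : bst s (n % 4) ≤ C := by
    generalize n % 4 = k at *
    interval_cases k
    · exact (le_max_left _ _).trans (le_max_left _ _)
    · exact (le_max_right _ _).trans (le_max_left _ _)
    · exact (le_max_left _ _).trans (le_max_right _ _)
    · exact (le_max_right _ _).trans (le_max_right _ _)
  have hq1 : 1 ≤ q ^ (n % 4) := one_le_pow₀ hq
  have hq3 : q ^ (n % 4) ≤ q ^ 3 := pow_le_pow_right₀ hq (by omega)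
  have hp : 0 < (q ^ 4 / 2) ^ (n / 4) := by positivity
  rw [e]
  constructor
  · refine mul_le_mul_of_nonneg_right ?_ hp.le
    calc c ≤ bst s (n % 4) := hlo
      _ = bst s (n % 4) * 1 := (mul_one _).symm
      _ ≤ _ := mul_le_mul_of_nonneg_left hq1 (hb _).le
  · refine mul_le_mul_of_nonneg_right ?_ hp.le
    exact mul_le_mul hup hq3 (by positivity) hC0.le

/-- Bounds for the forward coefficients. -/
lemma Fc_bounds {M : ℕ} (n : ℕ) :
    10 * (M * 8 ^ (n / 4)) ≤ Fc M (n + 1) ∧ Fc M (n + 1) ≤ 29 * (M * 8 ^ (n / 4)) := by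
  unfold Fc sr
  have hp : (0 : ℝ) ≤ M * 8 ^ (n / 4) := by positivity
  have h4 : n % 4 < 4 := Nat.mod_lt _ (by norm_num)
  have h : 10 ≤ (num (n % 4) : ℝ) / (den (n % 4) : ℝ) ∧
      (num (n % 4) : ℝ) / (den (n % 4) : ℝ) ≤ 29 := by
    generalize n % 4 = k at *
    interval_cases k <;> norm_num [num, den]
  constructor
  · nlinarith [h.1]
  · nlinarith [h.2]

/-- The squared length of the base frequencies. -/
lemma l0_sq_le {M : ℕ} (hM : 0 < M) (n : ℕ) :
    ∑ i, (l0 M n i : ℝ) ^ 2 ≤ 432 * ((M : ℝ) ^ 2 * 64 ^ (n / 4)) := by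
  have h1 : ∀ i, (l0 M n i : ℝ) ^ 2 ≤ 144 * ((M : ℝ) ^ 2 * 64 ^ (n / 4)) := by
    intro i
    have h2 : |(l0 M n i : ℝ)| ≤ 12 * (sg M n : ℝ) := by
      exact_mod_cast Lev_up hM (l0_mem hM n) i
    have h4 : |(l0 M n i : ℝ)| ^ 2 ≤ (12 * (sg M n : ℝ)) ^ 2 :=
      pow_le_pow_left₀ (abs_nonneg _) h2 2
    rw [sq_abs] at h4
    refine h4.trans (le_of_eq ?_)
    unfold sg
    push_cast
    have e : ((8 : ℝ) ^ (n / 4)) ^ 2 = 64 ^ (n / 4) := by
      rw [← pow_mul, mul_comm, pow_mul]; norm_num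
    rw [mul_pow, mul_pow, e]
    norm_num
  calc ∑ i, (l0 M n i : ℝ) ^ 2 ≤ ∑ _i : Fin 3, 144 * ((M : ℝ) ^ 2 * 64 ^ (n / 4)) :=
        Finset.sum_le_sum fun i _ => h1 i
    _ = _ := by simp; ring

/-- The properties of the weights which are used. -/
structure Wts (α : ℝ) (β : ℕ → ℝ) (θ C : ℝ) : Prop where
  pos : ∀ n, 0 < β n
  zero : β 0 = 1
  th0 : 0 ≤ θ
  th1 : θ < 1
  C0 : 0 < C
  sum : Summable β
  tsum_le : ∑' n, β n ≤ C
  cond : ∀ M n, β n * gc M n ≤ θ * (√(β (n + 1) * Fc M (n + 1)) * √(β (n + 2) * Fc M (n + 2)))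
  up : ∀ M n, β (n + 1) * Fc M (n + 1) ≤ C * (M * 8 ^ (n / 4))
  s2 : ∀ M, 0 < M → Summable (fun n => β n ^ 2 / (β (n + 1) * Fc M (n + 1))) ∧
    ∑' n, β n ^ 2 / (β (n + 1) * Fc M (n + 1)) ≤ C / M
  s3 : ∀ M, 0 < M →
    Summable (fun n => β n ^ 2 * ((∑ i, (l0 M n i : ℝ) ^ 2) ^ α) ^ 2
      / (β (n + 1) * Fc M (n + 1))) ∧
    ∑' n, β n ^ 2 * ((∑ i, (l0 M n i : ℝ) ^ 2) ^ α) ^ 2 / (β (n + 1) * Fc M (n + 1))
      ≤ C * (((M : ℝ) ^ 2) ^ α) ^ 2 / M

/-- Weights exist for `α < 1 / 3`. -/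
theorem exists_wts {α : ℝ} (hα0 : 0 ≤ α) (hα : α < 1 / 3) :
    ∃ (β : ℕ → ℝ) (θ C : ℝ), Wts α β θ C := by
  obtain ⟨s, hs, hs5⟩ := exists_s
  -- the base of the growth
  set c8 : ℝ := ((64 : ℝ) ^ α) ^ 2 / 8 with hc8
  have hc8p : 0 < c8 := by positivity
  have hc2 : c8 < 2 := by
    have h1 : ((64 : ℝ) ^ α) ^ 2 = (4096 : ℝ) ^ α := by
      rw [← Real.rpow_natCast, ← Real.rpow_mul (by norm_num), mul_comm, Real.rpow_mul (by norm_num)]
      norm_num
    have h2 : (4096 : ℝ) ^ α < (4096 : ℝ) ^ (1 / 3 : ℝ) :=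
      Real.rpow_lt_rpow_of_exponent_lt (by norm_num) hα
    have h3 : (4096 : ℝ) ^ (1 / 3 : ℝ) = 16 := by
      rw [show (4096 : ℝ) = 16 ^ (3 : ℕ) by norm_num, ← Real.rpow_natCast,
        ← Real.rpow_mul (by norm_num)]
      norm_num
    rw [hc8, h1]
    rw [h3] at h2
    linarith
  obtain ⟨Q, hQ1, hQ2⟩ : ∃ Q, 1 < Q ∧ Q < min 2 (2 / c8) := by
    refine exists_between (lt_min (by norm_num) ?_)
    rw [lt_div_iff₀ hc8p]
    linarith
  have hQ0 : 0 < Q := by linarith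
  set q : ℝ := Q ^ (1 / 4 : ℝ) with hq
  have hq0 : 0 < q := by positivity
  have hq4 : q ^ 4 = Q := by
    rw [hq, ← Real.rpow_natCast, ← Real.rpow_mul hQ0.le]
    norm_num
  have hq1 : 1 < q := Real.one_lt_rpow hQ1 (by norm_num)
  have hQ3 : Q < 2 := hQ2.trans_le (min_le_left _ _)
  have hQ4 : Q * c8 < 2 := by
    have := hQ2.trans_le (min_le_right _ _)
    rwa [lt_div_iff₀ hc8p] at this
  set B : ℝ := q ^ 4 / 2 with hB
  have hB0 : 0 < B := by positivity
  have hB1 : B < 1 := by rw [hB, hq4]; linarith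
  have hBc : B * c8 < 1 := by rw [hB, hq4]; linarith
  obtain ⟨c, C, hc, hC, hcC⟩ := bt_bounds hs hq1.le
  have hpos : ∀ n, 0 < bt s q n := bt_pos hs hq0
  have hsum4 := summable_div4 hB0 hB1
  have hsum4c := summable_div4 (mul_pos hB0 hc8p) hBc
  set S₁ := ∑' n : ℕ, B ^ (n / 4) with hS₁
  set S₂ := ∑' n : ℕ, (B * c8) ^ (n / 4) with hS₂
  have hS₁p : 0 ≤ S₁ := tsum_nonneg fun n => by positivity
  have hS₂p : 0 ≤ S₂ := tsum_nonneg fun n => by positivity
  set θ : ℝ := √(1 / q ^ 3) with hθ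
  -- the quotient
  set K : ℝ := C ^ 2 / (c * B * 10) with hK
  have hK0 : 0 < K := by positivity
  have hquot : ∀ M : ℕ, 0 < M → ∀ n, bt s q n ^ 2 / (bt s q (n + 1) * Fc M (n + 1))
      ≤ K / (M * 8 ^ (n / 4)) * B ^ (n / 4) := by
    intro M hM n
    have hM' : (0 : ℝ) < M := by exact_mod_cast hM
    have h1 : bt s q n ^ 2 ≤ (C * B ^ (n / 4)) ^ 2 :=
      pow_le_pow_left₀ (hpos n).le (hcC n).2 2
    have h2 : c * B ^ (n / 4 + 1) ≤ bt s q (n + 1) := by
      refine le_trans ?_ (hcC (n + 1)).1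
      refine mul_le_mul_of_nonneg_left ?_ hc.le
      exact pow_le_pow_of_le_one hB0.le hB1.le (by omega)
    have h3 := (Fc_bounds (M := M) n).1
    have h4 : (c * B ^ (n / 4 + 1)) * (10 * (M * 8 ^ (n / 4)))
        ≤ bt s q (n + 1) * Fc M (n + 1) :=
      mul_le_mul h2 h3 (by positivity) (hpos _).le
    calc bt s q n ^ 2 / (bt s q (n + 1) * Fc M (n + 1))
        ≤ (C * B ^ (n / 4)) ^ 2 / ((c * B ^ (n / 4 + 1)) * (10 * (M * 8 ^ (n / 4)))) :=
          div_le_div₀ (by positivity) h1 (by positivity) h4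
      _ = K / (M * 8 ^ (n / 4)) * B ^ (n / 4) := by
          rw [hK]
          field_simp
          ring
  refine ⟨bt s q, θ, C * S₁ + 29 * C + K * S₁ + K * ((432 : ℝ) ^ α) ^ 2 * S₂ + 1, hpos, bt_zero,
    Real.sqrt_nonneg _, ?_, by positivity, ?_, ?_, fun M n => ?_, fun M n => ?_, fun M hM => ?_,
    fun M hM => ?_⟩
  · rw [hθ, Real.sqrt_lt' one_pos, one_pow, div_lt_one (by positivity)]
    exact one_lt_pow₀ hq1 (by norm_num)
  · exact Summable.of_nonneg_of_le (fun n => (hpos n).le) (fun n => (hcC n).2) (hsum4.mul_left C)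
  · have h1 : ∑' n, bt s q n ≤ C * S₁ := by
      rw [hS₁, ← tsum_mul_left]
      exact (Summable.of_nonneg_of_le (fun n => (hpos n).le) (fun n => (hcC n).2)
        (hsum4.mul_left C)).tsum_le_tsum (fun n => (hcC n).2) (hsum4.mul_left C)
    have h2 : 0 ≤ K * S₁ := by positivity
    have h3 : 0 ≤ K * ((432 : ℝ) ^ α) ^ 2 * S₂ := by positivity
    linarith
  · have h1 := bt_cond (q := q) hs5 (M := M) n
    have ha : 0 ≤ bt s q (n + 1) * Fc M (n + 1) :=
      mul_nonneg (hpos _).le (le_trans (by positivity) (Fc_bounds n).1)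
    rw [hθ, ← Real.sqrt_mul ha, ← Real.sqrt_mul (by positivity), ← h1]
    refine Real.le_sqrt_of_sq_le (le_of_eq ?_)
    field_simp
  · have h1 : bt s q (n + 1) ≤ C := by
      refine (hcC (n + 1)).2.trans ?_
      calc C * B ^ ((n + 1) / 4) ≤ C * 1 :=
            mul_le_mul_of_nonneg_left (pow_le_one₀ hB0.le hB1.le) hC.le
        _ = C := mul_one C
    have h2 := (Fc_bounds (M := M) n).2
    have h3 : (0 : ℝ) ≤ M * 8 ^ (n / 4) := by positivity
    have h0 : 0 ≤ Fc M (n + 1) := le_trans (by positivity) (Fc_bounds n).1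
    calc bt s q (n + 1) * Fc M (n + 1) ≤ C * (29 * (M * 8 ^ (n / 4))) :=
          mul_le_mul h1 h2 h0 hC.le
      _ = (29 * C) * (M * 8 ^ (n / 4)) := by ring
      _ ≤ _ := by
          refine mul_le_mul_of_nonneg_right ?_ h3
          have h4 : 0 ≤ K * S₁ := by positivity
          have h5 : 0 ≤ K * ((432 : ℝ) ^ α) ^ 2 * S₂ := by positivity
          have h6 : 0 ≤ C * S₁ := by positivity
          linarith
  · have hM' : (0 : ℝ) < M := by exact_mod_cast hM
    have hle : ∀ n, bt s q n ^ 2 / (bt s q (n + 1) * Fc M (n + 1)) ≤ (K / M) * B ^ (n / 4) := by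
      intro n
      refine (hquot M hM n).trans ?_
      refine mul_le_mul_of_nonneg_right ?_ (by positivity)
      refine div_le_div_of_nonneg_left hK0.le hM' ?_
      have : (1 : ℝ) ≤ 8 ^ (n / 4) := one_le_pow₀ (by norm_num)
      nlinarith
    have hnn : ∀ n, 0 ≤ bt s q n ^ 2 / (bt s q (n + 1) * Fc M (n + 1)) := fun n =>
      div_nonneg (sq_nonneg _) (mul_nonneg (hpos _).le
        (le_trans (by positivity) (Fc_bounds n).1))
    have hs := Summable.of_nonneg_of_le hnn hle (hsum4.mul_left (K / M))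
    refine ⟨hs, ?_⟩
    have h1 := hs.tsum_le_tsum hle (hsum4.mul_left (K / M))
    rw [tsum_mul_left] at h1
    refine h1.trans ?_
    rw [div_mul_eq_mul_div]
    refine div_le_div_of_nonneg_right ?_ hM'.le
    have h4 : 0 ≤ C * S₁ := by positivity
    have h5 : 0 ≤ K * ((432 : ℝ) ^ α) ^ 2 * S₂ := by positivity
    linarith
  · have hM' : (0 : ℝ) < M := by exact_mod_cast hM
    set X : ℝ := K * ((432 : ℝ) ^ α) ^ 2 * (((M : ℝ) ^ 2) ^ α) ^ 2 / M with hX
    have hX0 : 0 ≤ X := by positivity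
    have hle : ∀ n, bt s q n ^ 2 * ((∑ i, (l0 M n i : ℝ) ^ 2) ^ α) ^ 2
        / (bt s q (n + 1) * Fc M (n + 1)) ≤ X * (B * c8) ^ (n / 4) := by
      intro n
      have h1 := hquot M hM n
      have h2 : (∑ i, (l0 M n i : ℝ) ^ 2) ^ α
          ≤ (432 : ℝ) ^ α * ((M : ℝ) ^ 2) ^ α * ((64 : ℝ) ^ α) ^ (n / 4) := by
        calc (∑ i, (l0 M n i : ℝ) ^ 2) ^ α
            ≤ (432 * ((M : ℝ) ^ 2 * 64 ^ (n / 4))) ^ α :=
              Real.rpow_le_rpow (Finset.sum_nonneg fun _ _ => sq_nonneg _) (l0_sq_le hM n) hα0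
          _ = _ := by
              rw [Real.mul_rpow (by norm_num) (by positivity),
                Real.mul_rpow (by positivity) (by positivity), ← Real.rpow_natCast (64 : ℝ),
                ← Real.rpow_mul (by norm_num), mul_comm ((n / 4 : ℕ) : ℝ) α,
                Real.rpow_mul (by norm_num), Real.rpow_natCast]
              ring
      have h3 : ((∑ i, (l0 M n i : ℝ) ^ 2) ^ α) ^ 2
          ≤ ((432 : ℝ) ^ α) ^ 2 * (((M : ℝ) ^ 2) ^ α) ^ 2 * (c8 * 8) ^ (n / 4) := by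
        calc ((∑ i, (l0 M n i : ℝ) ^ 2) ^ α) ^ 2
            ≤ ((432 : ℝ) ^ α * ((M : ℝ) ^ 2) ^ α * ((64 : ℝ) ^ α) ^ (n / 4)) ^ 2 :=
              pow_le_pow_left₀ (Real.rpow_nonneg (Finset.sum_nonneg fun _ _ => sq_nonneg _) _) h2 2
          _ = _ := by
              have : c8 * 8 = ((64 : ℝ) ^ α) ^ 2 := by rw [hc8]; ring
              rw [this, mul_pow, mul_pow, ← pow_mul, ← pow_mul, mul_comm (n / 4) 2, pow_mul]
      have e : bt s q n ^ 2 * ((∑ i, (l0 M n i : ℝ) ^ 2) ^ α) ^ 2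
          / (bt s q (n + 1) * Fc M (n + 1))
          = bt s q n ^ 2 / (bt s q (n + 1) * Fc M (n + 1))
            * ((∑ i, (l0 M n i : ℝ) ^ 2) ^ α) ^ 2 := by ring
      rw [e]
      calc _ ≤ (K / (M * 8 ^ (n / 4)) * B ^ (n / 4)) *
            (((432 : ℝ) ^ α) ^ 2 * (((M : ℝ) ^ 2) ^ α) ^ 2 * (c8 * 8) ^ (n / 4)) :=
            mul_le_mul h1 h3 (sq_nonneg _) (by positivity)
        _ = X * (B * c8) ^ (n / 4) := by
            rw [hX, mul_pow, mul_pow]
            field_simp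
    have hnn : ∀ n, 0 ≤ bt s q n ^ 2 * ((∑ i, (l0 M n i : ℝ) ^ 2) ^ α) ^ 2
        / (bt s q (n + 1) * Fc M (n + 1)) := fun n =>
      div_nonneg (mul_nonneg (sq_nonneg _) (sq_nonneg _)) (mul_nonneg (hpos _).le
        (le_trans (by positivity) (Fc_bounds n).1))
    have hs := Summable.of_nonneg_of_le hnn hle (hsum4c.mul_left X)
    refine ⟨hs, ?_⟩
    have h1 := hs.tsum_le_tsum hle (hsum4c.mul_left X)
    rw [tsum_mul_left] at h1
    refine h1.trans ?_
    have e : X * S₂ = (K * ((432 : ℝ) ^ α) ^ 2 * S₂) * (((M : ℝ) ^ 2) ^ α) ^ 2 / M := by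
      rw [hX]; ring
    rw [e]
    refine div_le_div_of_nonneg_right ?_ hM'.le
    refine mul_le_mul_of_nonneg_right ?_ (sq_nonneg _)
    have h4 : 0 ≤ C * S₁ := by positivity
    have h5 : 0 ≤ K * S₁ := by positivity
    linarith

end Pool.Agent.R211.SV
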